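import Mathlib

open MeasureTheory Set Filter Topology
open scoped ENNReal NNReal

namespace Pool.Agent.H314.Robin

/-- Points of `ℝ^d`, `d = n + 2`, written as `(x, y)` with `x ∈ ℝ^(d-1)` and `y ∈ ℝ`. -/
abbrev Pt (n : ℕ) := (Fin (n + 1) → ℝ) × ℝ

/-- The epigraph `{(x, y) : y > ϕ x}`. -/
def epi {n : ℕ} (ϕ : (Fin (n + 1) → ℝ) → ℝ) : Set (Pt n) := {z | ϕ z.1 < z.2}

/-- Coordinate directions, `none` is the vertical one. -/
def dir {n : ℕ} : Option (Fin (n + 1)) → Pt n
  | none => (0, 1)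
  | some i => (Pi.single i 1, 0)

/-- Coordinate derivatives. -/
noncomputable def pd {n : ℕ} (v : Pt n → ℝ) (i : Option (Fin (n + 1))) (z : Pt n) : ℝ :=
  fderiv ℝ v z (dir i)

/-- The surface element `√(1 + |∇ϕ|²)` of the graph of `ϕ`. -/
noncomputable def surf {n : ℕ} (ϕ : (Fin (n + 1) → ℝ) → ℝ) (x : Fin (n + 1) → ℝ) : ℝ :=
  Real.sqrt (1 + ∑ i, (fderiv ℝ ϕ x (Pi.single i 1)) ^ 2)

/-- The weight. -/
noncomputable def rho {n : ℕ} (z : Pt n) : ℝ :=
  (1 + z.2 ^ 2)⁻¹ * ∏ i, (1 + (z.1 i) ^ 2)⁻¹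

/-- Logarithmic derivative of the weight. -/
noncomputable def qq {n : ℕ} : Option (Fin (n + 1)) → Pt n → ℝ
  | none => fun z => -(2 * z.2 / (1 + z.2 ^ 2))
  | some i => fun z => -(2 * z.1 i / (1 + (z.1 i) ^ 2))

section weight
variable {n : ℕ}

lemma one_add_sq_pos (t : ℝ) : 0 < 1 + t ^ 2 := by positivity

lemma rho_pos (z : Pt n) : 0 < rho z := by
  unfold rho
  exact mul_pos (inv_pos.mpr (one_add_sq_pos _))
    (Finset.prod_pos fun i _ => inv_pos.mpr (one_add_sq_pos _))

lemma rho_contDiff : ContDiff ℝ ⊤ (rho : Pt n → ℝ) := by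
  unfold rho
  apply ContDiff.mul
  · apply ContDiff.inv
    · fun_prop
    · intro z; positivity
  · apply contDiff_prod
    intro i _
    apply ContDiff.inv
    · have : ContDiff ℝ ⊤ (fun z : Pt n => z.1 i) := by
        exact (contDiff_apply ℝ ℝ i).comp contDiff_fst
      fun_prop
    · intro z; positivity

lemma rho_eq_exp (z : Pt n) : rho z =
    Real.exp (-(Real.log (1 + z.2 ^ 2) + ∑ i, Real.log (1 + (z.1 i) ^ 2))) := by
  unfold rho
  rw [neg_add, Real.exp_add, ← Finset.sum_neg_distrib, Real.exp_sum]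
  congr 1
  · rw [Real.exp_neg, Real.exp_log (one_add_sq_pos _)]
  · apply Finset.prod_congr rfl
    intro i _
    rw [Real.exp_neg, Real.exp_log (one_add_sq_pos _)]

lemma hasDerivAt_log_one_add_sq (t : ℝ) :
    HasDerivAt (fun t : ℝ => Real.log (1 + t ^ 2)) (2 * t / (1 + t ^ 2)) t := by
  have h1 : HasDerivAt (fun t : ℝ => 1 + t ^ 2) (2 * t) t := by
    simpa using (hasDerivAt_pow 2 t).const_add 1
  exact h1.log (one_add_sq_pos t).ne'

lemma pd_rho (i : Option (Fin (n + 1))) (z : Pt n) : pd rho i z = qq i z * rho z := by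
  have hfun : (rho : Pt n → ℝ) = fun z =>
      Real.exp (-(Real.log (1 + z.2 ^ 2) + ∑ i, Real.log (1 + (z.1 i) ^ 2))) := by
    funext z; exact rho_eq_exp z
  -- restrict to the line
  have key : HasDerivAt (fun t : ℝ => rho (z + t • dir i)) (qq i z * rho z) 0 := by
    have hN : HasDerivAt (fun t : ℝ => (Real.log (1 + (z + t • dir i).2 ^ 2)
        + ∑ j, Real.log (1 + ((z + t • dir i).1 j) ^ 2))) (-(qq i z)) 0 := by
      have h2 : HasDerivAt (fun t : ℝ => Real.log (1 + (z + t • dir i).2 ^ 2))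
          (2 * z.2 / (1 + z.2 ^ 2) * (dir i).2) 0 := by
        have hl : HasDerivAt (fun t : ℝ => (z + t • dir i).2) ((dir i).2) 0 := by
          have := ((hasDerivAt_id (0:ℝ)).mul_const (dir i).2).const_add z.2
          simpa using this
        have h0 : (z + (0:ℝ) • dir i).2 = z.2 := by simp
        have := HasDerivAt.comp (0:ℝ) (h₂ := fun t : ℝ => Real.log (1 + t ^ 2))
          (h := fun t : ℝ => (z + t • dir i).2)
          (by rw [h0]; exact hasDerivAt_log_one_add_sq z.2) hl
        exact this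
      have h1 : ∀ j, HasDerivAt (fun t : ℝ => Real.log (1 + ((z + t • dir i).1 j) ^ 2))
          (2 * z.1 j / (1 + (z.1 j) ^ 2) * (dir i).1 j) 0 := by
        intro j
        have hl : HasDerivAt (fun t : ℝ => (z + t • dir i).1 j) ((dir i).1 j) 0 := by
          have := ((hasDerivAt_id (0:ℝ)).mul_const ((dir i).1 j)).const_add (z.1 j)
          simpa using this
        have h0 : (z + (0:ℝ) • dir i).1 j = z.1 j := by simp
        have := HasDerivAt.comp (0:ℝ) (h₂ := fun t : ℝ => Real.log (1 + t ^ 2))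
          (h := fun t : ℝ => (z + t • dir i).1 j)
          (by rw [h0]; exact hasDerivAt_log_one_add_sq (z.1 j)) hl
        exact this
      have hs := HasDerivAt.sum (u := Finset.univ) (fun j _ => h1 j)
      have hadd := h2.add hs
      have hval : 2 * z.2 / (1 + z.2 ^ 2) * (dir i).2
          + ∑ j, 2 * z.1 j / (1 + (z.1 j) ^ 2) * (dir i).1 j = -(qq i z) := by
        cases i with
        | none => simp [dir, qq]
        | some i =>
          simp only [dir, qq, mul_zero, zero_add, neg_neg]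
          rw [Finset.sum_eq_single i]
          · simp
          · intro j _ hj; simp [Pi.single_eq_of_ne hj]
          · simp
      rw [hval] at hadd
      refine hadd.congr_of_eventuallyEq (Eventually.of_forall fun t => ?_)
      simp
    have hE : HasDerivAt (fun t : ℝ => Real.exp (-(Real.log (1 + (z + t • dir i).2 ^ 2)
        + ∑ j, Real.log (1 + ((z + t • dir i).1 j) ^ 2))))
        (Real.exp (-(Real.log (1 + (z + (0:ℝ) • dir i).2 ^ 2)
        + ∑ j, Real.log (1 + ((z + (0:ℝ) • dir i).1 j) ^ 2))) * (-(-(qq i z)))) 0 := hN.neg.exp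
    rw [zero_smul, add_zero, neg_neg, mul_comm] at hE
    rw [rho_eq_exp z]
    refine hE.congr_of_eventuallyEq (Eventually.of_forall fun t => ?_)
    exact rho_eq_exp _
  have hd : DifferentiableAt ℝ (rho : Pt n → ℝ) z :=
    (rho_contDiff.differentiable (by simp)).differentiableAt
  have hl : HasDerivAt (fun t : ℝ => z + t • dir i) (dir i) 0 := by
    have := ((hasDerivAt_id (0:ℝ)).smul_const (dir i)).const_add z
    simpa using this
  have h2 : HasDerivAt (fun t : ℝ => rho (z + t • dir i)) (fderiv ℝ rho z (dir i)) 0 := by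
    have hf : HasFDerivAt (rho : Pt n → ℝ) (fderiv ℝ rho z) (z + (0:ℝ) • dir i) := by
      simpa using hd.hasFDerivAt
    exact hf.comp_hasDerivAt (0:ℝ) hl
  exact h2.unique key

lemma abs_two_mul_div (t : ℝ) : |2 * t / (1 + t ^ 2)| ≤ 1 := by
  rw [abs_div, abs_of_pos (one_add_sq_pos t), div_le_one (one_add_sq_pos t), abs_mul]
  simp only [abs_two]
  nlinarith [sq_nonneg (|t| - 1), sq_abs t]

lemma abs_qq_le (i : Option (Fin (n + 1))) (z : Pt n) : |qq i z| ≤ 1 := by
  cases i with
  | none => simp only [qq, abs_neg]; exact abs_two_mul_div _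
  | some i => simp only [qq, abs_neg]; exact abs_two_mul_div _

lemma qq_cont (i : Option (Fin (n + 1))) : Continuous (qq i : Pt n → ℝ) := by
  cases i with
  | none =>
    show Continuous fun z : Pt n => -(2 * z.2 / (1 + z.2 ^ 2))
    apply Continuous.neg
    apply Continuous.div (by fun_prop) (by fun_prop)
    intro z; exact (one_add_sq_pos _).ne'
  | some i =>
    show Continuous fun z : Pt n => -(2 * z.1 i / (1 + (z.1 i) ^ 2))
    apply Continuous.neg
    apply Continuous.div (by fun_prop) (by fun_prop)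
    intro z; exact (one_add_sq_pos _).ne'

lemma prod_integrable : Integrable (fun x : Fin (n + 1) → ℝ => ∏ i, (1 + (x i) ^ 2)⁻¹) := by
  have := Integrable.fintype_prod (ι := Fin (n+1)) (𝕜 := ℝ) (E := ℝ) (μ := fun _ => volume)
    (f := fun _ t => (1 + t ^ 2)⁻¹) (fun _ => integrable_inv_one_add_sq)
  exact this

lemma rho_integrable : Integrable (rho : Pt n → ℝ) := by
  have h := Integrable.mul_prod (prod_integrable (n := n)) (integrable_inv_one_add_sq)
  refine (h.congr (Eventually.of_forall fun z => ?_))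
  simp only [rho]
  ring

lemma rho_le_prod (x : Fin (n + 1) → ℝ) (y : ℝ) : rho (x, y) ≤ ∏ i, (1 + (x i) ^ 2)⁻¹ := by
  unfold rho
  have h1 : (1 + y ^ 2)⁻¹ ≤ 1 := inv_le_one_of_one_le₀ (by nlinarith [sq_nonneg y])
  have h2 : 0 ≤ ∏ i, (1 + (x i) ^ 2)⁻¹ :=
    Finset.prod_nonneg fun i _ => inv_nonneg.mpr (one_add_sq_pos _).le
  calc (1 + y ^ 2)⁻¹ * ∏ i, (1 + (x i) ^ 2)⁻¹ ≤ 1 * ∏ i, (1 + (x i) ^ 2)⁻¹ :=
        mul_le_mul_of_nonneg_right h1 h2
    _ = _ := one_mul _

end weight

end Pool.Agent.H314.Robin
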