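import Mathlib
import Pool.Agent.H314.Robin.R1

open MeasureTheory Set Filter Topology
open scoped ENNReal NNReal

namespace Pool.Agent.H314.Robin

/-- A Lipschitz floor. -/
structure Dom (n : ℕ) where
  fn : (Fin (n + 1) → ℝ) → ℝ
  K : ℝ≥0
  lip : LipschitzWith K fn

section space
variable {n : ℕ} (Ω : Dom n)

lemma Dom.cont : Continuous Ω.fn := Ω.lip.continuous

lemma measurableSet_epi : MeasurableSet (epi Ω.fn) :=
  (isOpen_lt (Ω.cont.comp continuous_fst) continuous_snd).measurableSet

lemma surf_measurable : Measurable (surf Ω.fn) := by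
  unfold surf
  apply Real.continuous_sqrt.measurable.comp
  apply Measurable.const_add
  apply Finset.measurable_sum
  intro i _
  exact (measurable_fderiv_apply_const ℝ Ω.fn _).pow_const 2

lemma surf_nonneg (x : Fin (n + 1) → ℝ) : 0 ≤ surf Ω.fn x := Real.sqrt_nonneg _

lemma one_le_surf (x : Fin (n + 1) → ℝ) : 1 ≤ surf Ω.fn x := by
  unfold surf
  rw [Real.one_le_sqrt]
  have : 0 ≤ ∑ i, (fderiv ℝ Ω.fn x (Pi.single i 1)) ^ 2 := Finset.sum_nonneg fun i _ => sq_nonneg _
  linarith

/-- bound of the surface element -/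
noncomputable def surfB : ℝ := Real.sqrt (1 + (n + 1) * (Ω.K : ℝ) ^ 2)

lemma surf_le (x : Fin (n + 1) → ℝ) : surf Ω.fn x ≤ surfB Ω := by
  unfold surf surfB
  apply Real.sqrt_le_sqrt
  have h : ∀ i, (fderiv ℝ Ω.fn x (Pi.single i 1)) ^ 2 ≤ (Ω.K : ℝ) ^ 2 := by
    intro i
    have h1 : ‖fderiv ℝ Ω.fn x (Pi.single i 1)‖ ≤ (Ω.K : ℝ) * 1 := by
      have := (fderiv ℝ Ω.fn x).le_opNorm (Pi.single i 1)
      have h2 : ‖fderiv ℝ Ω.fn x‖ ≤ Ω.K := norm_fderiv_le_of_lipschitz ℝ Ω.lip
      have h3 : ‖(Pi.single i 1 : Fin (n + 1) → ℝ)‖ = 1 := by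
        rw [Pi.norm_single]; simp
      rw [h3] at this
      linarith
    rw [mul_one, Real.norm_eq_abs] at h1
    exact sq_le_sq' (by linarith [neg_abs_le (fderiv ℝ Ω.fn x (Pi.single i 1))])
      (le_trans (le_abs_self _) h1)
  have := Finset.sum_le_sum (s := Finset.univ) fun i _ => h i
  simp only [Finset.sum_const, Finset.card_univ, Fintype.card_fin, nsmul_eq_mul] at this
  push_cast at this
  linarith

/-- weighted volume of the domain -/
noncomputable def mu : Measure (Pt n) :=
  (volume.restrict (epi Ω.fn)).withDensity (fun z => ENNReal.ofReal (rho z))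

/-- weight of the boundary measure in graph coordinates -/
noncomputable def bw (x : Fin (n + 1) → ℝ) : ℝ := rho (x, Ω.fn x) * surf Ω.fn x

/-- weighted surface measure of the boundary -/
noncomputable def sg : Measure (Pt n) :=
  Measure.map (fun x => (x, Ω.fn x)) (volume.withDensity (fun x => ENNReal.ofReal (bw Ω x)))

lemma rho_cont : Continuous (rho : Pt n → ℝ) := rho_contDiff.continuous

lemma graph_cont : Continuous (fun x : Fin (n + 1) → ℝ => ((x, Ω.fn x) : Pt n)) :=
  continuous_id.prodMk Ω.cont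

lemma bw_nonneg (x : Fin (n + 1) → ℝ) : 0 ≤ bw Ω x :=
  mul_nonneg (rho_pos _).le (surf_nonneg _ _)

lemma bw_measurable : Measurable (bw Ω) :=
  ((rho_cont.comp (graph_cont Ω)).measurable).mul (surf_measurable Ω)

lemma bw_integrable : Integrable (bw Ω) := by
  have h : Integrable (fun x : Fin (n + 1) → ℝ => surfB Ω * ∏ i, (1 + (x i) ^ 2)⁻¹) :=
    prod_integrable.const_mul _
  refine h.mono' (bw_measurable Ω).aestronglyMeasurable (Eventually.of_forall fun x => ?_)
  rw [Real.norm_eq_abs, abs_of_nonneg (bw_nonneg Ω x), mul_comm (surfB Ω)]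
  exact mul_le_mul (rho_le_prod x _) (surf_le Ω x) (surf_nonneg Ω x)
    (Finset.prod_nonneg fun i _ => inv_nonneg.mpr (one_add_sq_pos _).le)

instance mu_finite : IsFiniteMeasure (mu Ω) := by
  unfold mu
  exact isFiniteMeasure_withDensity_ofReal (rho_integrable.mono_measure Measure.restrict_le_self).2

instance sg_finite : IsFiniteMeasure (sg Ω) := by
  unfold sg
  have : IsFiniteMeasure ((volume : Measure (Fin (n + 1) → ℝ)).withDensity
      (fun x => ENNReal.ofReal (bw Ω x))) :=
    isFiniteMeasure_withDensity_ofReal (bw_integrable Ω).2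
  infer_instance

/-- index set of the components -/
abbrev Idx (n : ℕ) := Bool ⊕ (Bool × Option (Fin (n + 1)))

/-- the measures of the components -/
noncomputable def ms : Idx n → Measure (Pt n)
  | Sum.inl false => sg Ω
  | Sum.inl true => mu Ω
  | Sum.inr _ => mu Ω

instance ms_finite (j : Idx n) : IsFiniteMeasure (ms Ω j) := by
  rcases j with (j | j)
  · cases j
    · exact sg_finite Ω
    · exact mu_finite Ω
  · exact mu_finite Ω

/-- the big Hilbert space -/
abbrev LL := PiLp 2 (fun j : Idx n => Lp ℝ 2 (ms Ω j))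

/-- smooth functions -/
structure IsD (v : Pt n → ℝ) : Prop where
  smooth : ContDiff ℝ 1 v
  bdd : ∃ C, ∀ z, |v z| ≤ C ∧ ∀ i, |pd v i z| ≤ C

/-- components of a smooth function -/
noncomputable def cmp (v : Pt n → ℝ) : Idx n → Pt n → ℝ
  | Sum.inl _ => v
  | Sum.inr (true, i) => pd v i
  | Sum.inr (false, i) => fun z => pd v i z + qq i z * v z

lemma pd_cont {v : Pt n → ℝ} (hv : ContDiff ℝ 1 v) (i : Option (Fin (n + 1))) :
    Continuous (pd v i) := by
  unfold pd
  exact (hv.continuous_fderiv (by simp)).clm_apply continuous_const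

lemma cmp_cont {v : Pt n → ℝ} (hv : IsD v) (j : Idx n) : Continuous (cmp v j) := by
  rcases j with (j | ⟨j, i⟩)
  · exact hv.smooth.continuous
  · cases j
    · exact (pd_cont hv.smooth i).add ((qq_cont i).mul hv.smooth.continuous)
    · exact pd_cont hv.smooth i

lemma cmp_bdd {v : Pt n → ℝ} (hv : IsD v) (j : Idx n) : ∃ C, ∀ z, |cmp v j z| ≤ C := by
  obtain ⟨C, hC⟩ := hv.bdd
  refine ⟨C + C, fun z => ?_⟩
  have h0 : 0 ≤ C := le_trans (abs_nonneg _) (hC z).1
  rcases j with (j | ⟨j, i⟩)
  · exact (hC z).1.trans (by linarith)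
  · cases j
    · show |pd v i z + qq i z * v z| ≤ C + C
      refine (abs_add_le _ _).trans (add_le_add ((hC z).2 i) ?_)
      rw [abs_mul]
      calc |qq i z| * |v z| ≤ 1 * C := mul_le_mul (abs_qq_le i z) (hC z).1 (abs_nonneg _) zero_le_one
        _ = C := one_mul _
    · exact ((hC z).2 i).trans (by linarith)

lemma cmp_memLp {v : Pt n → ℝ} (hv : IsD v) (j : Idx n) : MemLp (cmp v j) 2 (ms Ω j) := by
  obtain ⟨C, hC⟩ := cmp_bdd hv j
  exact MemLp.of_bound (cmp_cont hv j).aestronglyMeasurable C (Eventually.of_forall fun z => by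
    rw [Real.norm_eq_abs]; exact hC z)

/-- embedding of a smooth function -/
noncomputable def io (v : Pt n → ℝ) (hv : IsD v) : LL Ω :=
  WithLp.toLp 2 (fun j => (cmp_memLp Ω hv j).toLp (cmp v j))

end space

end Pool.Agent.H314.Robin
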