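import Mathlib
import Pool.Agent.H314.Robin.R2

open MeasureTheory Set Filter Topology
open scoped ENNReal NNReal InnerProductSpace

namespace Pool.Agent.H314.Robin

section form
variable {n : ℕ} (Ω : Dom n)

lemma pd_add {v w : Pt n → ℝ} (hv : ContDiff ℝ 1 v) (hw : ContDiff ℝ 1 w)
    (i : Option (Fin (n + 1))) (z : Pt n) : pd (fun z => v z + w z) i z = pd v i z + pd w i z := by
  unfold pd
  have h1 := (hv.differentiable (by simp)).differentiableAt (x := z)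
  have h2 := (hw.differentiable (by simp)).differentiableAt (x := z)
  rw [fderiv_fun_add h1 h2]
  rfl

lemma pd_smul (c : ℝ) {v : Pt n → ℝ} (hv : ContDiff ℝ 1 v)
    (i : Option (Fin (n + 1))) (z : Pt n) : pd (fun z => c * v z) i z = c * pd v i z := by
  unfold pd
  have h1 := (hv.differentiable (by simp)).differentiableAt (x := z)
  rw [fderiv_const_mul h1]
  rfl

lemma IsD.add {v w : Pt n → ℝ} (hv : IsD v) (hw : IsD w) : IsD (fun z => v z + w z) := by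
  refine ⟨hv.smooth.add hw.smooth, ?_⟩
  obtain ⟨C, hC⟩ := hv.bdd
  obtain ⟨C', hC'⟩ := hw.bdd
  refine ⟨C + C', fun z => ⟨(abs_add_le _ _).trans (add_le_add (hC z).1 (hC' z).1), fun i => ?_⟩⟩
  rw [pd_add hv.smooth hw.smooth]
  exact (abs_add_le _ _).trans (add_le_add ((hC z).2 i) ((hC' z).2 i))

lemma IsD.smul (c : ℝ) {v : Pt n → ℝ} (hv : IsD v) : IsD (fun z => c * v z) := by
  refine ⟨contDiff_const.mul hv.smooth, ?_⟩
  obtain ⟨C, hC⟩ := hv.bdd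
  refine ⟨|c| * C, fun z => ⟨?_, fun i => ?_⟩⟩
  · rw [abs_mul]; exact mul_le_mul_of_nonneg_left (hC z).1 (abs_nonneg _)
  · rw [pd_smul c hv.smooth, abs_mul]; exact mul_le_mul_of_nonneg_left ((hC z).2 i) (abs_nonneg _)

lemma isD_const (c : ℝ) : IsD (fun _ : Pt n => c) := by
  refine ⟨contDiff_const, |c|, fun z => ⟨le_rfl, fun i => ?_⟩⟩
  simp [pd]

lemma cmp_add {v w : Pt n → ℝ} (hv : IsD v) (hw : IsD w) (j : Idx n) (z : Pt n) :
    cmp (fun z => v z + w z) j z = cmp v j z + cmp w j z := by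
  rcases j with (j | ⟨j, i⟩)
  · rfl
  · cases j
    · show pd (fun z => v z + w z) i z + qq i z * (v z + w z)
        = (pd v i z + qq i z * v z) + (pd w i z + qq i z * w z)
      rw [pd_add hv.smooth hw.smooth]; ring
    · exact pd_add hv.smooth hw.smooth i z

lemma cmp_smul (c : ℝ) {v : Pt n → ℝ} (hv : IsD v) (j : Idx n) (z : Pt n) :
    cmp (fun z => c * v z) j z = c * cmp v j z := by
  rcases j with (j | ⟨j, i⟩)
  · rfl
  · cases j
    · show pd (fun z => c * v z) i z + qq i z * (c * v z) = c * (pd v i z + qq i z * v z)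
      rw [pd_smul c hv.smooth]; ring
    · exact pd_smul c hv.smooth i z

lemma io_apply {v : Pt n → ℝ} (hv : IsD v) (j : Idx n) :
    io Ω v hv j = (cmp_memLp Ω hv j).toLp (cmp v j) := rfl

lemma io_add {v w : Pt n → ℝ} (hv : IsD v) (hw : IsD w) :
    io Ω (fun z => v z + w z) (hv.add hw) = io Ω v hv + io Ω w hw := by
  ext1 j
  rw [PiLp.add_apply, io_apply, io_apply, io_apply, ← MemLp.toLp_add]
  exact MemLp.toLp_congr _ _ (Eventually.of_forall fun z => cmp_add hv hw j z)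

lemma io_smul (c : ℝ) {v : Pt n → ℝ} (hv : IsD v) :
    io Ω (fun z => c * v z) (hv.smul c) = c • io Ω v hv := by
  ext1 j
  rw [PiLp.smul_apply, io_apply, io_apply, ← MemLp.toLp_const_smul]
  exact MemLp.toLp_congr _ _ (Eventually.of_forall fun z => cmp_smul c hv j z)

/-- smooth functions as a submodule -/
noncomputable def Dsub : Submodule ℝ (LL Ω) where
  carrier := {U | ∃ v, ∃ hv : IsD v, io Ω v hv = U}
  add_mem' := by
    rintro _ _ ⟨v, hv, rfl⟩ ⟨w, hw, rfl⟩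
    exact ⟨_, hv.add hw, io_add Ω hv hw⟩
  zero_mem' := by
    refine ⟨fun _ => 0 * 0, (isD_const 0).smul 0, ?_⟩
    rw [io_smul Ω 0 (isD_const 0), zero_smul]
  smul_mem' := by
    rintro c _ ⟨v, hv, rfl⟩
    exact ⟨_, hv.smul c, io_smul Ω c hv⟩

/-- the energy space -/
noncomputable abbrev HH : Submodule ℝ (LL Ω) := (Dsub Ω).topologicalClosure

lemma io_mem {v : Pt n → ℝ} (hv : IsD v) : io Ω v hv ∈ HH Ω :=
  (Dsub Ω).le_topologicalClosure ⟨v, hv, rfl⟩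

/-- components -/
noncomputable def pV : LL Ω →L[ℝ] Lp ℝ 2 (mu Ω) := PiLp.proj 2 (fun j : Idx n => Lp ℝ 2 (ms Ω j)) (Sum.inl true)
noncomputable def pT : LL Ω →L[ℝ] Lp ℝ 2 (sg Ω) := PiLp.proj 2 (fun j : Idx n => Lp ℝ 2 (ms Ω j)) (Sum.inl false)
noncomputable def pG (i : Option (Fin (n + 1))) : LL Ω →L[ℝ] Lp ℝ 2 (mu Ω) :=
  PiLp.proj 2 (fun j : Idx n => Lp ℝ 2 (ms Ω j)) (Sum.inr (true, i))
noncomputable def pQ (i : Option (Fin (n + 1))) : LL Ω →L[ℝ] Lp ℝ 2 (mu Ω) :=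
  PiLp.proj 2 (fun j : Idx n => Lp ℝ 2 (ms Ω j)) (Sum.inr (false, i))

/-- the inner product as a bilinear map -/
noncomputable def ipB (E : Type*) [NormedAddCommGroup E] [InnerProductSpace ℝ E] :
    E →L[ℝ] E →L[ℝ] ℝ := (isBoundedBilinearMap_inner (𝕜 := ℝ) (E := E)).toContinuousLinearMap

lemma ipB_apply {E : Type*} [NormedAddCommGroup E] [InnerProductSpace ℝ E] (x y : E) :
    ipB E x y = ⟪x, y⟫_ℝ := rfl

/-- the bilinear form -/
noncomputable def BB (α K : ℝ) : LL Ω →L[ℝ] LL Ω →L[ℝ] ℝ :=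
  (∑ i, (ipB _).bilinearComp (pG Ω i) (pQ Ω i)) + K • (ipB _).bilinearComp (pV Ω) (pV Ω)
    + α⁻¹ • (ipB _).bilinearComp (pT Ω) (pT Ω)

lemma BB_apply (α K : ℝ) (U V : LL Ω) : BB Ω α K U V =
    (∑ i, ⟪pG Ω i U, pQ Ω i V⟫_ℝ) + K * ⟪pV Ω U, pV Ω V⟫_ℝ + α⁻¹ * ⟪pT Ω U, pT Ω V⟫_ℝ := by
  unfold BB
  simp only [_root_.add_apply, _root_.smul_apply, smul_eq_mul,
    ContinuousLinearMap.bilinearComp_apply, _root_.sum_apply, ipB_apply]

lemma norm_sq_LL (U : LL Ω) : ‖U‖ ^ 2 = ‖pT Ω U‖ ^ 2 + ‖pV Ω U‖ ^ 2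
    + ((∑ i, ‖pQ Ω i U‖ ^ 2) + ∑ i, ‖pG Ω i U‖ ^ 2) := by
  rw [PiLp.norm_sq_eq_of_L2, Fintype.sum_sum_type, Fintype.sum_bool, Fintype.sum_prod_type,
    Fintype.sum_bool]
  rw [add_comm (‖U (Sum.inl true)‖ ^ 2)]
  rw [add_comm (∑ i, ‖U (Sum.inr (true, i))‖ ^ 2)]
  rfl

end form

end Pool.Agent.H314.Robin
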