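import Mathlib
import Pool.Agent.H314.Robin.R3

open MeasureTheory Set Filter Topology
open scoped ENNReal NNReal InnerProductSpace

namespace Pool.Agent.H314.Robin

section coer
variable {n : ℕ} (Ω : Dom n)

lemma inner_toLp {μ : Measure (Pt n)} {f g : Pt n → ℝ} (hf : MemLp f 2 μ) (hg : MemLp g 2 μ) :
    ⟪hf.toLp f, hg.toLp g⟫_ℝ = ∫ z, f z * g z ∂μ := by
  rw [L2.inner_def]
  apply integral_congr_ae
  filter_upwards [hf.coeFn_toLp, hg.coeFn_toLp] with z h1 h2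
  rw [h1, h2]
  simp [mul_comm]

lemma mV {v : Pt n → ℝ} (hv : IsD v) : MemLp v 2 (mu Ω) := cmp_memLp Ω hv (Sum.inl true)
lemma mT {v : Pt n → ℝ} (hv : IsD v) : MemLp v 2 (sg Ω) := cmp_memLp Ω hv (Sum.inl false)
lemma mG {v : Pt n → ℝ} (hv : IsD v) (i : Option (Fin (n + 1))) :
    MemLp (pd v i) 2 (mu Ω) := cmp_memLp Ω hv (Sum.inr (true, i))
lemma mQ {v : Pt n → ℝ} (hv : IsD v) (i : Option (Fin (n + 1))) :
    MemLp (fun z => pd v i z + qq i z * v z) 2 (mu Ω) := cmp_memLp Ω hv (Sum.inr (false, i))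

lemma pV_io {v : Pt n → ℝ} (hv : IsD v) : pV Ω (io Ω v hv) = (mV Ω hv).toLp v := rfl
lemma pT_io {v : Pt n → ℝ} (hv : IsD v) : pT Ω (io Ω v hv) = (mT Ω hv).toLp v := rfl
lemma pG_io {v : Pt n → ℝ} (hv : IsD v) (i : Option (Fin (n + 1))) :
    pG Ω i (io Ω v hv) = (mG Ω hv i).toLp (pd v i) := rfl
lemma pQ_io {v : Pt n → ℝ} (hv : IsD v) (i : Option (Fin (n + 1))) :
    pQ Ω i (io Ω v hv) = (mQ Ω hv i).toLp (fun z => pd v i z + qq i z * v z) := rfl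

lemma norm_sub_QG {v : Pt n → ℝ} (hv : IsD v) (i : Option (Fin (n + 1))) :
    ‖pQ Ω i (io Ω v hv) - pG Ω i (io Ω v hv)‖ ≤ ‖pV Ω (io Ω v hv)‖ := by
  apply Lp.norm_le_norm_of_ae_le
  rw [pV_io, pG_io, pQ_io]
  filter_upwards [(mV Ω hv).coeFn_toLp, (mG Ω hv i).coeFn_toLp, (mQ Ω hv i).coeFn_toLp,
    Lp.coeFn_sub ((mQ Ω hv i).toLp (fun z => pd v i z + qq i z * v z))
      ((mG Ω hv i).toLp (pd v i))] with z h1 h2 h3 h4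
  rw [h4, Pi.sub_apply, h1, h2, h3]
  rw [add_sub_cancel_left, norm_mul, Real.norm_eq_abs, Real.norm_eq_abs]
  calc |qq i z| * |v z| ≤ 1 * |v z| := mul_le_mul_of_nonneg_right (abs_qq_le i z) (abs_nonneg _)
    _ = |v z| := one_mul _

lemma coer_io {α K : ℝ} (hα : 0 < α) (hK : 2 * ((n : ℝ) + 4) ≤ K) {v : Pt n → ℝ} (hv : IsD v) :
    min (1 / 6) α⁻¹ * ‖io Ω v hv‖ ^ 2 ≤ BB Ω α K (io Ω v hv) (io Ω v hv) := by
  rw [BB_apply, norm_sq_LL]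
  set U := io Ω v hv with hU
  set c := min (1 / 6 : ℝ) α⁻¹ with hc
  have hc1 : c ≤ 1 / 6 := min_le_left _ _
  have hc2 : c ≤ α⁻¹ := min_le_right _ _
  have hc0 : 0 < c := lt_min (by norm_num) (inv_pos.mpr hα)
  have hi : ∀ i, ‖pG Ω i U‖ ^ 2 / 2 - ‖pV Ω U‖ ^ 2 / 2 ≤ ⟪pG Ω i U, pQ Ω i U⟫_ℝ := by
    intro i
    have h1 : ⟪pG Ω i U, pQ Ω i U⟫_ℝ = ‖pG Ω i U‖ ^ 2 + ⟪pG Ω i U, pQ Ω i U - pG Ω i U⟫_ℝ := by
      rw [inner_sub_right, real_inner_self_eq_norm_sq]; ring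
    have h2 : |⟪pG Ω i U, pQ Ω i U - pG Ω i U⟫_ℝ| ≤ ‖pG Ω i U‖ * ‖pV Ω U‖ :=
      (abs_real_inner_le_norm _ _).trans
        (mul_le_mul_of_nonneg_left (norm_sub_QG Ω hv i) (norm_nonneg _))
    have h3 := neg_abs_le (⟪pG Ω i U, pQ Ω i U - pG Ω i U⟫_ℝ)
    nlinarith [sq_nonneg (‖pG Ω i U‖ - ‖pV Ω U‖)]
  have hq : ∀ i, ‖pQ Ω i U‖ ^ 2 ≤ 2 * ‖pG Ω i U‖ ^ 2 + 2 * ‖pV Ω U‖ ^ 2 := by
    intro i
    have h1 : ‖pQ Ω i U‖ ≤ ‖pG Ω i U‖ + ‖pV Ω U‖ := by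
      calc ‖pQ Ω i U‖ = ‖pG Ω i U + (pQ Ω i U - pG Ω i U)‖ := by rw [add_sub_cancel]
        _ ≤ ‖pG Ω i U‖ + ‖pQ Ω i U - pG Ω i U‖ := norm_add_le _ _
        _ ≤ _ := by
          have := norm_sub_QG Ω hv i
          linarith
    have h0 : 0 ≤ ‖pQ Ω i U‖ := norm_nonneg _
    nlinarith [sq_nonneg (‖pG Ω i U‖ - ‖pV Ω U‖)]
  have hcard : (Fintype.card (Option (Fin (n + 1))) : ℝ) = n + 2 := by
    simp; ring
  have hsum1 : (∑ i, ‖pG Ω i U‖ ^ 2) / 2 - (n + 2) * (‖pV Ω U‖ ^ 2 / 2)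
      ≤ ∑ i, ⟪pG Ω i U, pQ Ω i U⟫_ℝ := by
    have := Finset.sum_le_sum (s := Finset.univ) fun i _ => hi i
    rw [Finset.sum_sub_distrib, ← Finset.sum_div, Finset.sum_const, Finset.card_univ,
      nsmul_eq_mul, hcard] at this
    exact this
  have hsum2 : (∑ i, ‖pQ Ω i U‖ ^ 2) ≤ 2 * (∑ i, ‖pG Ω i U‖ ^ 2) + (n + 2) * (2 * ‖pV Ω U‖ ^ 2) := by
    have := Finset.sum_le_sum (s := Finset.univ) fun i _ => hq i
    rw [Finset.sum_add_distrib, ← Finset.mul_sum, Finset.sum_const, Finset.card_univ,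
      nsmul_eq_mul, hcard] at this
    exact this
  have hG0 : 0 ≤ ∑ i, ‖pG Ω i U‖ ^ 2 := Finset.sum_nonneg fun i _ => sq_nonneg _
  have hn0 : (0 : ℝ) ≤ n := Nat.cast_nonneg n
  rw [real_inner_self_eq_norm_sq, real_inner_self_eq_norm_sq]
  set G := ∑ i, ‖pG Ω i U‖ ^ 2
  set Q := ∑ i, ‖pQ Ω i U‖ ^ 2
  set a := ‖pV Ω U‖ ^ 2 with ha
  set t := ‖pT Ω U‖ ^ 2 with ht
  have ha0 : 0 ≤ a := sq_nonneg _
  have ht0 : 0 ≤ t := sq_nonneg _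
  have e1 : c * (t + a + (Q + G)) ≤ α⁻¹ * t + (1 / 6) * a * (2 * n + 5) + G / 2 := by
    have k1 : c * t ≤ α⁻¹ * t := mul_le_mul_of_nonneg_right hc2 ht0
    have k2 : c * (a + (Q + G)) ≤ (1 / 6) * (a + (Q + G)) := by
      apply mul_le_mul_of_nonneg_right hc1
      have : 0 ≤ Q := Finset.sum_nonneg fun i _ => sq_nonneg _
      linarith
    nlinarith
  have e2 : (n + 2) * (a / 2) + (1 / 6) * a * (2 * n + 5) ≤ K * a := by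
    have : ((n : ℝ) + 2) / 2 + (1 / 6) * (2 * n + 5) ≤ K := by linarith
    nlinarith
  nlinarith

/-- The form on the energy space. -/
noncomputable def BH (α K : ℝ) : HH Ω →L[ℝ] HH Ω →L[ℝ] ℝ :=
  (BB Ω α K).bilinearComp (HH Ω).subtypeL (HH Ω).subtypeL

lemma BH_apply (α K : ℝ) (U V : HH Ω) : BH Ω α K U V = BB Ω α K U V := rfl

lemma coer_HH {α K : ℝ} (hα : 0 < α) (hK : 2 * ((n : ℝ) + 4) ≤ K) {U : LL Ω} (hU : U ∈ HH Ω) :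
    min (1 / 6) α⁻¹ * ‖U‖ ^ 2 ≤ BB Ω α K U U := by
  have hcl : IsClosed {U : LL Ω | min (1 / 6) α⁻¹ * ‖U‖ ^ 2 ≤ BB Ω α K U U} := by
    apply isClosed_le
    · fun_prop
    · exact ((BB Ω α K).continuous).clm_apply continuous_id
  have hsub : ((Dsub Ω : Submodule ℝ (LL Ω)) : Set (LL Ω)) ⊆
      {U : LL Ω | min (1 / 6) α⁻¹ * ‖U‖ ^ 2 ≤ BB Ω α K U U} := by
    rintro _ ⟨v, hv, rfl⟩
    exact coer_io Ω hα hK hv
  exact closure_minimal hsub hcl hU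

lemma BH_coercive {α K : ℝ} (hα : 0 < α) (hK : 2 * ((n : ℝ) + 4) ≤ K) :
    IsCoercive (BH Ω α K) := by
  refine ⟨min (1 / 6) α⁻¹, lt_min (by norm_num) (inv_pos.mpr hα), fun U => ?_⟩
  have := coer_HH Ω hα hK U.2
  rw [BH_apply, mul_assoc, ← sq]
  exact this

/-- The solution operator of `-Δu + K u = g` with the Robin condition. -/
noncomputable def SS {α K : ℝ} (hα : 0 < α) (hK : 2 * ((n : ℝ) + 4) ≤ K) :
    Lp ℝ 2 (mu Ω) →L[ℝ] HH Ω :=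
  ((BH_coercive Ω hα hK).continuousLinearEquivOfBilin.symm : HH Ω →L[ℝ] HH Ω).comp
    (ContinuousLinearMap.adjoint ((pV Ω).comp (HH Ω).subtypeL))

lemma SS_spec {α K : ℝ} (hα : 0 < α) (hK : 2 * ((n : ℝ) + 4) ≤ K) (g : Lp ℝ 2 (mu Ω))
    (V : LL Ω) (hV : V ∈ HH Ω) :
    BB Ω α K (SS Ω hα hK g) V = ⟪g, pV Ω V⟫_ℝ := by
  have h1 := (BH_coercive Ω hα hK).continuousLinearEquivOfBilin_apply (SS Ω hα hK g) ⟨V, hV⟩
  rw [BH_apply] at h1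
  rw [← h1]
  unfold SS
  simp only [ContinuousLinearMap.comp_apply]
  erw [ContinuousLinearEquiv.apply_symm_apply]
  rw [ContinuousLinearMap.adjoint_inner_left]
  rfl

end coer

end Pool.Agent.H314.Robin
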