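import Mathlib
import Pool.Agent.H314.Robin.R4

open MeasureTheory Set Filter Topology
open scoped ENNReal NNReal InnerProductSpace

namespace Pool.Agent.H314.Robin

/-- negative part -/
def ng (t : ℝ) : ℝ := max (-t) 0

/-- smooth version of the negative part -/
noncomputable def eta (ε t : ℝ) : ℝ := (ng t) ^ 2 / (ε + ng t)
/-- minus its derivative -/
noncomputable def deta (ε t : ℝ) : ℝ := ((ng t) ^ 2 + 2 * ε * ng t) / (ε + ng t) ^ 2

lemma ng_nonneg (t : ℝ) : 0 ≤ ng t := le_max_right _ _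
lemma ng_cont : Continuous ng := by unfold ng; fun_prop
lemma ng_of_neg {t : ℝ} (h : t < 0) : ng t = -t := max_eq_left (by linarith)
lemma ng_of_nonneg {t : ℝ} (h : 0 ≤ t) : ng t = 0 := max_eq_right (by linarith)
lemma ng_le_abs (t : ℝ) : ng t ≤ |t| := max_le (neg_le_abs t) (abs_nonneg t)

lemma eta_nonneg {ε : ℝ} (hε : 0 < ε) (t : ℝ) : 0 ≤ eta ε t := by
  unfold eta
  have := ng_nonneg t
  positivity

lemma deta_nonneg {ε : ℝ} (hε : 0 < ε) (t : ℝ) : 0 ≤ deta ε t := by
  unfold deta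
  have := ng_nonneg t
  positivity

lemma eta_le {ε : ℝ} (hε : 0 < ε) (t : ℝ) : eta ε t ≤ ng t := by
  unfold eta
  have := ng_nonneg t
  rw [div_le_iff₀ (by positivity)]
  nlinarith

lemma deta_le {ε : ℝ} (hε : 0 < ε) (t : ℝ) : deta ε t ≤ 1 := by
  unfold deta
  have := ng_nonneg t
  rw [div_le_one (by positivity)]
  nlinarith

lemma eta_hasDerivAt {ε : ℝ} (hε : 0 < ε) (t : ℝ) : HasDerivAt (eta ε) (-(deta ε t)) t := by
  rcases lt_trichotomy t 0 with h | h | h
  · have h1 : HasDerivAt (fun t : ℝ => t ^ 2 / (ε - t))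
        ((2 * t * (ε - t) - t ^ 2 * (-1)) / (ε - t) ^ 2) t := by
      have a1 : HasDerivAt (fun t : ℝ => t ^ 2) (2 * t) t := by simpa using hasDerivAt_pow 2 t
      have a2 : HasDerivAt (fun t : ℝ => ε - t) (-1) t := by
        simpa using (hasDerivAt_id t).const_sub ε
      exact a1.div a2 (by linarith)
    have h2 : eta ε =ᶠ[𝓝 t] fun t => t ^ 2 / (ε - t) := by
      filter_upwards [Iio_mem_nhds h] with s hs
      unfold eta
      rw [ng_of_neg hs, neg_sq, ← sub_eq_add_neg]
    have h3 := h1.congr_of_eventuallyEq h2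
    have hval : (2 * t * (ε - t) - t ^ 2 * (-1)) / (ε - t) ^ 2 = -(deta ε t) := by
      unfold deta
      rw [ng_of_neg h, ← sub_eq_add_neg, neg_sq, ← neg_div]
      congr 1
      ring
    rw [← hval]
    exact h3
  · subst h
    have h0 : eta ε 0 = 0 := by unfold eta; rw [ng_of_nonneg le_rfl]; simp
    have h1 : deta ε 0 = 0 := by unfold deta; rw [ng_of_nonneg le_rfl]; simp
    rw [h1, neg_zero, hasDerivAt_iff_isLittleO_nhds_zero]
    simp only [zero_add, h0, sub_zero, smul_zero]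
    have hO : (fun h : ℝ => eta ε h) =O[𝓝 0] fun h : ℝ => h ^ 2 := by
      apply Asymptotics.IsBigO.of_bound (1 / ε)
      filter_upwards with h
      rw [Real.norm_eq_abs, abs_of_nonneg (eta_nonneg hε h), Real.norm_eq_abs, abs_of_nonneg (sq_nonneg h)]
      unfold eta
      have hn := ng_nonneg h
      have hn2 : (ng h) ^ 2 ≤ h ^ 2 := by
        rw [← sq_abs h]
        exact pow_le_pow_left₀ hn (ng_le_abs h) 2
      rw [div_le_iff₀ (by positivity)]
      have : 1 / ε * h ^ 2 * (ε + ng h) = h ^ 2 + h ^ 2 * ng h / ε := by field_simp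
      rw [this]
      have : 0 ≤ h ^ 2 * ng h / ε := by positivity
      linarith
    exact hO.trans_isLittleO (by simpa using Asymptotics.isLittleO_pow_id (𝕜 := ℝ) one_lt_two)
  · have h2 : eta ε =ᶠ[𝓝 t] fun _ => 0 := by
      filter_upwards [Ioi_mem_nhds h] with s hs
      unfold eta
      rw [ng_of_nonneg (le_of_lt hs)]; simp
    have h3 := (hasDerivAt_const t (0:ℝ)).congr_of_eventuallyEq h2
    have hval : -(deta ε t) = 0 := by
      unfold deta
      rw [ng_of_nonneg h.le]; simp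
    rw [hval]
    exact h3

lemma deta_cont {ε : ℝ} (hε : 0 < ε) : Continuous (deta ε) := by
  unfold deta
  apply Continuous.div
  · exact (ng_cont.pow 2).add (continuous_const.mul ng_cont)
  · exact (continuous_const.add ng_cont).pow 2
  · intro t
    have := ng_nonneg t
    positivity

lemma eta_contDiff {ε : ℝ} (hε : 0 < ε) : ContDiff ℝ 1 (eta ε) := by
  rw [contDiff_one_iff_deriv]
  refine ⟨fun t => (eta_hasDerivAt hε t).differentiableAt, ?_⟩
  have : deriv (eta ε) = fun t => -(deta ε t) := by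
    funext t; exact (eta_hasDerivAt hε t).deriv
  rw [this]
  exact (deta_cont hε).neg

lemma deta_mul_ng {ε : ℝ} (hε : 0 < ε) (t : ℝ) : eta ε t ≤ deta ε t * ng t := by
  unfold eta deta
  have hn := ng_nonneg t
  rw [div_mul_eq_mul_div, div_le_div_iff₀ (by positivity) (by positivity)]
  have : 0 ≤ (ng t) ^ 2 * (ε + ng t) * (ε) := by positivity
  nlinarith [this]

lemma key_ineq {ε : ℝ} (hε : 0 < ε) (t a : ℝ) :
    |a| * eta ε t ≤ deta ε t * a ^ 2 + ng t * eta ε t / 4 := by
  have hn := ng_nonneg t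
  have h1 := deta_mul_ng hε t
  have he := eta_nonneg hε t
  have hd := deta_nonneg hε t
  rcases hn.eq_or_lt with h | h
  · have h0 : eta ε t = 0 := by unfold eta; rw [← h]; simp
    rw [h0]
    have : 0 ≤ deta ε t * a ^ 2 := by positivity
    simpa using this
  · have h2 : 0 ≤ ng t * (deta ε t * a ^ 2 + ng t * eta ε t / 4 - |a| * eta ε t) := by
      have e1 : eta ε t * a ^ 2 ≤ deta ε t * ng t * a ^ 2 :=
        mul_le_mul_of_nonneg_right h1 (sq_nonneg a)
      have e2 : 0 ≤ eta ε t * (|a| - ng t / 2) ^ 2 := by positivity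
      have e3 : |a| ^ 2 = a ^ 2 := sq_abs a
      nlinarith
    have h3 := nonneg_of_mul_nonneg_right h2 h
    linarith

lemma sq_ng_le {ε : ℝ} (hε : 0 < ε) (t : ℝ) : (ng t) ^ 2 ≤ ng t * eta ε t + ε * ng t := by
  unfold eta
  have hn := ng_nonneg t
  have h : ng t * ((ng t) ^ 2 / (ε + ng t)) + ε * ng t - (ng t) ^ 2
      = ε ^ 2 * ng t / (ε + ng t) := by
    field_simp
    ring
  have : 0 ≤ ε ^ 2 * ng t / (ε + ng t) := by positivity
  linarith

section comp
variable {n : ℕ} (Ω : Dom n)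

lemma pd_eta {ε : ℝ} (hε : 0 < ε) {v : Pt n → ℝ} (hv : ContDiff ℝ 1 v)
    (i : Option (Fin (n + 1))) (z : Pt n) :
    pd (fun z => eta ε (v z)) i z = -(deta ε (v z)) * pd v i z := by
  unfold pd
  have h1 := (hv.differentiable (by simp)).differentiableAt (x := z)
  have h2 := (eta_hasDerivAt hε (v z)).comp_hasFDerivAt z h1.hasFDerivAt
  have h3 : fderiv ℝ (fun z => eta ε (v z)) z = -(deta ε (v z)) • fderiv ℝ v z := h2.fderiv
  rw [h3]
  rfl

lemma IsD.eta {ε : ℝ} (hε : 0 < ε) {v : Pt n → ℝ} (hv : IsD v) : IsD (fun z => eta ε (v z)) := by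
  refine ⟨(eta_contDiff hε).comp hv.smooth, ?_⟩
  obtain ⟨C, hC⟩ := hv.bdd
  refine ⟨C, fun z => ⟨?_, fun i => ?_⟩⟩
  · rw [abs_of_nonneg (eta_nonneg hε _)]
    exact (eta_le hε _).trans ((ng_le_abs _).trans (hC z).1)
  · rw [pd_eta hε hv.smooth, abs_mul, abs_neg, abs_of_nonneg (deta_nonneg hε _)]
    calc deta ε (v z) * |pd v i z| ≤ 1 * |pd v i z| :=
          mul_le_mul_of_nonneg_right (deta_le hε _) (abs_nonneg _)
      _ ≤ C := by rw [one_mul]; exact (hC z).2 i

lemma isD_integrable {μ : Measure (Pt n)} [IsFiniteMeasure μ] {f : Pt n → ℝ} (hf : Continuous f)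
    (hb : ∃ C, ∀ z, |f z| ≤ C) : Integrable f μ := by
  obtain ⟨C, hC⟩ := hb
  exact Integrable.of_bound hf.aestronglyMeasurable C (Eventually.of_forall fun z => by
    rw [Real.norm_eq_abs]; exact hC z)

lemma bdd_mul {f g : Pt n → ℝ} (hf : ∃ C, ∀ z, |f z| ≤ C) (hg : ∃ C, ∀ z, |g z| ≤ C) :
    ∃ C, ∀ z, |f z * g z| ≤ C := by
  obtain ⟨C, hC⟩ := hf
  obtain ⟨C', hC'⟩ := hg
  refine ⟨C * C', fun z => ?_⟩
  rw [abs_mul]
  exact mul_le_mul (hC z) (hC' z) (abs_nonneg _) (le_trans (abs_nonneg _) (hC z))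

lemma BB_io_io {α K : ℝ} {v w : Pt n → ℝ} (hv : IsD v) (hw : IsD w) :
    BB Ω α K (io Ω v hv) (io Ω w hw) =
      ∫ z, ((∑ i, pd v i z * (pd w i z + qq i z * w z)) + K * (v z * w z)) ∂(mu Ω)
        + α⁻¹ * ∫ z, v z * w z ∂(sg Ω) := by
  rw [BB_apply]
  have hi : ∀ i, ⟪pG Ω i (io Ω v hv), pQ Ω i (io Ω w hw)⟫_ℝ
      = ∫ z, pd v i z * (pd w i z + qq i z * w z) ∂(mu Ω) := fun i => by
    rw [pG_io, pQ_io, inner_toLp]
  have hint : ∀ i, Integrable (fun z => pd v i z * (pd w i z + qq i z * w z)) (mu Ω) := fun i =>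
    isD_integrable ((cmp_cont hv (Sum.inr (true, i))).mul (cmp_cont hw (Sum.inr (false, i))))
      (bdd_mul (cmp_bdd hv (Sum.inr (true, i))) (cmp_bdd hw (Sum.inr (false, i))))
  have hint2 : Integrable (fun z => v z * w z) (mu Ω) :=
    isD_integrable ((cmp_cont hv (Sum.inl true)).mul (cmp_cont hw (Sum.inl true)))
      (bdd_mul (cmp_bdd hv (Sum.inl true)) (cmp_bdd hw (Sum.inl true)))
  rw [integral_add (integrable_finsetSum _ fun i _ => hint i) (hint2.const_mul K),
    integral_finsetSum _ (fun i _ => hint i), integral_const_mul]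
  rw [pV_io, pV_io, pT_io, pT_io, inner_toLp, inner_toLp]
  simp only [hi]

lemma BB_eta_le {α K ε : ℝ} (hα : 0 < α) (hε : 0 < ε) (hK : 2 * ((n : ℝ) + 4) ≤ K)
    {v : Pt n → ℝ} (hv : IsD v) :
    BB Ω α K (io Ω v hv) (io Ω _ (hv.eta hε)) ≤ - ∫ z, ng (v z) * eta ε (v z) ∂(mu Ω) := by
  rw [BB_io_io]
  have hvη : ∀ z, v z * eta ε (v z) = - (ng (v z) * eta ε (v z)) := by
    intro z
    rcases lt_or_ge (v z) 0 with h | h
    · rw [ng_of_neg h]; ring
    · have : eta ε (v z) = 0 := by unfold eta; rw [ng_of_nonneg h]; simp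
      rw [this]; ring
  have hpos : ∀ z, 0 ≤ ng (v z) * eta ε (v z) := fun z =>
    mul_nonneg (ng_nonneg _) (eta_nonneg hε _)
  have hT : ∫ z, v z * eta ε (v z) ∂(sg Ω) ≤ 0 := by
    apply integral_nonpos
    intro z
    simp only [hvη z, Pi.zero_apply]
    linarith [hpos z]
  have hT' : α⁻¹ * ∫ z, v z * eta ε (v z) ∂(sg Ω) ≤ 0 :=
    mul_nonpos_of_nonneg_of_nonpos (inv_nonneg.mpr hα.le) hT
  have hηD := hv.eta hε
  have hngc : Continuous fun z => ng (v z) := ng_cont.comp hv.smooth.continuous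
  have hngb : ∃ C, ∀ z, |ng (v z)| ≤ C := by
    obtain ⟨C, hC⟩ := hv.bdd
    exact ⟨C, fun z => by rw [abs_of_nonneg (ng_nonneg _)]; exact (ng_le_abs _).trans (hC z).1⟩
  have hint3 : Integrable (fun z => ng (v z) * eta ε (v z)) (mu Ω) :=
    isD_integrable (hngc.mul hηD.smooth.continuous) (bdd_mul hngb (cmp_bdd hηD (Sum.inl true)))
  have hmain : ∫ z, ((∑ i, pd v i z * (pd (fun z => eta ε (v z)) i z + qq i z * eta ε (v z)))
      + K * (v z * eta ε (v z))) ∂(mu Ω) ≤ ∫ z, -(ng (v z) * eta ε (v z)) ∂(mu Ω) := by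
    apply integral_mono
    · apply Integrable.add
      · apply integrable_finsetSum
        intro i _
        exact isD_integrable ((cmp_cont hv (Sum.inr (true, i))).mul (cmp_cont hηD (Sum.inr (false, i))))
          (bdd_mul (cmp_bdd hv (Sum.inr (true, i))) (cmp_bdd hηD (Sum.inr (false, i))))
      · apply Integrable.const_mul
        exact isD_integrable ((cmp_cont hv (Sum.inl true)).mul (cmp_cont hηD (Sum.inl true)))
          (bdd_mul (cmp_bdd hv (Sum.inl true)) (cmp_bdd hηD (Sum.inl true)))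
    · exact hint3.neg
    · intro z
      have hi : ∀ i, pd v i z * (pd (fun z => eta ε (v z)) i z + qq i z * eta ε (v z))
          ≤ ng (v z) * eta ε (v z) / 4 := by
        intro i
        rw [pd_eta hε hv.smooth]
        have h1 := key_ineq hε (v z) (pd v i z)
        have h2 : pd v i z * (qq i z * eta ε (v z)) ≤ |pd v i z| * eta ε (v z) := by
          have e0 := eta_nonneg hε (v z)
          have e1 : pd v i z * qq i z ≤ |pd v i z| := by
            calc pd v i z * qq i z ≤ |pd v i z * qq i z| := le_abs_self _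
              _ = |pd v i z| * |qq i z| := abs_mul _ _
              _ ≤ |pd v i z| * 1 := mul_le_mul_of_nonneg_left (abs_qq_le i z) (abs_nonneg _)
              _ = _ := mul_one _
          nlinarith
        nlinarith
      have hs := Finset.sum_le_sum (s := Finset.univ) fun i _ => hi i
      rw [Finset.sum_const, Finset.card_univ, nsmul_eq_mul] at hs
      have hcard : (Fintype.card (Option (Fin (n + 1))) : ℝ) = n + 2 := by
        simp; ring
      rw [hcard] at hs
      simp only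
      rw [hvη z]
      have hp := hpos z
      have hn0 : (0 : ℝ) ≤ n := Nat.cast_nonneg n
      have : ((n : ℝ) + 2) * (ng (v z) * eta ε (v z) / 4) + K * (-(ng (v z) * eta ε (v z)))
          ≤ -(ng (v z) * eta ε (v z)) := by nlinarith
      linarith
  rw [integral_neg] at hmain
  linarith

end comp

end Pool.Agent.H314.Robin
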