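import Mathlib
import Pool.Agent.H314.Robin.R5

open MeasureTheory Set Filter Topology
open scoped ENNReal NNReal InnerProductSpace

namespace Pool.Agent.H314.Robin

section cmpr
variable {n : ℕ} (Ω : Dom n)

lemma norm_eta {ε : ℝ} (hε : 0 < ε) {v : Pt n → ℝ} (hv : IsD v) :
    ‖io Ω _ (hv.eta hε)‖ ≤ Real.sqrt (2 * n + 5) * ‖io Ω v hv‖ := by
  have hw := hv.eta hε
  have hV : ‖pV Ω (io Ω _ hw)‖ ≤ ‖pV Ω (io Ω v hv)‖ := by
    apply Lp.norm_le_norm_of_ae_le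
    rw [pV_io, pV_io]
    filter_upwards [(mV Ω hv).coeFn_toLp, (mV Ω hw).coeFn_toLp] with z h1 h2
    rw [h1, h2, Real.norm_eq_abs, Real.norm_eq_abs, abs_of_nonneg (eta_nonneg hε _)]
    exact (eta_le hε _).trans (ng_le_abs _)
  have hT : ‖pT Ω (io Ω _ hw)‖ ≤ ‖pT Ω (io Ω v hv)‖ := by
    apply Lp.norm_le_norm_of_ae_le
    rw [pT_io, pT_io]
    filter_upwards [(mT Ω hv).coeFn_toLp, (mT Ω hw).coeFn_toLp] with z h1 h2
    rw [h1, h2, Real.norm_eq_abs, Real.norm_eq_abs, abs_of_nonneg (eta_nonneg hε _)]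
    exact (eta_le hε _).trans (ng_le_abs _)
  have hG : ∀ i, ‖pG Ω i (io Ω _ hw)‖ ≤ ‖pG Ω i (io Ω v hv)‖ := by
    intro i
    apply Lp.norm_le_norm_of_ae_le
    rw [pG_io, pG_io]
    filter_upwards [(mG Ω hv i).coeFn_toLp, (mG Ω hw i).coeFn_toLp] with z h1 h2
    rw [h1, h2, Real.norm_eq_abs, Real.norm_eq_abs, pd_eta hε hv.smooth, abs_mul, abs_neg,
      abs_of_nonneg (deta_nonneg hε _)]
    calc deta ε (v z) * |pd v i z| ≤ 1 * |pd v i z| :=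
          mul_le_mul_of_nonneg_right (deta_le hε _) (abs_nonneg _)
      _ = _ := one_mul _
  have hQ : ∀ i, ‖pQ Ω i (io Ω _ hw)‖ ^ 2 ≤ 2 * ‖pG Ω i (io Ω v hv)‖ ^ 2
      + 2 * ‖pV Ω (io Ω v hv)‖ ^ 2 := by
    intro i
    have h1 : ‖pQ Ω i (io Ω _ hw)‖ ≤ ‖pG Ω i (io Ω v hv)‖ + ‖pV Ω (io Ω v hv)‖ := by
      calc ‖pQ Ω i (io Ω _ hw)‖
          = ‖pG Ω i (io Ω _ hw) + (pQ Ω i (io Ω _ hw) - pG Ω i (io Ω _ hw))‖ := by
            rw [add_sub_cancel]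
        _ ≤ ‖pG Ω i (io Ω _ hw)‖ + ‖pQ Ω i (io Ω _ hw) - pG Ω i (io Ω _ hw)‖ := norm_add_le _ _
        _ ≤ _ := add_le_add (hG i) ((norm_sub_QG Ω hw i).trans hV)
    have h0 : 0 ≤ ‖pQ Ω i (io Ω _ hw)‖ := norm_nonneg _
    nlinarith [sq_nonneg (‖pG Ω i (io Ω v hv)‖ - ‖pV Ω (io Ω v hv)‖)]
  have hcard : (Fintype.card (Option (Fin (n + 1))) : ℝ) = n + 2 := by
    simp; ring
  have hsumQ : (∑ i, ‖pQ Ω i (io Ω _ hw)‖ ^ 2) ≤ 2 * (∑ i, ‖pG Ω i (io Ω v hv)‖ ^ 2)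
      + (n + 2) * (2 * ‖pV Ω (io Ω v hv)‖ ^ 2) := by
    have := Finset.sum_le_sum (s := Finset.univ) fun i _ => hQ i
    rw [Finset.sum_add_distrib, ← Finset.mul_sum, Finset.sum_const, Finset.card_univ,
      nsmul_eq_mul, hcard] at this
    exact this
  have hsumG : (∑ i, ‖pG Ω i (io Ω _ hw)‖ ^ 2) ≤ ∑ i, ‖pG Ω i (io Ω v hv)‖ ^ 2 :=
    Finset.sum_le_sum fun i _ => pow_le_pow_left₀ (norm_nonneg _) (hG i) 2
  have hV2 := pow_le_pow_left₀ (norm_nonneg _) hV 2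
  have hT2 := pow_le_pow_left₀ (norm_nonneg _) hT 2
  have hn0 : (0 : ℝ) ≤ n := Nat.cast_nonneg n
  have hsq : ‖io Ω _ hw‖ ^ 2 ≤ (2 * n + 5) * ‖io Ω v hv‖ ^ 2 := by
    rw [norm_sq_LL, norm_sq_LL]
    have h1 : 0 ≤ ∑ i, ‖pQ Ω i (io Ω v hv)‖ ^ 2 := Finset.sum_nonneg fun i _ => sq_nonneg _
    have h2 : 0 ≤ ∑ i, ‖pG Ω i (io Ω v hv)‖ ^ 2 := Finset.sum_nonneg fun i _ => sq_nonneg _
    have h3 : 0 ≤ ‖pT Ω (io Ω v hv)‖ ^ 2 := sq_nonneg _
    have h4 : 0 ≤ ‖pV Ω (io Ω v hv)‖ ^ 2 := sq_nonneg _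
    nlinarith [mul_nonneg hn0 h1, mul_nonneg hn0 h2, mul_nonneg hn0 h3, mul_nonneg hn0 h4]
  have h5 : (0 : ℝ) ≤ 2 * n + 5 := by positivity
  rw [← Real.sqrt_sq (norm_nonneg (io Ω _ hw)), ← Real.sqrt_sq (norm_nonneg (io Ω v hv)),
    ← Real.sqrt_mul h5]
  exact Real.sqrt_le_sqrt hsq

lemma memLp_bdd {μ : Measure (Pt n)} [IsFiniteMeasure μ] {f : Pt n → ℝ} (hf : Continuous f)
    (hb : ∃ C, ∀ z, |f z| ≤ C) : MemLp f 2 μ := by
  obtain ⟨C, hC⟩ := hb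
  exact MemLp.of_bound hf.aestronglyMeasurable C (Eventually.of_forall fun z => by
    rw [Real.norm_eq_abs]; exact hC z)

lemma norm_toLp_sq {μ : Measure (Pt n)} {f : Pt n → ℝ} (hf : MemLp f 2 μ) :
    ‖hf.toLp f‖ ^ 2 = ∫ z, (f z) ^ 2 ∂μ := by
  rw [← real_inner_self_eq_norm_sq, inner_toLp]
  simp only [sq]

theorem comparison {α K : ℝ} (hα : 0 < α) (hK : 2 * ((n : ℝ) + 4) ≤ K) {U : LL Ω}
    (hU : U ∈ HH Ω)
    (h : ∀ v (hv : IsD v), (∀ z, 0 ≤ v z) → 0 ≤ BB Ω α K U (io Ω v hv)) : 0 ≤ pV Ω U := by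
  obtain ⟨x, hx, hlim⟩ := mem_closure_iff_seq_limit.mp
    (show U ∈ closure ((Dsub Ω : Submodule ℝ (LL Ω)) : Set (LL Ω)) from hU)
  choose v hv hxv using hx
  have hngc : ∀ k, Continuous fun z => ng (v k z) := fun k => ng_cont.comp (hv k).smooth.continuous
  have hngb : ∀ k, ∃ C, ∀ z, |ng (v k z)| ≤ C := by
    intro k
    obtain ⟨C, hC⟩ := (hv k).bdd
    exact ⟨C, fun z => by rw [abs_of_nonneg (ng_nonneg _)]; exact (ng_le_abs _).trans (hC z).1⟩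
  have hm : ∀ k, MemLp (fun z => ng (v k z)) 2 (mu Ω) := fun k => memLp_bdd (hngc k) (hngb k)
  have hbound : ∀ k, ‖(hm k).toLp _‖ ^ 2 ≤
      ‖BB Ω α K‖ * ‖U - x k‖ * (Real.sqrt (2 * n + 5) * ‖x k‖) := by
    intro k
    rw [norm_toLp_sq]
    have hint : Integrable (fun z => ng (v k z)) (mu Ω) := isD_integrable (hngc k) (hngb k)
    apply le_of_forall_pos_le_add
    intro δ hδ
    set I := ∫ z, ng (v k z) ∂(mu Ω) with hI
    have hI0 : 0 ≤ I := integral_nonneg fun z => ng_nonneg _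
    have hε : 0 < δ / (I + 1) := by positivity
    set ε := δ / (I + 1) with hεdef
    have hηD := (hv k).eta hε
    have hint2 : Integrable (fun z => ng (v k z) * eta ε (v k z)) (mu Ω) :=
      isD_integrable ((hngc k).mul hηD.smooth.continuous)
          (bdd_mul (hngb k) (cmp_bdd hηD (Sum.inl true)))
    have h1 : ∫ z, (ng (v k z)) ^ 2 ∂(mu Ω)
        ≤ ∫ z, (ng (v k z) * eta ε (v k z) + ε * ng (v k z)) ∂(mu Ω) := by
      apply integral_mono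
      · exact isD_integrable ((hngc k).pow 2) (by
          have := bdd_mul (hngb k) (hngb k)
          simpa only [sq] using this)
      · exact hint2.add (hint.const_mul ε)
      · intro z; exact sq_ng_le hε _
    rw [integral_add hint2 (hint.const_mul ε), integral_const_mul] at h1
    have h2 := BB_eta_le Ω (K := K) hα hε hK (hv k)
    have h3 := h _ hηD (fun z => eta_nonneg hε _)
    have h4 : BB Ω α K (U - x k) (io Ω _ hηD) ≤ ‖BB Ω α K‖ * ‖U - x k‖ * ‖io Ω _ hηD‖ :=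
      (le_abs_self _).trans ((BB Ω α K).le_opNorm₂ _ _)
    have h5 : BB Ω α K (U - x k) (io Ω _ hηD)
        = BB Ω α K U (io Ω _ hηD) - BB Ω α K (io Ω (v k) (hv k)) (io Ω _ hηD) := by
      rw [hxv k, map_sub, sub_apply]
    have h6 : ‖io Ω _ hηD‖ ≤ Real.sqrt (2 * n + 5) * ‖x k‖ := by
      rw [← hxv k]; exact norm_eta Ω hε (hv k)
    have h7 : ‖BB Ω α K‖ * ‖U - x k‖ * ‖io Ω _ hηD‖
        ≤ ‖BB Ω α K‖ * ‖U - x k‖ * (Real.sqrt (2 * n + 5) * ‖x k‖) :=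
      mul_le_mul_of_nonneg_left h6 (by positivity)
    have h8 : ε * I ≤ δ := by
      rw [hεdef, div_mul_eq_mul_div, div_le_iff₀ (by positivity)]
      nlinarith
    linarith
  have hdiff : Tendsto (fun k => ‖U - x k‖) atTop (𝓝 0) := by
    have : Tendsto (fun k => U - x k) atTop (𝓝 (U - U)) := tendsto_const_nhds.sub hlim
    rw [sub_self] at this
    simpa using this.norm
  have hR : Tendsto (fun k => ‖BB Ω α K‖ * ‖U - x k‖ * (Real.sqrt (2 * n + 5) * ‖x k‖)) atTop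
      (𝓝 (‖BB Ω α K‖ * 0 * (Real.sqrt (2 * n + 5) * ‖U‖))) :=
    (hdiff.const_mul _).mul (hlim.norm.const_mul _)
  rw [mul_zero, zero_mul] at hR
  have hsq0 : Tendsto (fun k => ‖(hm k).toLp _‖ ^ 2) atTop (𝓝 0) :=
    squeeze_zero (fun k => sq_nonneg _) hbound hR
  have hn0 : Tendsto (fun k => ‖(hm k).toLp _‖) atTop (𝓝 0) := by
    have h1 := (Real.continuous_sqrt.tendsto 0).comp hsq0
    rw [Real.sqrt_zero] at h1
    refine h1.congr fun k => ?_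
    simp only [Function.comp]
    exact Real.sqrt_sq (norm_nonneg _)
  have hs0 : Tendsto (fun k => (hm k).toLp _) atTop (𝓝 0) := tendsto_zero_iff_norm_tendsto_zero.mpr hn0
  have hw : Tendsto (fun k => pV Ω (x k) + (hm k).toLp _) atTop (𝓝 (pV Ω U + 0)) :=
    (((pV Ω).continuous.tendsto U).comp hlim).add hs0
  rw [add_zero] at hw
  refine ge_of_tendsto' hw fun k => ?_
  rw [← hxv k, pV_io, ← MemLp.toLp_add, ← Lp.coeFn_nonneg]
  filter_upwards [((mV Ω (hv k)).add (hm k)).coeFn_toLp] with z hz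
  rw [hz]
  simp only [Pi.zero_apply, Pi.add_apply]
  have : -(v k z) ≤ ng (v k z) := le_max_left _ _
  linarith

end cmpr

end Pool.Agent.H314.Robin
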