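import Mathlib
import Pool.Agent.H314.Robin.R6

open MeasureTheory Set Filter Topology
open scoped ENNReal NNReal InnerProductSpace

namespace Pool.Agent.H314.Robin

section iter
variable {n : ℕ} (Ω : Dom n)

lemma inner_nonneg_Lp {μ : Measure (Pt n)} {f g : Lp ℝ 2 μ} (hf : 0 ≤ f) (hg : 0 ≤ g) :
    0 ≤ ⟪f, g⟫_ℝ := by
  rw [L2.inner_def]
  apply integral_nonneg_of_ae
  filter_upwards [(Lp.coeFn_nonneg f).mpr hf, (Lp.coeFn_nonneg g).mpr hg] with z h1 h2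
  simp only [Pi.zero_apply] at h1 h2 ⊢
  simp only [RCLike.inner_apply, conj_trivial]
  exact mul_nonneg h2 h1

lemma toLp_nonneg {μ : Measure (Pt n)} {f : Pt n → ℝ} (hf : MemLp f 2 μ) (h : ∀ᵐ z ∂μ, 0 ≤ f z) :
    0 ≤ hf.toLp f := by
  rw [← Lp.coeFn_nonneg]
  filter_upwards [hf.coeFn_toLp, h] with z h1 h2
  rw [h1]; exact h2

/-- value part of the solution -/
noncomputable def sv {α K : ℝ} (hα : 0 < α) (hK : 2 * ((n : ℝ) + 4) ≤ K) :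
    Lp ℝ 2 (mu Ω) →L[ℝ] Lp ℝ 2 (mu Ω) :=
  (pV Ω).comp ((HH Ω).subtypeL.comp (SS Ω hα hK))

lemma sv_apply {α K : ℝ} (hα : 0 < α) (hK : 2 * ((n : ℝ) + 4) ≤ K) (g : Lp ℝ 2 (mu Ω)) :
    sv Ω hα hK g = pV Ω (SS Ω hα hK g : LL Ω) := rfl

lemma sv_nonneg {α K : ℝ} (hα : 0 < α) (hK : 2 * ((n : ℝ) + 4) ≤ K) {g : Lp ℝ 2 (mu Ω)}
    (hg : 0 ≤ g) : 0 ≤ sv Ω hα hK g := by
  rw [sv_apply]
  apply comparison Ω hα hK (SetLike.coe_mem _)
  intro v hv hv0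
  rw [SS_spec Ω hα hK g _ (io_mem Ω hv), pV_io]
  exact inner_nonneg_Lp hg (toLp_nonneg _ (Eventually.of_forall hv0))

lemma sv_mono {α K : ℝ} (hα : 0 < α) (hK : 2 * ((n : ℝ) + 4) ≤ K) {g g' : Lp ℝ 2 (mu Ω)}
    (hg : g ≤ g') : sv Ω hα hK g ≤ sv Ω hα hK g' := by
  rw [← sub_nonneg, ← map_sub]
  exact sv_nonneg Ω hα hK (sub_nonneg.mpr hg)

lemma sv_le {α K : ℝ} (hα : 0 < α) (hK : 2 * ((n : ℝ) + 4) ≤ K) {g : Lp ℝ 2 (mu Ω)}
    {Q : Pt n → ℝ} (hQ : IsD Q)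
    (h : ∀ v (hv : IsD v), (∀ z, 0 ≤ v z) → ⟪g, pV Ω (io Ω v hv)⟫_ℝ
      ≤ BB Ω α K (io Ω Q hQ) (io Ω v hv)) : sv Ω hα hK g ≤ pV Ω (io Ω Q hQ) := by
  rw [sv_apply, ← sub_nonneg, ← map_sub]
  apply comparison Ω hα hK ((HH Ω).sub_mem (io_mem Ω hQ) (SetLike.coe_mem _))
  intro v hv hv0
  rw [map_sub, sub_apply, SS_spec Ω hα hK g _ (io_mem Ω hv), sub_nonneg]
  exact h v hv hv0

lemma le_sv {α K : ℝ} (hα : 0 < α) (hK : 2 * ((n : ℝ) + 4) ≤ K) {g : Lp ℝ 2 (mu Ω)}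
    {P : Pt n → ℝ} (hP : IsD P)
    (h : ∀ v (hv : IsD v), (∀ z, 0 ≤ v z) → BB Ω α K (io Ω P hP) (io Ω v hv)
      ≤ ⟪g, pV Ω (io Ω v hv)⟫_ℝ) : pV Ω (io Ω P hP) ≤ sv Ω hα hK g := by
  rw [sv_apply, ← sub_nonneg, ← map_sub]
  apply comparison Ω hα hK ((HH Ω).sub_mem (SetLike.coe_mem _) (io_mem Ω hP))
  intro v hv hv0
  rw [map_sub, sub_apply, SS_spec Ω hα hK g _ (io_mem Ω hv), sub_nonneg]
  exact h v hv hv0

/-- superposition operator -/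
noncomputable def NN {μ : Measure (Pt n)} {F : ℝ → ℝ} {LF : ℝ≥0} (hF : LipschitzWith LF F)
    (h0 : F 0 = 0) : Lp ℝ 2 μ → Lp ℝ 2 μ := fun u => hF.compLp h0 u

lemma NN_coe {μ : Measure (Pt n)} {F : ℝ → ℝ} {LF : ℝ≥0} (hF : LipschitzWith LF F)
    (h0 : F 0 = 0) (u : Lp ℝ 2 μ) : NN hF h0 u =ᵐ[μ] fun z => F (u z) :=
  hF.coeFn_compLp h0 u

lemma NN_cont {μ : Measure (Pt n)} {F : ℝ → ℝ} {LF : ℝ≥0} (hF : LipschitzWith LF F)
    (h0 : F 0 = 0) : Continuous (NN (μ := μ) hF h0) := hF.continuous_compLp h0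

lemma NN_mono {μ : Measure (Pt n)} {F : ℝ → ℝ} {LF : ℝ≥0} (hF : LipschitzWith LF F)
    (h0 : F 0 = 0) (hm : Monotone F) {u v : Lp ℝ 2 μ} (huv : u ≤ v) :
    NN hF h0 u ≤ NN hF h0 v := by
  rw [← Lp.coeFn_le] at huv ⊢
  filter_upwards [NN_coe hF h0 u, NN_coe hF h0 v, huv] with z h1 h2 h3
  rw [h1, h2]
  exact hm h3

theorem exists_fixed {T : Lp ℝ 2 (mu Ω) → Lp ℝ 2 (mu Ω)} (hT : Continuous T)
    (hmono : ∀ u v, u ≤ v → T u ≤ T v) {p q : Lp ℝ 2 (mu Ω)} (hp0 : 0 ≤ p) (hpq : p ≤ q)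
    (hp : p ≤ T p) (hq : T q ≤ q) : ∃ u, T u = u ∧ p ≤ u ∧ u ≤ q := by
  set x : ℕ → Lp ℝ 2 (mu Ω) := fun k => T^[k] q with hx
  have hxs : ∀ k, x (k + 1) = T (x k) := fun k => Function.iterate_succ_apply' T k q
  have hanti : Antitone x := by
    apply antitone_nat_of_succ_le
    intro k
    induction k with
    | zero => rw [hxs]; exact hq
    | succ k ih => rw [hxs (k + 1), hxs k]; rw [hxs k] at ih; exact hmono _ _ ih
  have hlow : ∀ k, p ≤ x k := by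
    intro k
    induction k with
    | zero => exact hpq
    | succ k ih => rw [hxs]; exact hp.trans (hmono _ _ ih)
  have hup : ∀ k, x k ≤ q := fun k => hanti (Nat.zero_le k)
  have hpos : ∀ k, 0 ≤ x k := fun k => hp0.trans (hlow k)
  have hkey : ∀ k l, k ≤ l → ‖x k - x l‖ ^ 2 ≤ ‖x k‖ ^ 2 - ‖x l‖ ^ 2 := by
    intro k l hkl
    have h1 : 0 ≤ ⟪x k - x l, x l⟫_ℝ :=
      inner_nonneg_Lp (sub_nonneg.mpr (hanti hkl)) (hpos l)
    have h2 : ‖x k‖ ^ 2 = ‖x k - x l‖ ^ 2 + 2 * ⟪x k - x l, x l⟫_ℝ + ‖x l‖ ^ 2 := by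
      rw [← norm_add_sq_real, sub_add_cancel]
    linarith
  set a : ℕ → ℝ := fun k => ‖x k‖ ^ 2 with ha
  have haanti : Antitone a := fun k l hkl => by
    have := hkey k l hkl
    have h0 := sq_nonneg ‖x k - x l‖
    simp only [ha]
    linarith
  have hbdd : BddBelow (range a) := ⟨0, by rintro _ ⟨k, rfl⟩; exact sq_nonneg _⟩
  have halim := tendsto_atTop_ciInf haanti hbdd
  set A := ⨅ k, a k with hA
  have hAle : ∀ k, A ≤ a k := fun k => ciInf_le hbdd k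
  have hcauchy : CauchySeq x := by
    apply cauchySeq_of_le_tendsto_0 (fun N => Real.sqrt (a N - A))
    · intro k l N hk hl
      rw [dist_eq_norm]
      apply Real.le_sqrt_of_sq_le
      rcases le_total k l with h | h
      · have h1 := hkey k l h
        have h2 := haanti hk
        have h3 := hAle l
        simp only [ha] at h1 h2 h3 ⊢
        linarith
      · have h1 := hkey l k h
        rw [norm_sub_rev] at h1
        have h2 := haanti hl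
        have h3 := hAle k
        simp only [ha] at h1 h2 h3 ⊢
        linarith
    · have h1 : Tendsto (fun N => a N - A) atTop (𝓝 (A - A)) := halim.sub tendsto_const_nhds
      rw [sub_self] at h1
      have := (Real.continuous_sqrt.tendsto 0).comp h1
      rwa [Real.sqrt_zero] at this
  obtain ⟨u, hu⟩ := cauchySeq_tendsto_of_complete hcauchy
  refine ⟨u, ?_, ge_of_tendsto' hu hlow, le_of_tendsto' hu hup⟩
  have h1 : Tendsto (fun k => x (k + 1)) atTop (𝓝 (T u)) := by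
    have := (hT.tendsto u).comp hu
    refine this.congr fun k => ?_
    rw [hxs]; rfl
  have h2 : Tendsto (fun k => x (k + 1)) atTop (𝓝 u) := hu.comp (tendsto_add_atTop_nat 1)
  exact tendsto_nhds_unique h1 h2

/-- Existence of a fixed point of the solution map between a subsolution and a supersolution. -/
theorem exists_between {α K : ℝ} (hα : 0 < α) (hK : 2 * ((n : ℝ) + 4) ≤ K)
    {F : ℝ → ℝ} {LF : ℝ≥0} (hF : LipschitzWith LF F) (h0 : F 0 = 0) (hm : Monotone F)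
    {P Q : Pt n → ℝ} (hP : IsD P) (hQ : IsD Q)
    (hP0 : ∀ z ∈ epi Ω.fn, 0 ≤ P z) (hPQ : ∀ z ∈ epi Ω.fn, P z ≤ Q z)
    (hsub : ∀ v (hv : IsD v), (∀ z, 0 ≤ v z) → BB Ω α K (io Ω P hP) (io Ω v hv)
      ≤ ∫ z, F (P z) * v z ∂(mu Ω))
    (hsup : ∀ v (hv : IsD v), (∀ z, 0 ≤ v z) → ∫ z, F (Q z) * v z ∂(mu Ω)
      ≤ BB Ω α K (io Ω Q hQ) (io Ω v hv)) :
    ∃ U : LL Ω, U ∈ HH Ω ∧ (∀ v (hv : IsD v), BB Ω α K U (io Ω v hv)
        = ∫ z, F (pV Ω U z) * v z ∂(mu Ω)) ∧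
      (∀ᵐ z ∂(mu Ω), P z ≤ pV Ω U z ∧ pV Ω U z ≤ Q z) := by
  have hae : ∀ᵐ z ∂(mu Ω), z ∈ epi Ω.fn := by
    unfold mu
    apply (withDensity_absolutelyContinuous _ _).ae_le
    exact ae_restrict_mem (measurableSet_epi Ω)
  set T : Lp ℝ 2 (mu Ω) → Lp ℝ 2 (mu Ω) := fun u => sv Ω hα hK (NN hF h0 u) with hTdef
  have hinner : ∀ (g : Lp ℝ 2 (mu Ω)) v (hv : IsD v),
      ⟪NN hF h0 g, pV Ω (io Ω v hv)⟫_ℝ = ∫ z, F (g z) * v z ∂(mu Ω) := by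
    intro g v hv
    rw [L2.inner_def, pV_io]
    apply integral_congr_ae
    filter_upwards [NN_coe hF h0 g, (mV Ω hv).coeFn_toLp] with z h1 h2
    rw [h1, h2]
    simp [mul_comm]
  have hinnerD : ∀ (R : Pt n → ℝ) (hR : IsD R) v (hv : IsD v),
      ⟪NN hF h0 (pV Ω (io Ω R hR)), pV Ω (io Ω v hv)⟫_ℝ = ∫ z, F (R z) * v z ∂(mu Ω) := by
    intro R hR v hv
    rw [hinner]
    apply integral_congr_ae
    rw [pV_io]
    filter_upwards [(mV Ω hR).coeFn_toLp] with z h1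
    rw [h1]
  obtain ⟨u, hTu, hpu, huq⟩ := exists_fixed Ω (T := T)
    ((sv Ω hα hK).continuous.comp (NN_cont hF h0))
    (fun u v huv => sv_mono Ω hα hK (NN_mono hF h0 hm huv))
    (p := pV Ω (io Ω P hP)) (q := pV Ω (io Ω Q hQ))
    (by
      rw [pV_io]
      exact toLp_nonneg _ (hae.mono fun z hz => hP0 z hz))
    (by
      rw [pV_io, pV_io, ← Lp.coeFn_le]
      filter_upwards [(mV Ω hP).coeFn_toLp, (mV Ω hQ).coeFn_toLp, hae] with z h1 h2 h3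
      rw [h1, h2]
      exact hPQ z h3)
    (by
      apply le_sv Ω hα hK hP
      intro v hv hv0
      rw [hinnerD]
      exact hsub v hv hv0)
    (by
      apply sv_le Ω hα hK hQ
      intro v hv hv0
      rw [hinnerD]
      exact hsup v hv hv0)
  refine ⟨(SS Ω hα hK (NN hF h0 u) : LL Ω), SetLike.coe_mem _, ?_, ?_⟩
  · intro v hv
    have e1 : pV Ω (SS Ω hα hK (NN hF h0 u) : LL Ω) = u := hTu
    rw [SS_spec Ω hα hK _ _ (io_mem Ω hv), hinner, e1]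
  · have e1 : pV Ω (SS Ω hα hK (NN hF h0 u) : LL Ω) = u := hTu
    rw [e1]
    rw [pV_io, ← Lp.coeFn_le] at hpu
    rw [pV_io, ← Lp.coeFn_le] at huq
    filter_upwards [(mV Ω hP).coeFn_toLp, (mV Ω hQ).coeFn_toLp, hpu, huq] with z h1 h2 h3 h4
    rw [h1] at h3
    rw [h2] at h4
    exact ⟨h3, h4⟩

end iter

end Pool.Agent.H314.Robin
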