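import Mathlib
import Pool.Agent.H314.Robin.R7

open MeasureTheory Set Filter Topology
open scoped ENNReal NNReal InnerProductSpace

namespace Pool.Agent.H314.Robin

/-- `u` belongs to `H¹_loc` up to the boundary of the epigraph of `ϕ`, with weak gradient `G` and
boundary trace `T` (in graph coordinates): on every ball the triple `(u, G, T)` is the `L²` limit of
`(v, ∇v, v|∂Ω)` for functions `v` of class `C¹` on the whole space. -/
structure HasGradTrace {n : ℕ} (ϕ : (Fin (n + 1) → ℝ) → ℝ) (u : Pt n → ℝ)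
    (G : Option (Fin (n + 1)) → Pt n → ℝ) (T : (Fin (n + 1) → ℝ) → ℝ) : Prop where
  meas_u : Measurable u
  meas_G : ∀ i, Measurable (G i)
  meas_T : Measurable T
  approx : ∃ v : ℕ → Pt n → ℝ, (∀ k, ContDiff ℝ 1 (v k)) ∧ ∀ R : ℝ,
    Tendsto (fun k => eLpNorm (fun z => v k z - u z) 2
      (volume.restrict (epi ϕ ∩ Metric.ball 0 R))) atTop (𝓝 0) ∧
    (∀ i, Tendsto (fun k => eLpNorm (fun z => pd (v k) i z - G i z) 2
      (volume.restrict (epi ϕ ∩ Metric.ball 0 R))) atTop (𝓝 0)) ∧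
    Tendsto (fun k => eLpNorm (fun x => v k (x, ϕ x) - T x) 2
      (volume.restrict (Metric.ball 0 R))) atTop (𝓝 0)

/-- Positive bounded solution of `-Δu = f(u)` in the epigraph, `u + α ∂_ν u = 0` on its boundary,
in the weak (variational) sense. -/
def IsPosBddSol {n : ℕ} (f : ℝ → ℝ) (α : ℝ) (ϕ : (Fin (n + 1) → ℝ) → ℝ) (u : Pt n → ℝ) : Prop :=
  (∀ z ∈ epi ϕ, 0 < u z ∧ u z ≤ 1) ∧
  ∃ (G : Option (Fin (n + 1)) → Pt n → ℝ) (T : (Fin (n + 1) → ℝ) → ℝ), HasGradTrace ϕ u G T ∧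
    ∀ φ : Pt n → ℝ, ContDiff ℝ 1 φ → HasCompactSupport φ →
      (∫ z in epi ϕ, ∑ i, G i z * pd φ i z) + α⁻¹ * ∫ x, T x * φ (x, ϕ x) * surf ϕ x
        = ∫ z in epi ϕ, f (u z) * φ z

lemma restrict_le_withDensity {X : Type*} [MeasurableSpace X] (ν : Measure X) {w : X → ℝ}
    {m : ℝ} (hm : 0 < m) {B : Set X} (hB : MeasurableSet B)
    (h : ∀ x ∈ B, m ≤ w x) :
    ν.restrict B ≤ (ENNReal.ofReal m)⁻¹ • ν.withDensity (fun x => ENNReal.ofReal (w x)) := by
  have hm0 : ENNReal.ofReal m ≠ 0 := by simpa using hm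
  have hmt : ENNReal.ofReal m ≠ ⊤ := ENNReal.ofReal_ne_top
  rw [Measure.le_iff]
  intro s hs
  rw [Measure.restrict_apply hs, Measure.smul_apply, smul_eq_mul, withDensity_apply _ hs]
  have h1 : ENNReal.ofReal m * ν (s ∩ B) ≤ ∫⁻ x in s, ENNReal.ofReal (w x) ∂ν := by
    calc ENNReal.ofReal m * ν (s ∩ B) = ∫⁻ _ in s ∩ B, ENNReal.ofReal m ∂ν := by
          rw [setLIntegral_const]
      _ ≤ ∫⁻ x in s ∩ B, ENNReal.ofReal (w x) ∂ν := by
          apply setLIntegral_mono' (hs.inter hB)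
          intro x hx
          exact ENNReal.ofReal_le_ofReal (h x hx.2)
      _ ≤ ∫⁻ x in s, ENNReal.ofReal (w x) ∂ν := lintegral_mono_set inter_subset_left
  calc ν (s ∩ B) = (ENNReal.ofReal m)⁻¹ * (ENNReal.ofReal m * ν (s ∩ B)) := by
        rw [← mul_assoc, ENNReal.inv_mul_cancel hm0 hmt, one_mul]
    _ ≤ _ := by gcongr

section conv
variable {n : ℕ} (Ω : Dom n)

lemma rho_lower (R : ℝ) : ∃ m > 0, ∀ z ∈ Metric.ball (0 : Pt n) R, m ≤ rho z := by
  obtain ⟨m, hm, h⟩ := (isCompact_closedBall (0 : Pt n) |R|).exists_isMinOn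
    ⟨0, by simp⟩ rho_cont.continuousOn
  refine ⟨rho m, rho_pos m, fun z hz => h ?_⟩
  exact Metric.ball_subset_closedBall (Metric.ball_subset_ball (le_abs_self R) hz)

lemma tendsto_local {f : ℕ → Pt n → ℝ} {g : Pt n → ℝ}
    (h : Tendsto (fun k => eLpNorm (fun z => f k z - g z) 2 (mu Ω)) atTop (𝓝 0)) (R : ℝ) :
    Tendsto (fun k => eLpNorm (fun z => f k z - g z) 2
      (volume.restrict (epi Ω.fn ∩ Metric.ball 0 R))) atTop (𝓝 0) := by
  obtain ⟨m, hm, hR⟩ := rho_lower (n := n) R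
  have hle : (volume.restrict (epi Ω.fn ∩ Metric.ball 0 R) : Measure (Pt n))
      ≤ (ENNReal.ofReal m)⁻¹ • mu Ω := by
    rw [inter_comm, ← Measure.restrict_restrict measurableSet_ball]
    exact restrict_le_withDensity _ hm measurableSet_ball hR
  have hc : (ENNReal.ofReal m)⁻¹ ≠ 0 := by simp
  have hc' : (ENNReal.ofReal m)⁻¹ ≠ ⊤ := by simpa using hm
  have h2 : Tendsto (fun k => ((ENNReal.ofReal m)⁻¹) ^ (1 / (2:ℝ≥0∞)).toReal
      • eLpNorm (fun z => f k z - g z) 2 (mu Ω)) atTop (𝓝 0) := by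
    have := ENNReal.Tendsto.const_mul (a := ((ENNReal.ofReal m)⁻¹) ^ (1 / (2:ℝ≥0∞)).toReal) h
      (Or.inr (ENNReal.rpow_ne_top_of_nonneg ENNReal.toReal_nonneg hc'))
    rw [mul_zero] at this
    exact this
  refine tendsto_of_tendsto_of_tendsto_of_le_of_le tendsto_const_nhds h2 (fun _ => bot_le)
    (fun k => ?_)
  calc _ ≤ eLpNorm (fun z => f k z - g z) 2 ((ENNReal.ofReal m)⁻¹ • mu Ω) :=
        eLpNorm_mono_measure _ hle
    _ = _ := eLpNorm_smul_measure_of_ne_top (by simp) _ _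

lemma bw_lower (R : ℝ) : ∃ m > 0, ∀ x ∈ Metric.ball (0 : Fin (n + 1) → ℝ) R, m ≤ bw Ω x := by
  obtain ⟨m, hm, h⟩ := (isCompact_closedBall (0 : Fin (n + 1) → ℝ) |R|).exists_isMinOn
    ⟨0, by simp⟩ (rho_cont.comp (graph_cont Ω)).continuousOn
  refine ⟨rho (m, Ω.fn m), rho_pos _, fun x hx => ?_⟩
  have h1 : rho (m, Ω.fn m) ≤ rho (x, Ω.fn x) :=
    h (Metric.ball_subset_closedBall (Metric.ball_subset_ball (le_abs_self R) hx))
  have h2 := one_le_surf Ω x
  have h3 := rho_pos ((x, Ω.fn x) : Pt n)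
  unfold bw
  nlinarith

lemma tendsto_local_bd {f : ℕ → Pt n → ℝ} {g : Pt n → ℝ} (hf : ∀ k, Measurable (f k))
    (hg : Measurable g)
    (h : Tendsto (fun k => eLpNorm (fun z => f k z - g z) 2 (sg Ω)) atTop (𝓝 0)) (R : ℝ) :
    Tendsto (fun k => eLpNorm (fun x => f k (x, Ω.fn x) - g (x, Ω.fn x)) 2
      (volume.restrict (Metric.ball 0 R))) atTop (𝓝 0) := by
  obtain ⟨m, hm, hR⟩ := bw_lower Ω R
  have hle : (volume.restrict (Metric.ball (0 : Fin (n + 1) → ℝ) R))
      ≤ (ENNReal.ofReal m)⁻¹ • volume.withDensity (fun x => ENNReal.ofReal (bw Ω x)) :=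
    restrict_le_withDensity _ hm measurableSet_ball hR
  have hc' : (ENNReal.ofReal m)⁻¹ ≠ ⊤ := by simpa using hm
  have h2 : Tendsto (fun k => ((ENNReal.ofReal m)⁻¹) ^ (1 / (2:ℝ≥0∞)).toReal
      • eLpNorm (fun z => f k z - g z) 2 (sg Ω)) atTop (𝓝 0) := by
    have := ENNReal.Tendsto.const_mul (a := ((ENNReal.ofReal m)⁻¹) ^ (1 / (2:ℝ≥0∞)).toReal) h
      (Or.inr (ENNReal.rpow_ne_top_of_nonneg ENNReal.toReal_nonneg hc'))
    rw [mul_zero] at this
    exact this
  refine tendsto_of_tendsto_of_tendsto_of_le_of_le tendsto_const_nhds h2 (fun _ => bot_le)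
    (fun k => ?_)
  have hmap : eLpNorm (fun z => f k z - g z) 2 (sg Ω)
      = eLpNorm (fun x => f k (x, Ω.fn x) - g (x, Ω.fn x)) 2
        (volume.withDensity (fun x => ENNReal.ofReal (bw Ω x))) := by
    unfold sg
    have hfg : Measurable fun z => f k z - g z := (hf k).sub hg
    rw [eLpNorm_map_measure hfg.aestronglyMeasurable
      (graph_cont Ω).measurable.aemeasurable]
    rfl
  rw [hmap]
  calc _ ≤ eLpNorm (fun x => f k (x, Ω.fn x) - g (x, Ω.fn x)) 2
        ((ENNReal.ofReal m)⁻¹ • volume.withDensity (fun x => ENNReal.ofReal (bw Ω x))) :=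
        eLpNorm_mono_measure _ hle
    _ = _ := eLpNorm_smul_measure_of_ne_top (by simp) _ _

lemma meas_rho : Measurable (fun z : Pt n => ENNReal.ofReal (rho z)) :=
  ENNReal.measurable_ofReal.comp rho_cont.measurable

lemma meas_bw : Measurable (fun x => ENNReal.ofReal (bw Ω x)) :=
  ENNReal.measurable_ofReal.comp (bw_measurable Ω)

lemma integral_mu (f : Pt n → ℝ) : ∫ z, f z ∂(mu Ω) = ∫ z in epi Ω.fn, rho z * f z := by
  unfold mu
  rw [integral_withDensity_eq_integral_toReal_smul meas_rho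
    (Eventually.of_forall fun z => ENNReal.ofReal_lt_top)]
  apply integral_congr_ae
  filter_upwards with z
  rw [ENNReal.toReal_ofReal (rho_pos z).le, smul_eq_mul]

lemma integrable_mu_iff (f : Pt n → ℝ) :
    Integrable f (mu Ω) ↔ IntegrableOn (fun z => rho z * f z) (epi Ω.fn) := by
  unfold mu
  rw [integrable_withDensity_iff_integrable_smul' meas_rho
    (Eventually.of_forall fun z => ENNReal.ofReal_lt_top)]
  apply integrable_congr
  filter_upwards with z
  rw [ENNReal.toReal_ofReal (rho_pos z).le, smul_eq_mul]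

lemma integral_sg (f : Pt n → ℝ) (hf : Measurable f) :
    ∫ z, f z ∂(sg Ω) = ∫ x, bw Ω x * f (x, Ω.fn x) := by
  unfold sg
  rw [integral_map (graph_cont Ω).measurable.aemeasurable hf.aestronglyMeasurable]
  rw [integral_withDensity_eq_integral_toReal_smul (meas_bw Ω)
    (Eventually.of_forall fun z => ENNReal.ofReal_lt_top)]
  apply integral_congr_ae
  filter_upwards with z
  rw [ENNReal.toReal_ofReal (bw_nonneg Ω z), smul_eq_mul]

lemma ae_mu_iff {p : Pt n → Prop} : (∀ᵐ z ∂(mu Ω), p z) ↔ ∀ᵐ z ∂(volume.restrict (epi Ω.fn)), p z := by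
  constructor
  · intro h
    have h1 : (volume.restrict (epi Ω.fn) : Measure (Pt n)) ≪ mu Ω := by
      apply withDensity_absolutelyContinuous'
      · exact meas_rho.aemeasurable
      · filter_upwards with z
        simpa using rho_pos z
    exact h1.ae_le h
  · intro h
    exact (withDensity_absolutelyContinuous _ _).ae_le h

lemma isD_div {φ : Pt n → ℝ} (hφ : ContDiff ℝ 1 φ) (hc : HasCompactSupport φ) :
    IsD (fun z => φ z * (rho z)⁻¹) := by
  have hrho1 : ContDiff ℝ 1 (fun z : Pt n => (rho z)⁻¹) :=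
    (rho_contDiff.of_le (by simp)).inv (fun z => (rho_pos z).ne')
  have hs : ContDiff ℝ 1 (fun z => φ z * (rho z)⁻¹) := hφ.mul hrho1
  have hcs : HasCompactSupport (fun z => φ z * (rho z)⁻¹) := hc.mul_right
  refine ⟨hs, ?_⟩
  obtain ⟨C0, hC0⟩ := hcs.exists_bound_of_continuous hs.continuous
  have hfd : HasCompactSupport (fderiv ℝ (fun z => φ z * (rho z)⁻¹)) := hcs.fderiv ℝ
  obtain ⟨C1, hC1⟩ := hfd.exists_bound_of_continuous (hs.continuous_fderiv (by simp))
  have hC1' : 0 ≤ C1 := (norm_nonneg _).trans (hC1 0)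
  refine ⟨max C0 C1, fun z => ⟨(hC0 z).trans (le_max_left _ _), fun i => ?_⟩⟩
  unfold pd
  have h1 := (fderiv ℝ (fun z => φ z * (rho z)⁻¹) z).le_opNorm (dir i)
  have h2 : ‖(dir i : Pt n)‖ ≤ 1 := by
    cases i with
    | none => simp [dir, Prod.norm_def]
    | some i => simp [dir, Prod.norm_def, Pi.norm_single]
  rw [Real.norm_eq_abs] at h1
  calc _ ≤ ‖fderiv ℝ (fun z => φ z * (rho z)⁻¹) z‖ * ‖(dir i : Pt n)‖ := h1
    _ ≤ C1 * 1 := mul_le_mul (hC1 z) h2 (norm_nonneg _) hC1'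
    _ ≤ _ := by rw [mul_one]; exact le_max_right _ _

lemma pd_div {φ : Pt n → ℝ} (hφ : ContDiff ℝ 1 φ) (i : Option (Fin (n + 1))) (z : Pt n) :
    rho z * (pd (fun z => φ z * (rho z)⁻¹) i z + qq i z * (φ z * (rho z)⁻¹)) = pd φ i z := by
  have hr := (rho_pos z).ne'
  have h1 := (hφ.differentiable (by simp)).differentiableAt (x := z)
  have h2 : DifferentiableAt ℝ (rho : Pt n → ℝ) z :=
    (rho_contDiff.differentiable (by simp)).differentiableAt
  have hφeq : φ = fun z => (φ z * (rho z)⁻¹) * rho z := by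
    funext z
    rw [mul_assoc, inv_mul_cancel₀ (rho_pos z).ne', mul_one]
  have hv : DifferentiableAt ℝ (fun z : Pt n => φ z * (rho z)⁻¹) z := h1.mul (h2.inv hr)
  have h3 : pd φ i z = pd (fun z => (φ z * (rho z)⁻¹) * rho z) i z := by rw [← hφeq]
  rw [h3]
  have h4 : pd (fun z => (φ z * (rho z)⁻¹) * rho z) i z
      = (φ z * (rho z)⁻¹) * pd rho i z + rho z * pd (fun z => φ z * (rho z)⁻¹) i z := by
    unfold pd
    rw [fderiv_fun_mul hv h2]
    simp
  rw [h4, pd_rho]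
  ring

end conv

end Pool.Agent.H314.Robin
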