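import Mathlib
import Pool.Agent.H314.Robin.R8

open MeasureTheory Set Filter Topology
open scoped ENNReal NNReal InnerProductSpace

namespace Pool.Agent.H314.Robin

section weak
variable {n : ℕ} (Ω : Dom n)

lemma inner_coe_toLp {μ : Measure (Pt n)} (g : Lp ℝ 2 μ) {f : Pt n → ℝ} (hf : MemLp f 2 μ) :
    ⟪g, hf.toLp f⟫_ℝ = ∫ z, g z * f z ∂μ := by
  rw [L2.inner_def]
  apply integral_congr_ae
  filter_upwards [hf.coeFn_toLp] with z h2
  rw [h2]
  simp [mul_comm]

lemma integrable_coe_mul {μ : Measure (Pt n)} (g : Lp ℝ 2 μ) {f : Pt n → ℝ} (hf : MemLp f 2 μ) :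
    Integrable (fun z => g z * f z) μ := by
  have := (Lp.memLp g).integrable_mul hf
  exact this

lemma tendsto_comp {μ : Measure (Pt n)} {x : ℕ → LL Ω} {U : LL Ω} (hlim : Tendsto x atTop (𝓝 U))
    (p : LL Ω →L[ℝ] Lp ℝ 2 μ) {w : ℕ → Pt n → ℝ} (hw : ∀ k, p (x k) =ᵐ[μ] w k)
    {g : Pt n → ℝ} (hg : p U =ᵐ[μ] g) :
    Tendsto (fun k => eLpNorm (fun z => w k z - g z) 2 μ) atTop (𝓝 0) := by
  have h1 : Tendsto (fun k => p (x k)) atTop (𝓝 (p U)) := (p.continuous.tendsto U).comp hlim
  rw [Lp.tendsto_Lp_iff_tendsto_eLpNorm'] at h1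
  refine h1.congr fun k => ?_
  apply eLpNorm_congr_ae
  filter_upwards [hw k, hg] with z h1 h2
  simp only [Pi.sub_apply]
  rw [h1, h2]

theorem weak_of_fixed {α K : ℝ} {f F : ℝ → ℝ} (hfc : Continuous f)
    (hF : ∀ s ∈ Icc (0:ℝ) 1, F s = f s + K * s)
    {U : LL Ω} (hU : U ∈ HH Ω)
    (hEq : ∀ v (hv : IsD v), BB Ω α K U (io Ω v hv) = ∫ z, F (pV Ω U z) * v z ∂(mu Ω))
    {P : Pt n → ℝ} (hPc : Continuous P) (hP0 : ∀ z, 0 < P z) (hP1 : ∀ z, P z ≤ 1)
    (hae : ∀ᵐ z ∂(mu Ω), P z ≤ pV Ω U z ∧ pV Ω U z ≤ 1) :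
    ∃ u : Pt n → ℝ, IsPosBddSol f α Ω.fn u ∧
      (∀ᵐ z ∂(volume.restrict (epi Ω.fn)), u z = pV Ω U z) ∧ ∀ z, P z ≤ u z := by
  have hu0m : Measurable (pV Ω U : Pt n → ℝ) := (Lp.stronglyMeasurable _).measurable
  set u : Pt n → ℝ := fun z => min (max (pV Ω U z) (P z)) 1 with hu
  have hum : Measurable u := (hu0m.max hPc.measurable).min measurable_const
  have huP : ∀ z, P z ≤ u z := fun z => le_min (le_max_right _ _) (hP1 z)
  have hu1 : ∀ z, u z ≤ 1 := fun z => min_le_right _ _
  have hueq : ∀ᵐ z ∂(mu Ω), u z = pV Ω U z := by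
    filter_upwards [hae] with z hz
    simp only [hu]
    rw [max_eq_left hz.1, min_eq_left hz.2]
  have hueq' : ∀ᵐ z ∂(volume.restrict (epi Ω.fn)), u z = pV Ω U z := (ae_mu_iff Ω).mp hueq
  refine ⟨u, ⟨fun z _ => ⟨(hP0 z).trans_le (huP z), hu1 z⟩, fun i => pG Ω i U,
    fun x => pT Ω U (x, Ω.fn x), ?_, ?_⟩, hueq', huP⟩
  · -- approximation
    have hTm : Measurable (pT Ω U : Pt n → ℝ) := (Lp.stronglyMeasurable _).measurable
    refine ⟨hum, fun i => (Lp.stronglyMeasurable _).measurable,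
      hTm.comp (graph_cont Ω).measurable, ?_⟩
    obtain ⟨x, hx, hlim⟩ := mem_closure_iff_seq_limit.mp
      (show U ∈ closure ((Dsub Ω : Submodule ℝ (LL Ω)) : Set (LL Ω)) from hU)
    choose v hv hxv using hx
    refine ⟨v, fun k => (hv k).smooth, fun R => ⟨?_, fun i => ?_, ?_⟩⟩
    · apply tendsto_local
      apply tendsto_comp Ω hlim (pV Ω)
      · intro k
        rw [← hxv k, pV_io]
        exact (mV Ω (hv k)).coeFn_toLp
      · exact hueq.mono fun z hz => hz.symm
    · apply tendsto_local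
      apply tendsto_comp Ω hlim (pG Ω i)
      · intro k
        rw [← hxv k, pG_io]
        exact (mG Ω (hv k) i).coeFn_toLp
      · exact Filter.EventuallyEq.rfl
    · apply tendsto_local_bd Ω (fun k => (hv k).smooth.continuous.measurable) hTm
      apply tendsto_comp Ω hlim (pT Ω)
      · intro k
        rw [← hxv k, pT_io]
        exact (mT Ω (hv k)).coeFn_toLp
      · exact Filter.EventuallyEq.rfl
  · intro φ hφ hc
    set v : Pt n → ℝ := fun z => φ z * (rho z)⁻¹ with hv
    have hvD : IsD v := isD_div hφ hc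
    have hmain := hEq v hvD
    rw [BB_apply, pV_io, pT_io, inner_coe_toLp, inner_coe_toLp] at hmain
    have hG : ∀ i, ⟪pG Ω i U, pQ Ω i (io Ω v hvD)⟫_ℝ = ∫ z in epi Ω.fn, pG Ω i U z * pd φ i z := by
      intro i
      rw [pQ_io, inner_coe_toLp, integral_mu]
      apply integral_congr_ae
      filter_upwards with z
      rw [← pd_div hφ i z]
      ring
    have hGint : ∀ i, IntegrableOn (fun z => pG Ω i U z * pd φ i z) (epi Ω.fn) := by
      intro i
      have h1 := integrable_coe_mul (pG Ω i U) (mQ Ω hvD i)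
      rw [integrable_mu_iff] at h1
      refine h1.congr ?_
      filter_upwards with z
      rw [← pd_div hφ i z]
      ring
    have hsum : ∑ i, ⟪pG Ω i U, pQ Ω i (io Ω v hvD)⟫_ℝ
        = ∫ z in epi Ω.fn, ∑ i, pG Ω i U z * pd φ i z := by
      rw [integral_finsetSum _ (fun i _ => hGint i)]
      exact Finset.sum_congr rfl fun i _ => hG i
    have hVal : ∫ z, pV Ω U z * v z ∂(mu Ω) = ∫ z in epi Ω.fn, u z * φ z := by
      rw [integral_mu]
      apply integral_congr_ae
      filter_upwards [hueq'] with z hz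
      simp only [hv]
      rw [← hz]
      have := (rho_pos z).ne'
      field_simp
    have hTr : ∫ z, pT Ω U z * v z ∂(sg Ω)
        = ∫ x, pT Ω U (x, Ω.fn x) * φ (x, Ω.fn x) * surf Ω.fn x := by
      have hme : Measurable (fun z => pT Ω U z * v z) :=
        ((Lp.stronglyMeasurable _).measurable).mul hvD.smooth.continuous.measurable
      rw [integral_sg Ω _ hme]
      apply integral_congr_ae
      filter_upwards with x
      simp only [hv, bw]
      have := (rho_pos ((x, Ω.fn x) : Pt n)).ne'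
      field_simp
    have hR : ∫ z, F (pV Ω U z) * v z ∂(mu Ω)
        = (∫ z in epi Ω.fn, f (u z) * φ z) + K * ∫ z in epi Ω.fn, u z * φ z := by
      rw [integral_mu]
      have hφint : IntegrableOn φ (epi Ω.fn) :=
        (hφ.continuous.integrable_of_hasCompactSupport hc).integrableOn
      obtain ⟨C, hC⟩ := (isCompact_Icc (a := (0:ℝ)) (b := 1)).exists_bound_of_continuousOn
        hfc.continuousOn
      have hint1 : IntegrableOn (fun z => f (u z) * φ z) (epi Ω.fn) := by
        apply Integrable.bdd_mul (c := C) hφint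
        · exact (hfc.measurable.comp hum).aestronglyMeasurable
        · filter_upwards with z
          exact hC _ ⟨((hP0 z).trans_le (huP z)).le, hu1 z⟩
      have hint2 : IntegrableOn (fun z => u z * φ z) (epi Ω.fn) := by
        apply Integrable.bdd_mul (c := 1) hφint
        · exact hum.aestronglyMeasurable
        · filter_upwards with z
          rw [Real.norm_eq_abs, abs_of_pos ((hP0 z).trans_le (huP z))]
          exact hu1 z
      rw [← integral_const_mul, ← integral_add hint1 (hint2.const_mul K)]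
      apply integral_congr_ae
      filter_upwards [hueq'] with z hz
      rw [← hz, hF _ ⟨((hP0 z).trans_le (huP z)).le, hu1 z⟩]
      simp only [hv]
      have := (rho_pos z).ne'
      field_simp
    rw [hsum, hVal, hTr, hR] at hmain
    linarith

end weak

end Pool.Agent.H314.Robin
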