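import Mathlib
import Pool.Agent.H314.Robin.R9

open MeasureTheory Set Filter Topology
open scoped ENNReal NNReal InnerProductSpace

namespace Pool.Agent.H314.Robin

/-- One dimensional profile of the floor: a well of depth H in the flat floor. -/
noncomputable def wellProfile (H L w : ℝ) (x : ℝ) : ℝ := max (-H) (min 0 (L * (|x| - w)))

/-- The floor in d dimensions, depends on the coordinate number 0 only. -/
noncomputable def floorFn {n : ℕ} (H L w : ℝ) (x : Fin (n + 1) → ℝ) : ℝ := wellProfile H L w (x 0)

/-- Slope of the profile. -/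
noncomputable def slope (H L w : ℝ) (x : ℝ) : ℝ :=
  if w - H / L < |x| ∧ |x| < w then (if 0 < x then L else -L) else 0

section floor
variable {n : ℕ} {H L w : ℝ}

lemma wellProfile_lip (hL : 0 < L) : LipschitzWith ⟨L, hL.le⟩ (wellProfile H L w) := by
  apply LipschitzWith.of_dist_le_mul
  intro x y
  rw [Real.dist_eq, Real.dist_eq]
  unfold wellProfile
  show _ ≤ L * |x - y|
  have h1 : |max (-H) (min 0 (L * (|x| - w))) - max (-H) (min 0 (L * (|y| - w)))|
      ≤ |min 0 (L * (|x| - w)) - min 0 (L * (|y| - w))| := by
    have := abs_max_sub_max_le_max (-H) (min 0 (L * (|x| - w))) (-H) (min 0 (L * (|y| - w)))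
    simpa using this
  have h2 : |min 0 (L * (|x| - w)) - min 0 (L * (|y| - w))| ≤ |L * (|x| - w) - L * (|y| - w)| := by
    have := abs_min_sub_min_le_max 0 (L * (|x| - w)) 0 (L * (|y| - w))
    simpa using this
  have h3 : |L * (|x| - w) - L * (|y| - w)| = L * abs (|x| - |y|) := by
    rw [← mul_sub, abs_mul, abs_of_pos hL]
    congr 2
    ring
  have h4 := abs_abs_sub_abs_le x y
  calc _ ≤ _ := h1
    _ ≤ _ := h2
    _ = L * abs (|x| - |y|) := h3
    _ ≤ _ := mul_le_mul_of_nonneg_left h4 hL.le

lemma floorFn_lip (hL : 0 < L) : LipschitzWith ⟨L, hL.le⟩ (floorFn (n := n) H L w) := by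
  have h1 : LipschitzWith 1 (fun x : Fin (n + 1) → ℝ => x 0) := LipschitzWith.eval 0
  have := (wellProfile_lip (H := H) (w := w) hL).comp h1
  refine this.weaken (le_of_eq ?_)
  exact mul_one _

/-- the domain -/
noncomputable def wellDom (n : ℕ) (H L w : ℝ) (hL : 0 < L) : Dom n :=
  ⟨floorFn H L w, ⟨L, hL.le⟩, floorFn_lip hL⟩

lemma wellProfile_hasDerivAt (hH : 0 < H) (hL : 0 < L) (hw : H / L < w) {x : ℝ}
    (h1 : |x| ≠ w) (h2 : |x| ≠ w - H / L) :
    HasDerivAt (wellProfile H L w) (slope H L w x) x := by
  have hHL : L * (H / L) = H := by field_simp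
  have hHLpos : 0 < H / L := by positivity
  rcases lt_trichotomy |x| (w - H / L) with h | h | h
  · have hs : slope H L w x = 0 := by
      unfold slope
      rw [if_neg]
      rintro ⟨h3, _⟩
      linarith
    rw [hs]
    have he : wellProfile H L w =ᶠ[𝓝 x] fun _ => -H := by
      have : ∀ᶠ y in 𝓝 x, |y| < w - H / L := continuous_abs.continuousAt.eventually_lt
        continuousAt_const h
      filter_upwards [this] with y hy
      unfold wellProfile
      have : L * (|y| - w) ≤ -H := by nlinarith
      rw [min_eq_right (by linarith), max_eq_left this]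
    exact (hasDerivAt_const x (-H)).congr_of_eventuallyEq he
  · exact absurd h h2
  · rcases lt_or_gt_of_ne h1 with h3 | h3
    · have hx0 : x ≠ 0 := by
        rintro rfl
        rw [abs_zero] at h
        linarith
      have hs : slope H L w x = if 0 < x then L else -L := by
        unfold slope
        rw [if_pos ⟨h, h3⟩]
      rw [hs]
      have he : wellProfile H L w =ᶠ[𝓝 x] fun y => L * (|y| - w) := by
        have e1 : ∀ᶠ y in 𝓝 x, |y| < w := continuous_abs.continuousAt.eventually_lt
          continuousAt_const h3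
        have e2 : ∀ᶠ y in 𝓝 x, w - H / L < |y| := continuousAt_const.eventually_lt
          continuous_abs.continuousAt h
        filter_upwards [e1, e2] with y hy1 hy2
        unfold wellProfile
        have : -H ≤ L * (|y| - w) := by nlinarith
        rw [min_eq_right (by nlinarith), max_eq_right this]
      apply HasDerivAt.congr_of_eventuallyEq _ he
      split_ifs with h4
      · have := ((hasDerivAt_abs_pos h4).sub_const w).const_mul L
        simpa using this
      · have h5 : x < 0 := lt_of_le_of_ne (not_lt.mp h4) hx0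
        have := ((hasDerivAt_abs_neg h5).sub_const w).const_mul L
        simpa using this
    · have hs : slope H L w x = 0 := by
        unfold slope
        rw [if_neg]
        rintro ⟨_, h4⟩
        linarith
      rw [hs]
      have he : wellProfile H L w =ᶠ[𝓝 x] fun _ => 0 := by
        have : ∀ᶠ y in 𝓝 x, w < |y| := continuousAt_const.eventually_lt
          continuous_abs.continuousAt h3
        filter_upwards [this] with y hy
        unfold wellProfile
        rw [min_eq_left (by nlinarith), max_eq_right (by linarith)]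
      exact (hasDerivAt_const x (0:ℝ)).congr_of_eventuallyEq he

lemma surf_eq (hH : 0 < H) (hL : 0 < L) (hw : H / L < w) :
    ∀ᵐ x : Fin (n + 1) → ℝ, surf (floorFn H L w) x = Real.sqrt (1 + (slope H L w (x 0)) ^ 2) := by
  have h0 : ∀ᵐ t : ℝ, |t| ≠ w ∧ |t| ≠ w - H / L := by
    have hfin : ({w, -w, w - H / L, -(w - H / L)} : Set ℝ).Finite := by simp
    filter_upwards [hfin.countable.ae_notMem volume] with t ht
    simp only [mem_insert_iff, mem_singleton_iff, not_or] at ht
    refine ⟨fun h => ?_, fun h => ?_⟩
    · rcases abs_choice t with h' | h'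
      · exact ht.1 (by linarith)
      · exact ht.2.1 (by linarith)
    · rcases abs_choice t with h' | h'
      · exact ht.2.2.1 (by linarith)
      · exact ht.2.2.2 (by linarith)
  have hq : Measure.QuasiMeasurePreserving (fun x : Fin (n + 1) → ℝ => x 0) volume volume :=
    Measure.quasiMeasurePreserving_eval (μ := fun _ : Fin (n + 1) => (volume : Measure ℝ)) 0
  have h1 := hq.ae h0
  filter_upwards [h1] with x hx
  have hd := wellProfile_hasDerivAt hH hL hw hx.1 hx.2
  have hp : HasFDerivAt (fun x : Fin (n + 1) → ℝ => x 0)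
      (ContinuousLinearMap.proj (R := ℝ) (φ := fun _ : Fin (n + 1) => ℝ) 0) x :=
    (ContinuousLinearMap.proj (R := ℝ) (φ := fun _ : Fin (n + 1) => ℝ) 0).hasFDerivAt
  have hf : HasFDerivAt (floorFn H L w) (slope H L w (x 0) •
      (ContinuousLinearMap.proj (R := ℝ) (φ := fun _ : Fin (n + 1) => ℝ) 0)) x :=
    hd.comp_hasFDerivAt x hp
  unfold surf
  rw [hf.fderiv]
  congr 2
  rw [Finset.sum_eq_single 0]
  · simp
  · intro i _ hi
    simp [Pi.single_eq_of_ne' hi]
  · simp

end floor

end Pool.Agent.H314.Robin
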