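import Mathlib
import Pool.Agent.H314.Robin.R10

open MeasureTheory Set Filter Topology

namespace Pool.Agent.H314.Robin.IBP



theorem ftc_R {f f' : ℝ → ℝ} {s : Set ℝ} (hs : s.Countable) (hc : Continuous f)
    (hd : ∀ x, x ∉ s → HasDerivAt f (f' x) x) (hi : Integrable f')
    (ht : Tendsto f atTop (𝓝 0)) (hb : Tendsto f atBot (𝓝 0)) : ∫ x, f' x = 0 := by
  have h1 : ∀ T : ℝ, 0 ≤ T → ∫ x in (-T)..T, f' x = f T - f (-T) := fun T hT =>
    integral_eq_of_hasDerivAt_off_countable_of_le f f' (by linarith) hs hc.continuousOn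
      (fun x hx => hd x hx.2) hi.intervalIntegrable
  have h2 : Tendsto (fun T : ℝ => ∫ x in (-T)..T, f' x) atTop (𝓝 (∫ x, f' x)) :=
    intervalIntegral_tendsto_integral hi tendsto_neg_atTop_atBot tendsto_id
  have h3 : Tendsto (fun T : ℝ => f T - f (-T)) atTop (𝓝 (0 - 0)) :=
    ht.sub (hb.comp tendsto_neg_atTop_atBot)
  have h4 : Tendsto (fun T : ℝ => ∫ x in (-T)..T, f' x) atTop (𝓝 (0 - 0)) := by
    refine h3.congr' ?_
    filter_upwards [eventually_ge_atTop 0] with T hT using (h1 T hT).symm
  have := tendsto_nhds_unique h2 h4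
  simpa using this

theorem ftc_Ioi {f f' : ℝ → ℝ} {s : Set ℝ} {a : ℝ} (hs : s.Countable) (hc : Continuous f)
    (hd : ∀ x, x ∉ s → HasDerivAt f (f' x) x) (hi : IntegrableOn f' (Ioi a))
    (ht : Tendsto f atTop (𝓝 0)) : ∫ x in Ioi a, f' x = - f a := by
  have h1 : ∀ T : ℝ, a ≤ T → ∫ x in a..T, f' x = f T - f a := fun T hT =>
    integral_eq_of_hasDerivAt_off_countable_of_le f f' hT hs hc.continuousOn
      (fun x hx => hd x hx.2) (by
        rw [intervalIntegrable_iff_integrableOn_Ioc_of_le hT]
        exact hi.mono_set Ioc_subset_Ioi_self)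
  have h2 : Tendsto (fun T : ℝ => ∫ x in a..T, f' x) atTop (𝓝 (∫ x in Ioi a, f' x)) :=
    intervalIntegral_tendsto_integral_Ioi a hi tendsto_id
  have h3 : Tendsto (fun T : ℝ => f T - f a) atTop (𝓝 (0 - f a)) := ht.sub tendsto_const_nhds
  have h4 : Tendsto (fun T : ℝ => ∫ x in a..T, f' x) atTop (𝓝 (0 - f a)) := by
    refine h3.congr' ?_
    filter_upwards [eventually_ge_atTop a] with T hT using (h1 T hT).symm
  have := tendsto_nhds_unique h2 h4
  simpa using this

theorem inv_sq_tendsto_top : Tendsto (fun x : ℝ => (1 + x ^ 2)⁻¹) atTop (𝓝 0) := by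
  refine Tendsto.inv_tendsto_atTop ?_
  exact tendsto_atTop_add_const_left _ _ (tendsto_pow_atTop two_ne_zero)

theorem inv_sq_tendsto_bot : Tendsto (fun x : ℝ => (1 + x ^ 2)⁻¹) atBot (𝓝 0) := by
  have h := inv_sq_tendsto_top.comp tendsto_neg_atBot_atTop
  refine h.congr fun x => ?_
  simp

/-! ### The weight -/

section weight

variable {n : ℕ}

/-- horizontal part of the weight -/
noncomputable def rh (x : Fin (n + 1) → ℝ) : ℝ := ∏ i, (1 + (x i) ^ 2)⁻¹

theorem rho_eq (z : Pt n) : rho z = (1 + z.2 ^ 2)⁻¹ * rh z.1 := rfl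

theorem rh_pos (x : Fin (n + 1) → ℝ) : 0 < rh x := Finset.prod_pos fun i _ => by positivity

theorem rho_pos (z : Pt n) : 0 < rho z := by
  rw [rho_eq]; exact mul_pos (by positivity) (rh_pos _)

theorem inv_le_one (y : ℝ) : (1 + y ^ 2)⁻¹ ≤ 1 := inv_le_one_of_one_le₀ (by nlinarith [sq_nonneg y])

theorem rh_integrable : Integrable (rh (n := n)) := by
  have := Integrable.fintype_prod (𝕜 := ℝ) (ι := Fin (n + 1)) (f := fun _ (t : ℝ) => (1 + t ^ 2)⁻¹)
    (μ := fun _ => (volume : Measure ℝ)) (fun _ => integrable_inv_one_add_sq)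
  exact this

theorem rho_integrable : Integrable (rho (n := n)) := by
  have h := (rh_integrable (n := n)).mul_prod (integrable_inv_one_add_sq)
  refine h.congr (Eventually.of_forall fun z => ?_)
  show rh z.1 * (1 + z.2 ^ 2)⁻¹ = rho z
  rw [rho_eq, mul_comm]

theorem rh_cont : Continuous (rh (n := n)) := by
  unfold rh
  refine continuous_finsetProd _ fun i _ => ?_
  exact Continuous.inv₀ (by fun_prop) fun x => by positivity

end weight

/-! ### The shear -/

section shear

variable {n : ℕ}

/-- shear map -/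
def shear (fl : (Fin (n + 1) → ℝ) → ℝ) (hfl : Continuous fl) : Pt n ≃ₜ Pt n where
  toFun z := (z.1, fl z.1 + z.2)
  invFun z := (z.1, z.2 - fl z.1)
  left_inv z := by ext <;> simp
  right_inv z := by ext <;> simp
  continuous_toFun := by fun_prop
  continuous_invFun := by fun_prop

theorem shear_mp (fl : (Fin (n + 1) → ℝ) → ℝ) (hfl : Continuous fl) :
    MeasurePreserving (shear fl hfl) (volume : Measure (Pt n)) volume := by
  refine MeasurePreserving.skew_product (f := id) (g := fun x t => fl x + t)
    (MeasurePreserving.id _) ?_ ?_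
  · have : Continuous (Function.uncurry fun (x : Fin (n + 1) → ℝ) (t : ℝ) => fl x + t) := by
      unfold Function.uncurry
      fun_prop
    exact this.measurable
  · exact Eventually.of_forall fun x => (measurePreserving_add_left volume (fl x)).map_eq

theorem shear_preimage (fl : (Fin (n + 1) → ℝ) → ℝ) (hfl : Continuous fl) :
    (shear fl hfl) ⁻¹' (epi fl) = (univ : Set (Fin (n + 1) → ℝ)) ×ˢ Ioi (0 : ℝ) := by
  ext z
  simp [shear, epi]

theorem int_epi {fl : (Fin (n + 1) → ℝ) → ℝ} (hfl : Continuous fl) (h : Pt n → ℝ) :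
    ∫ z in epi fl, h z = ∫ z, h (z.1, fl z.1 + z.2)
      ∂((volume : Measure (Fin (n + 1) → ℝ)).prod (volume.restrict (Ioi (0 : ℝ)))) := by
  rw [← (shear_mp fl hfl).setIntegral_preimage_emb (shear fl hfl).measurableEmbedding h (epi fl),
    shear_preimage]
  have : (volume : Measure (Pt n)).restrict ((univ : Set (Fin (n + 1) → ℝ)) ×ˢ Ioi (0 : ℝ)) =
      (volume : Measure (Fin (n + 1) → ℝ)).prod (volume.restrict (Ioi (0 : ℝ))) := by
    rw [Measure.volume_eq_prod, ← Measure.prod_restrict, Measure.restrict_univ]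
  rw [this]
  rfl

theorem integrable_epi {fl : (Fin (n + 1) → ℝ) → ℝ} (hfl : Continuous fl) {h : Pt n → ℝ}
    (hh : IntegrableOn h (epi fl)) :
    Integrable (fun z : Pt n => h (z.1, fl z.1 + z.2))
      ((volume : Measure (Fin (n + 1) → ℝ)).prod (volume.restrict (Ioi (0 : ℝ)))) := by
  have h1 := ((shear_mp fl hfl).integrableOn_comp_preimage
    (shear fl hfl).measurableEmbedding).2 hh
  rw [shear_preimage] at h1
  have : (volume : Measure (Pt n)).restrict ((univ : Set (Fin (n + 1) → ℝ)) ×ˢ Ioi (0 : ℝ)) =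
      (volume : Measure (Fin (n + 1) → ℝ)).prod (volume.restrict (Ioi (0 : ℝ))) := by
    rw [Measure.volume_eq_prod, ← Measure.prod_restrict, Measure.restrict_univ]
  unfold IntegrableOn at h1
  rw [this] at h1
  exact h1

end shear

/-! ### The profile -/

section profile

theorem wellProfile_cont (H L w : ℝ) : Continuous (wellProfile H L w) := by
  unfold wellProfile; fun_prop

theorem floorFn_cont {n : ℕ} (H L w : ℝ) : Continuous (floorFn (n := n) H L w) :=
  (wellProfile_cont H L w).comp (continuous_apply 0)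

theorem wellProfile_deriv {H L w : ℝ} (hH : 0 < H) (hL : 0 < L) (hw : H / L < w) (x : ℝ)
    (hx : x ∉ ({w, -w, w - H / L, -(w - H / L)} : Set ℝ)) :
    HasDerivAt (wellProfile H L w) (slope H L w x) x := by
  simp only [mem_insert_iff, mem_singleton_iff, not_or] at hx
  obtain ⟨h1, h2, h3, h4⟩ := hx
  have hHL : 0 < H / L := by positivity
  have habs1 : |x| ≠ w := by
    intro h
    rcases abs_choice x with h5 | h5
    · exact h1 (by rw [← h5, h])
    · exact h2 (by rw [← h, h5]; ring)
  have habs2 : |x| ≠ w - H / L := by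
    intro h
    rcases abs_choice x with h5 | h5
    · exact h3 (by rw [← h5, h])
    · exact h4 (by rw [← h, h5]; ring)
  have hLH : L * (H / L) = H := by field_simp
  rcases lt_or_gt_of_ne habs1 with h5 | h5
  · rcases lt_or_gt_of_ne habs2 with h6 | h6
    · -- bottom
      have hs : slope H L w x = 0 := by
        unfold slope; rw [if_neg]; rintro ⟨h7, -⟩; linarith
      rw [hs]
      refine (hasDerivAt_const x (-H)).congr_of_eventuallyEq ?_
      have : ∀ᶠ y in 𝓝 x, |y| < w - H / L :=
        (continuous_abs.tendsto x).eventually_lt_const h6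
      filter_upwards [this] with y hy
      unfold wellProfile
      refine max_eq_left ?_
      refine (min_le_right _ _).trans ?_
      have : L * (|y| - w) ≤ L * (-(H / L)) := mul_le_mul_of_nonneg_left (by linarith) hL.le
      linarith [mul_neg L (H / L)]
    · -- slope
      have hpos : 0 < |x| := by linarith
      have hx0 : x ≠ 0 := abs_pos.1 hpos
      have hev : ∀ᶠ y in 𝓝 x, w - H / L < |y| ∧ |y| < w :=
        ((continuous_abs.tendsto x).eventually_const_lt h6).and
          ((continuous_abs.tendsto x).eventually_lt_const h5)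
      have heq : ∀ y, w - H / L < |y| ∧ |y| < w → wellProfile H L w y = L * (|y| - w) := by
        rintro y ⟨hy1, hy2⟩
        unfold wellProfile
        have h7 : L * (|y| - w) < 0 := mul_neg_of_pos_of_neg hL (by linarith)
        have h8 : L * (-(H / L)) ≤ L * (|y| - w) := mul_le_mul_of_nonneg_left (by linarith) hL.le
        rw [min_eq_right h7.le, max_eq_right]
        linarith [mul_neg L (H / L)]
      rcases lt_or_gt_of_ne hx0 with h7 | h7
      · have hs : slope H L w x = -L := by
          unfold slope; rw [if_pos ⟨h6, h5⟩, if_neg (by linarith)]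
        rw [hs]
        have h8 : HasDerivAt (fun y : ℝ => L * (-y - w)) (-L) x := by
          have := (((hasDerivAt_id x).neg).sub_const w).const_mul L
          simpa using this
        refine h8.congr_of_eventuallyEq ?_
        filter_upwards [hev, eventually_lt_nhds h7] with y hy hy0
        rw [heq y hy, abs_of_neg hy0]
      · have hs : slope H L w x = L := by
          unfold slope; rw [if_pos ⟨h6, h5⟩, if_pos h7]
        rw [hs]
        have h8 : HasDerivAt (fun y : ℝ => L * (y - w)) L x := by
          have := ((hasDerivAt_id x).sub_const w).const_mul L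
          simpa using this
        refine h8.congr_of_eventuallyEq ?_
        filter_upwards [hev, eventually_gt_nhds h7] with y hy hy0
        rw [heq y hy, abs_of_pos hy0]
  · have hs : slope H L w x = 0 := by
      unfold slope; rw [if_neg]; rintro ⟨-, h7⟩; linarith
    rw [hs]
    refine (hasDerivAt_const x (0 : ℝ)).congr_of_eventuallyEq ?_
    have : ∀ᶠ y in 𝓝 x, w < |y| := (continuous_abs.tendsto x).eventually_const_lt h5
    filter_upwards [this] with y hy
    unfold wellProfile
    have h7 : 0 ≤ L * (|y| - w) := mul_nonneg hL.le (by linarith)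
    rw [min_eq_left h7, max_eq_right (by linarith)]

theorem slope_meas (H L w : ℝ) : Measurable (slope H L w) := by
  unfold slope
  refine Measurable.ite ?_ (Measurable.ite measurableSet_Ioi measurable_const measurable_const)
    measurable_const
  exact ((isOpen_lt continuous_const continuous_abs).inter
    (isOpen_lt continuous_abs continuous_const)).measurableSet

theorem slope_bound (H : ℝ) {L : ℝ} (hL : 0 < L) (w x : ℝ) : |slope H L w x| ≤ L := by
  unfold slope
  split_ifs
  · rw [abs_of_pos hL]
  · rw [abs_neg, abs_of_pos hL]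
  · rw [abs_zero]; exact hL.le

end profile



section main

variable {n : ℕ} {φ : Pt n → ℝ}

theorem pd_cont (hφ : ContDiff ℝ 1 φ) (i : Option (Fin (n + 1))) : Continuous (pd φ i) := by
  unfold pd
  exact (hφ.continuous_fderiv one_ne_zero).clm_apply continuous_const

theorem deriv_curve (hφ : ContDiff ℝ 1 φ) {z' : Fin n → ℝ} {y : ℝ → ℝ} {y' s : ℝ}
    (hy : HasDerivAt y y' s) :
    HasDerivAt (fun s => φ ((Fin.cons s z' : Fin (n + 1) → ℝ), y s))
      (pd φ (some 0) ((Fin.cons s z' : Fin (n + 1) → ℝ), y s) +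
        y' * pd φ none ((Fin.cons s z' : Fin (n + 1) → ℝ), y s)) s := by
  have hc1 : HasDerivAt (fun s : ℝ => (Fin.cons s z' : Fin (n + 1) → ℝ)) (Pi.single 0 1) s := by
    rw [hasDerivAt_pi]
    intro i
    refine Fin.cases ?_ (fun j => ?_) i
    · have h : (Pi.single (0 : Fin (n + 1)) (1 : ℝ) : Fin (n + 1) → ℝ) 0 = 1 :=
        Pi.single_eq_same 0 1
      rw [h]
      exact hasDerivAt_id' s
    · have h : (Pi.single (0 : Fin (n + 1)) (1 : ℝ) : Fin (n + 1) → ℝ) j.succ = 0 :=
        Pi.single_eq_of_ne (Fin.succ_ne_zero j) 1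
      rw [h]
      simpa using hasDerivAt_const s (z' j)
  have hc := hc1.prodMk hy
  have h1 := ((hφ.differentiable one_ne_zero)
    ((Fin.cons s z' : Fin (n + 1) → ℝ), y s)).hasFDerivAt.comp_hasDerivAt s hc
  have h2 : ((Pi.single 0 1, y') : Pt n) = dir (some 0) + y' • dir none := by
    simp [dir]
  rw [h2, map_add, map_smul, smul_eq_mul] at h1
  exact h1

theorem deriv_y (hφ : ContDiff ℝ 1 φ) (x : Fin (n + 1) → ℝ) (y : ℝ) :
    HasDerivAt (fun y => φ (x, y)) (pd φ none (x, y)) y := by
  have hc := (hasDerivAt_const y x).prodMk (hasDerivAt_id y)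
  exact ((hφ.differentiable one_ne_zero) (x, y)).hasFDerivAt.comp_hasDerivAt y hc

theorem integrable_of_rho {h : Pt n → ℝ} (hm : Measurable h) {C : ℝ}
    (hb : ∀ z, |h z| ≤ C * rho z) : Integrable h :=
  (rho_integrable.const_mul C).mono' hm.aestronglyMeasurable
    (Eventually.of_forall fun z => hb z)

theorem rho_le_y (z : Pt n) : rho z ≤ (1 + z.2 ^ 2)⁻¹ := by
  rw [rho_eq]
  have : rh z.1 ≤ 1 := by
    unfold rh
    exact Finset.prod_le_one (fun i _ => by positivity) fun i _ => inv_le_one _
  have h2 : 0 < (1 + z.2 ^ 2)⁻¹ := by positivity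
  nlinarith

theorem rho_le_rh (z : Pt n) : rho z ≤ rh z.1 := by
  rw [rho_eq]
  have := rh_pos z.1
  have h2 := inv_le_one z.2
  nlinarith

theorem rh_cons (s : ℝ) (z' : Fin n → ℝ) : rh (Fin.cons s z' : Fin (n + 1) → ℝ) ≤
    (1 + s ^ 2)⁻¹ := by
  unfold rh
  rw [Fin.prod_univ_succ]
  simp only [Fin.cons_zero, Fin.cons_succ]
  have h1 : ∏ i : Fin n, (1 + (z' i) ^ 2)⁻¹ ≤ 1 :=
    Finset.prod_le_one (fun i _ => by positivity) fun i _ => inv_le_one _
  have h2 : 0 < (1 + s ^ 2)⁻¹ := by positivity
  nlinarith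

theorem abs3 {a b c M r : ℝ} (ha : |a| ≤ M) (hb : |b| ≤ M) (hc : |c| ≤ M * r) :
    |a * b * c| ≤ M ^ 3 * r := by
  have hM : 0 ≤ M := (abs_nonneg a).trans ha
  rw [abs_mul, abs_mul]
  calc |a| * |b| * |c| ≤ M * M * (M * r) := by
        gcongr
    _ = M ^ 3 * r := by ring

variable {H L w M : ℝ} {V V1 V2 b b1 b2 : ℝ → ℝ}

/-- vertical integration by parts -/
theorem step1 (V1 V2 b : ℝ → ℝ) (hV1c : Continuous V1)
    (hV1 : ∀ y, y ≠ 0 → HasDerivAt V1 (V2 y) y) (hV2m : Measurable V2)
    (hVb : ∀ y, |V1 y| ≤ M ∧ |V2 y| ≤ M) (hb : Continuous b)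
    (hbb : ∀ x, |b x| ≤ M) (hφ : ContDiff ℝ 1 φ)
    (hφb : ∀ z, |φ z| ≤ M * rho z ∧ ∀ i, |pd φ i z| ≤ M * rho z)
    {fl : (Fin (n + 1) → ℝ) → ℝ} (hfl : Continuous fl) :
    ∫ z in epi fl, (V1 z.2 * b (z.1 0) * pd φ none z + V2 z.2 * b (z.1 0) * φ z) =
      - ∫ x : Fin (n + 1) → ℝ, V1 (fl x) * b (x 0) * φ (x, fl x) := by
  set h : Pt n → ℝ := fun z => V1 z.2 * b (z.1 0) * pd φ none z + V2 z.2 * b (z.1 0) * φ z with hh
  have hpd := pd_cont hφ none
  have hφc := hφ.continuous
  have hm : Measurable h := by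
    have h1 : Measurable fun z : Pt n => V1 z.2 * b (z.1 0) * pd φ none z := by
      refine Continuous.measurable ?_
      exact ((hV1c.comp continuous_snd).mul
        (hb.comp ((continuous_apply 0).comp continuous_fst))).mul hpd
    have h2 : Measurable fun z : Pt n => V2 z.2 * b (z.1 0) * φ z :=
      ((hV2m.comp measurable_snd).mul
        (hb.comp ((continuous_apply 0).comp continuous_fst)).measurable).mul hφc.measurable
    exact h1.add h2
  have hbound : ∀ z, |h z| ≤ (2 * M ^ 3) * rho z := by
    intro z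
    have h1 := abs3 (hVb z.2).1 (hbb (z.1 0)) ((hφb z).2 none)
    have h2 := abs3 (hVb z.2).2 (hbb (z.1 0)) (hφb z).1
    calc |h z| ≤ _ := abs_add_le _ _
      _ ≤ M ^ 3 * rho z + M ^ 3 * rho z := add_le_add h1 h2
      _ = _ := by ring
  have hint : Integrable h := integrable_of_rho hm hbound
  rw [int_epi hfl, integral_prod _ (integrable_epi hfl hint.integrableOn), ← integral_neg]
  refine integral_congr_ae (Eventually.of_forall fun x => ?_)
  show ∫ t in Ioi (0 : ℝ), h (x, fl x + t) = - (V1 (fl x) * b (x 0) * φ (x, fl x))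
  have hkey := ftc_Ioi (f := fun t => V1 (fl x + t) * b (x 0) * φ (x, fl x + t))
    (f' := fun t => h (x, fl x + t)) (s := {-fl x}) (a := 0) (countable_singleton _) ?_ ?_ ?_ ?_
  · rw [hkey, add_zero]
  · exact ((hV1c.comp (continuous_const.add continuous_id)).mul continuous_const).mul
      (hφc.comp (continuous_const.prodMk (continuous_const.add continuous_id)))
  · intro t ht
    have hne : fl x + t ≠ 0 := fun h0 => ht (by rw [mem_singleton_iff]; linarith)
    have hadd : HasDerivAt (fun t => fl x + t) 1 t := by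
      simpa using (hasDerivAt_id t).const_add (fl x)
    have e1 : HasDerivAt (fun t => V1 (fl x + t)) (V2 (fl x + t)) t := by
      have := (hV1 _ hne).comp t hadd
      simpa using! this
    have e2 : HasDerivAt (fun t => φ (x, fl x + t)) (pd φ none (x, fl x + t)) t := by
      have := (deriv_y hφ x (fl x + t)).comp t hadd
      simpa using! this
    have e3 := (e1.mul_const (b (x 0))).mul e2
    have e4 : V2 (fl x + t) * b (x 0) * φ (x, fl x + t) +
        V1 (fl x + t) * b (x 0) * pd φ none (x, fl x + t) = h (x, fl x + t) := by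
      rw [hh]; ring
    rw [e4] at e3
    exact e3
  · refine Integrable.integrableOn ?_
    have hI : Integrable fun t : ℝ => (2 * M ^ 3) * (1 + (fl x + t) ^ 2)⁻¹ := by
      have := (integrable_inv_one_add_sq.comp_add_left (fl x)).const_mul (2 * M ^ 3)
      exact this
    refine hI.mono' ?_ (Eventually.of_forall fun t => ?_)
    · refine (hm.comp ?_).aestronglyMeasurable
      exact (measurable_const.prodMk (measurable_const.add measurable_id))
    · have hM : 0 ≤ M := (abs_nonneg _).trans (hbb 0)
      refine (hbound _).trans ?_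
      have := rho_le_y (n := n) (x, fl x + t)
      exact mul_le_mul_of_nonneg_left this (by positivity)
  · have hM : 0 ≤ M := (abs_nonneg _).trans (hbb 0)
    have hlim : Tendsto (fun t : ℝ => M ^ 3 * (1 + (fl x + t) ^ 2)⁻¹) atTop (𝓝 (M ^ 3 * 0)) := by
      refine Tendsto.const_mul _ (inv_sq_tendsto_top.comp ?_)
      exact tendsto_atTop_add_const_left _ _ tendsto_id
    rw [mul_zero] at hlim
    refine squeeze_zero_norm (fun t => ?_) hlim
    have h1 := abs3 (hVb (fl x + t)).1 (hbb (x 0)) (hφb (x, fl x + t)).1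
    refine h1.trans ?_
    exact mul_le_mul_of_nonneg_left (rho_le_y _) (by positivity)

/-- horizontal integration by parts -/
theorem step2 (hH : 0 < H) (hL : 0 < L) (hw : H / L < w)
    (V V1 b1 b2 : ℝ → ℝ)
    (hV : ∀ y, HasDerivAt V (V1 y) y) (hV1c : Continuous V1)
    (hVb : ∀ y, |V y| ≤ M ∧ |V1 y| ≤ M)
    (hb1 : ∀ x, HasDerivAt b1 (b2 x) x) (hb2c : Continuous b2)
    (hbb : ∀ x, |b1 x| ≤ M ∧ |b2 x| ≤ M) (hφ : ContDiff ℝ 1 φ)
    (hφb : ∀ z, |φ z| ≤ M * rho z ∧ ∀ i, |pd φ i z| ≤ M * rho z) :
    ∫ z in epi (floorFn (n := n) H L w), (V z.2 * b1 (z.1 0) * pd φ (some 0) z +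
        V z.2 * b2 (z.1 0) * φ z) =
      ∫ x : Fin (n + 1) → ℝ, slope H L w (x 0) * (V (floorFn H L w x) * b1 (x 0) *
        φ (x, floorFn H L w x)) := by
  have hM : 0 ≤ M := (abs_nonneg _).trans (hbb 0).1
  have hfl := floorFn_cont (n := n) H L w
  have hVc : Continuous V := continuous_iff_continuousAt.2 fun y => (hV y).continuousAt
  have hb1c : Continuous b1 := continuous_iff_continuousAt.2 fun y => (hb1 y).continuousAt
  have hpd := pd_cont hφ none
  have hpd0 := pd_cont hφ (some 0)
  have hφc := hφ.continuous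
  have hx0 : Continuous fun z : Pt n => z.1 0 := (continuous_apply 0).comp continuous_fst
  set BQ : Pt n → ℝ := fun z => V z.2 * b1 (z.1 0) * pd φ (some 0) z +
        V z.2 * b2 (z.1 0) * φ z with hBQ
  set Wf : Pt n → ℝ := fun z => V1 z.2 * b1 (z.1 0) * φ z + V z.2 * b1 (z.1 0) * pd φ none z
    with hWf
  set W : Pt n → ℝ := fun z => slope H L w (z.1 0) * Wf z with hW
  set D : Pt n → ℝ := fun z => BQ z + W z with hD
  have hBQc : Continuous BQ := by
    refine Continuous.add ?_ ?_
    · exact ((hVc.comp continuous_snd).mul (hb1c.comp hx0)).mul hpd0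
    · exact ((hVc.comp continuous_snd).mul (hb2c.comp hx0)).mul hφc
  have hWfc : Continuous Wf := by
    refine Continuous.add ?_ ?_
    · exact ((hV1c.comp continuous_snd).mul (hb1c.comp hx0)).mul hφc
    · exact ((hVc.comp continuous_snd).mul (hb1c.comp hx0)).mul hpd
  have hWm : Measurable W := ((slope_meas H L w).comp hx0.measurable).mul hWfc.measurable
  have hDm : Measurable D := hBQc.measurable.add hWm
  have hBQb : ∀ z, |BQ z| ≤ (2 * M ^ 3) * rho z := by
    intro z
    have h1 := abs3 (hVb z.2).1 (hbb (z.1 0)).1 ((hφb z).2 (some 0))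
    have h2 := abs3 (hVb z.2).1 (hbb (z.1 0)).2 (hφb z).1
    calc |BQ z| ≤ _ := abs_add_le _ _
      _ ≤ M ^ 3 * rho z + M ^ 3 * rho z := add_le_add h1 h2
      _ = _ := by ring
  have hWfb : ∀ z, |Wf z| ≤ (2 * M ^ 3) * rho z := by
    intro z
    have h1 := abs3 (hVb z.2).2 (hbb (z.1 0)).1 (hφb z).1
    have h2 := abs3 (hVb z.2).1 (hbb (z.1 0)).1 ((hφb z).2 none)
    calc |Wf z| ≤ _ := abs_add_le _ _
      _ ≤ M ^ 3 * rho z + M ^ 3 * rho z := add_le_add h1 h2
      _ = _ := by ring
  have hWb : ∀ z, |W z| ≤ (L * (2 * M ^ 3)) * rho z := by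
    intro z
    rw [hW]
    simp only
    rw [abs_mul]
    have h1 := slope_bound H hL w (z.1 0)
    have h2 := hWfb z
    calc |slope H L w (z.1 0)| * |Wf z| ≤ L * ((2 * M ^ 3) * rho z) :=
          mul_le_mul h1 h2 (abs_nonneg _) hL.le
      _ = _ := by ring
  set C : ℝ := 2 * M ^ 3 + L * (2 * M ^ 3) with hC
  have hC0 : 0 ≤ C := by positivity
  have hDb : ∀ z, |D z| ≤ C * rho z := by
    intro z
    calc |D z| ≤ |BQ z| + |W z| := abs_add_le _ _
      _ ≤ _ := add_le_add (hBQb z) (hWb z)
      _ = _ := by rw [hC]; ring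
  have hDint : Integrable D := integrable_of_rho hDm hDb
  have hWint : Integrable W := integrable_of_rho hWm hWb
  have hBQint : Integrable BQ := integrable_of_rho hBQc.measurable hBQb
  have e1 : ∫ z in epi (floorFn (n := n) H L w), BQ z =
      (∫ z in epi (floorFn (n := n) H L w), D z) -
        ∫ z in epi (floorFn (n := n) H L w), W z := by
    rw [← integral_sub hDint.integrableOn hWint.integrableOn]
    refine integral_congr_ae (Eventually.of_forall fun z => ?_)
    show BQ z = D z - W z
    rw [hD]; ring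
  -- the integral of D vanishes
  have eD : ∫ z in epi (floorFn (n := n) H L w), D z = 0 := by
    rw [int_epi hfl, integral_prod_symm _ (integrable_epi hfl hDint.integrableOn)]
    have hz : ∀ t : ℝ, ∫ x : Fin (n + 1) → ℝ, D (x, floorFn H L w x + t) = 0 := by
      intro t
      set g : (Fin (n + 1) → ℝ) → ℝ := fun x => D (x, floorFn H L w x + t) with hg
      have hgm : Measurable g :=
        hDm.comp (measurable_id.prodMk (hfl.measurable.add measurable_const))
      have hgb : ∀ x, |g x| ≤ C * rh x := by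
        intro x
        exact (hDb _).trans (mul_le_mul_of_nonneg_left (rho_le_rh _) hC0)
      have hgi : Integrable g := (rh_integrable.const_mul C).mono' hgm.aestronglyMeasurable
        (Eventually.of_forall hgb)
      have hmp := (volume_preserving_piFinSuccAbove (fun _ : Fin (n + 1) => ℝ) 0).symm
      have h1 : ∫ x, g x = ∫ p : ℝ × (Fin n → ℝ),
          g ((MeasurableEquiv.piFinSuccAbove (fun _ : Fin (n + 1) => ℝ) 0).symm p) :=
        (hmp.integral_comp' g).symm
      have hcons : ∀ p : ℝ × (Fin n → ℝ),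
          (MeasurableEquiv.piFinSuccAbove (fun _ : Fin (n + 1) => ℝ) 0).symm p =
            (Fin.cons p.1 p.2 : Fin (n + 1) → ℝ) := by
        intro p
        exact Fin.insertNth_zero' p.1 p.2
      have h2 : Integrable fun p : ℝ × (Fin n → ℝ) =>
          g ((MeasurableEquiv.piFinSuccAbove (fun _ : Fin (n + 1) => ℝ) 0).symm p) :=
        (hmp.integrable_comp_emb
          (MeasurableEquiv.piFinSuccAbove (fun _ : Fin (n + 1) => ℝ) 0).symm.measurableEmbedding).2
          hgi
      rw [h1]
      simp only [hcons] at h2 ⊢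
      rw [Measure.volume_eq_prod] at h2 ⊢
      rw [integral_prod_symm _ h2]
      refine (integral_congr_ae (g := fun _ => (0 : ℝ)) (Eventually.of_forall fun z' => ?_)).trans
        (by simp)
      show ∫ s : ℝ, g (Fin.cons s z') = 0
      have hprof := wellProfile_cont H L w
      have hconsc : Continuous fun s : ℝ => (Fin.cons s z' : Fin (n + 1) → ℝ) := by
        refine continuous_pi fun i => ?_
        refine Fin.cases ?_ (fun j => ?_) i
        · exact continuous_id
        · simpa using continuous_const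
      have hfc : ∀ s : ℝ, floorFn H L w (Fin.cons s z' : Fin (n + 1) → ℝ) =
          wellProfile H L w s := fun s => rfl
      refine ftc_R (f := fun s => V (wellProfile H L w s + t) * b1 s *
          φ ((Fin.cons s z' : Fin (n + 1) → ℝ), wellProfile H L w s + t))
        (s := ({w, -w, w - H / L, -(w - H / L)} : Set ℝ)) ?_ ?_ ?_ ?_ ?_ ?_
      · exact (Set.toFinite _).countable
      · exact ((hVc.comp (hprof.add continuous_const)).mul hb1c).mul
          (hφc.comp (hconsc.prodMk (hprof.add continuous_const)))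
      · intro s hs
        have d0 : HasDerivAt (fun s => wellProfile H L w s + t) (slope H L w s) s :=
          (wellProfile_deriv hH hL hw s hs).add_const t
        have d1 : HasDerivAt (fun s => V (wellProfile H L w s + t))
            (V1 (wellProfile H L w s + t) * slope H L w s) s :=
          HasDerivAt.comp s (hV (wellProfile H L w s + t)) d0
        have d2 := (d1.mul (hb1 s)).mul (deriv_curve hφ (z' := z') d0)
        have e4 : (V1 (wellProfile H L w s + t) * slope H L w s * b1 s +
            V (wellProfile H L w s + t) * b2 s) *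
            φ ((Fin.cons s z' : Fin (n + 1) → ℝ), wellProfile H L w s + t) +
            V (wellProfile H L w s + t) * b1 s *
            (pd φ (some 0) ((Fin.cons s z' : Fin (n + 1) → ℝ), wellProfile H L w s + t) +
              slope H L w s *
              pd φ none ((Fin.cons s z' : Fin (n + 1) → ℝ), wellProfile H L w s + t)) =
            g (Fin.cons s z') := by
          rw [hg, hD, hBQ, hW, hWf]
          simp only [hfc, Fin.cons_zero]
          ring
        rw [← e4]
        exact d2
      · have hI : Integrable fun s : ℝ => C * (1 + s ^ 2)⁻¹ :=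
          integrable_inv_one_add_sq.const_mul C
        refine hI.mono' (hgm.comp hconsc.measurable).aestronglyMeasurable
          (Eventually.of_forall fun s => ?_)
        exact (hgb _).trans (mul_le_mul_of_nonneg_left (rh_cons s z') hC0)
      · have hlim : Tendsto (fun s : ℝ => M ^ 3 * (1 + s ^ 2)⁻¹) atTop (𝓝 (M ^ 3 * 0)) :=
          inv_sq_tendsto_top.const_mul _
        rw [mul_zero] at hlim
        refine squeeze_zero_norm (fun s => ?_) hlim
        refine (abs3 (hVb _).1 (hbb s).1 (hφb _).1).trans ?_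
        exact mul_le_mul_of_nonneg_left ((rho_le_rh _).trans (rh_cons s z')) (by positivity)
      · have hlim : Tendsto (fun s : ℝ => M ^ 3 * (1 + s ^ 2)⁻¹) atBot (𝓝 (M ^ 3 * 0)) :=
          inv_sq_tendsto_bot.const_mul _
        rw [mul_zero] at hlim
        refine squeeze_zero_norm (fun s => ?_) hlim
        refine (abs3 (hVb _).1 (hbb s).1 (hφb _).1).trans ?_
        exact mul_le_mul_of_nonneg_left ((rho_le_rh _).trans (rh_cons s z')) (by positivity)
    refine (integral_congr_ae (g := fun _ => (0 : ℝ)) (Eventually.of_forall fun t => ?_)).trans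
      (by simp)
    exact hz t
  -- the integral of W
  have eW : ∫ z in epi (floorFn (n := n) H L w), W z = - ∫ x : Fin (n + 1) → ℝ,
      slope H L w (x 0) * (V (floorFn H L w x) * b1 (x 0) * φ (x, floorFn H L w x)) := by
    rw [int_epi hfl, integral_prod _ (integrable_epi hfl hWint.integrableOn), ← integral_neg]
    refine integral_congr_ae (Eventually.of_forall fun x => ?_)
    show ∫ t in Ioi (0 : ℝ), W (x, floorFn H L w x + t) = _
    set y0 := floorFn H L w x with hy0
    have h1 : ∫ t in Ioi (0 : ℝ), W (x, y0 + t) = slope H L w (x 0) *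
        ∫ t in Ioi (0 : ℝ), Wf (x, y0 + t) := by
      rw [← integral_const_mul]
    rw [h1]
    have h2 : ∫ t in Ioi (0 : ℝ), Wf (x, y0 + t) = - (V y0 * b1 (x 0) * φ (x, y0)) := by
      have hkey := ftc_Ioi (f := fun t => V (y0 + t) * b1 (x 0) * φ (x, y0 + t))
        (f' := fun t => Wf (x, y0 + t)) (s := ∅) (a := 0) countable_empty ?_ ?_ ?_ ?_
      · rw [hkey, add_zero]
      · exact ((hVc.comp (continuous_const.add continuous_id)).mul continuous_const).mul
          (hφc.comp (continuous_const.prodMk (continuous_const.add continuous_id)))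
      · intro t _
        have hadd : HasDerivAt (fun t => y0 + t) 1 t := by
          simpa using (hasDerivAt_id t).const_add y0
        have e1 : HasDerivAt (fun t => V (y0 + t)) (V1 (y0 + t)) t := by
          have := (hV (y0 + t)).comp t hadd
          simpa using! this
        have e2 : HasDerivAt (fun t => φ (x, y0 + t)) (pd φ none (x, y0 + t)) t := by
          have := (deriv_y hφ x (y0 + t)).comp t hadd
          simpa using! this
        have e3 := (e1.mul_const (b1 (x 0))).mul e2
        exact e3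
      · refine Integrable.integrableOn ?_
        have hI : Integrable fun t : ℝ => (2 * M ^ 3) * (1 + (y0 + t) ^ 2)⁻¹ :=
          (integrable_inv_one_add_sq.comp_add_left y0).const_mul (2 * M ^ 3)
        refine hI.mono' ?_ (Eventually.of_forall fun t => ?_)
        · refine (hWfc.comp ?_).aestronglyMeasurable
          exact (continuous_const.prodMk (continuous_const.add continuous_id))
        · refine (hWfb _).trans ?_
          have := rho_le_y (n := n) (x, y0 + t)
          exact mul_le_mul_of_nonneg_left this (by positivity)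
      · have hlim : Tendsto (fun t : ℝ => M ^ 3 * (1 + (y0 + t) ^ 2)⁻¹) atTop
            (𝓝 (M ^ 3 * 0)) := by
          refine Tendsto.const_mul _ (inv_sq_tendsto_top.comp ?_)
          exact tendsto_atTop_add_const_left _ _ tendsto_id
        rw [mul_zero] at hlim
        refine squeeze_zero_norm (fun t => ?_) hlim
        have h1 := abs3 (hVb (y0 + t)).1 (hbb (x 0)).1 (hφb (x, y0 + t)).1
        refine h1.trans ?_
        exact mul_le_mul_of_nonneg_left (rho_le_y _) (by positivity)
    rw [h2]
    ring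
  rw [e1, eD, eW, zero_sub, neg_neg]

end main

/-- Integration by parts on the epigraph of the well. -/
theorem ibp_well {n : ℕ} {H L w M : ℝ} (hH : 0 < H) (hL : 0 < L) (hw : H / L < w)
    (V V1 V2 b b1 b2 : ℝ → ℝ)
    (hV : ∀ y, HasDerivAt V (V1 y) y) (hV1c : Continuous V1)
    (hV1 : ∀ y, y ≠ 0 → HasDerivAt V1 (V2 y) y) (hV2m : Measurable V2)
    (hVb : ∀ y, |V y| ≤ M ∧ |V1 y| ≤ M ∧ |V2 y| ≤ M)
    (hb : ∀ x, HasDerivAt b (b1 x) x) (hb1 : ∀ x, HasDerivAt b1 (b2 x) x) (hb2c : Continuous b2)
    (hbb : ∀ x, |b x| ≤ M ∧ |b1 x| ≤ M ∧ |b2 x| ≤ M)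
    (φ : Pt n → ℝ) (hφ : ContDiff ℝ 1 φ)
    (hφb : ∀ z, |φ z| ≤ M * rho z ∧ ∀ i, |pd φ i z| ≤ M * rho z) :
    ∫ z in epi (floorFn (n := n) H L w),
        (V1 z.2 * b (z.1 0) * pd φ none z + V z.2 * b1 (z.1 0) * pd φ (some 0) z)
      = - (∫ z in epi (floorFn (n := n) H L w), (V2 z.2 * b (z.1 0) + V z.2 * b2 (z.1 0)) * φ z)
        + ∫ x : Fin (n + 1) → ℝ,
            (slope H L w (x 0) * V (floorFn H L w x) * b1 (x 0)
              - V1 (floorFn H L w x) * b (x 0)) * φ (x, floorFn H L w x) := by
  have hM : 0 ≤ M := (abs_nonneg _).trans (hbb 0).1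
  have hfl := floorFn_cont (n := n) H L w
  have hVc : Continuous V := continuous_iff_continuousAt.2 fun y => (hV y).continuousAt
  have hbc : Continuous b := continuous_iff_continuousAt.2 fun y => (hb y).continuousAt
  have hb1c : Continuous b1 := continuous_iff_continuousAt.2 fun y => (hb1 y).continuousAt
  have hpd := pd_cont hφ none
  have hpd0 := pd_cont hφ (some 0)
  have hφc := hφ.continuous
  have hx0 : Continuous fun z : Pt n => z.1 0 := (continuous_apply 0).comp continuous_fst
  have s1 := step1 (M := M) V1 V2 b hV1c hV1 hV2m (fun y => (hVb y).2) hbc (fun x => (hbb x).1)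
    hφ hφb hfl
  have s2 := step2 (M := M) hH hL hw V V1 b1 b2 hV hV1c (fun y => ⟨(hVb y).1, (hVb y).2.1⟩) hb1
    hb2c (fun x => (hbb x).2) hφ hφb
  set E := epi (floorFn (n := n) H L w) with hE
  -- integrability
  have iA : Integrable (fun z : Pt n => V1 z.2 * b (z.1 0) * pd φ none z) :=
    integrable_of_rho (C := M ^ 3)
      ((((hV1c.comp continuous_snd).mul (hbc.comp hx0)).mul hpd).measurable)
      fun z => abs3 (hVb z.2).2.1 (hbb _).1 ((hφb z).2 none)
  have iB : Integrable (fun z : Pt n => V z.2 * b1 (z.1 0) * pd φ (some 0) z) :=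
    integrable_of_rho (C := M ^ 3)
      ((((hVc.comp continuous_snd).mul (hb1c.comp hx0)).mul hpd0).measurable)
      fun z => abs3 (hVb z.2).1 (hbb _).2.1 ((hφb z).2 (some 0))
  have iP : Integrable (fun z : Pt n => V2 z.2 * b (z.1 0) * φ z) :=
    integrable_of_rho (C := M ^ 3)
      (((hV2m.comp measurable_snd).mul (hbc.comp hx0).measurable).mul hφc.measurable)
      fun z => abs3 (hVb z.2).2.2 (hbb _).1 (hφb z).1
  have iQ : Integrable (fun z : Pt n => V z.2 * b2 (z.1 0) * φ z) :=
    integrable_of_rho (C := M ^ 3)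
      ((((hVc.comp continuous_snd).mul (hb2c.comp hx0)).mul hφc).measurable)
      fun z => abs3 (hVb z.2).1 (hbb _).2.2 (hφb z).1
  rw [integral_add iA.integrableOn iP.integrableOn] at s1
  rw [integral_add iB.integrableOn iQ.integrableOn] at s2
  rw [integral_add iA.integrableOn iB.integrableOn]
  have r1 : ∫ z in E, (V2 z.2 * b (z.1 0) + V z.2 * b2 (z.1 0)) * φ z =
      (∫ z in E, V2 z.2 * b (z.1 0) * φ z) + ∫ z in E, V z.2 * b2 (z.1 0) * φ z := by
    rw [← integral_add iP.integrableOn iQ.integrableOn]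
    refine integral_congr_ae (Eventually.of_forall fun z => ?_)
    show (V2 z.2 * b (z.1 0) + V z.2 * b2 (z.1 0)) * φ z = _
    ring
  -- boundary integrals
  have hrb : ∀ x : Fin (n + 1) → ℝ, rho (x, floorFn H L w x) ≤ rh x := fun x => rho_le_rh _
  have hgr : Continuous fun x : Fin (n + 1) → ℝ => ((x, floorFn H L w x) : Pt n) :=
    continuous_id.prodMk hfl
  have j1 : Integrable fun x : Fin (n + 1) → ℝ =>
      V1 (floorFn H L w x) * b (x 0) * φ (x, floorFn H L w x) := by
    refine (rh_integrable.const_mul (M ^ 3)).mono' ?_ (Eventually.of_forall fun x => ?_)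
    · exact (((hV1c.comp hfl).mul (hbc.comp (continuous_apply 0))).mul
        (hφc.comp hgr)).aestronglyMeasurable
    · exact (abs3 (hVb _).2.1 (hbb _).1 (hφb _).1).trans
        (mul_le_mul_of_nonneg_left (hrb x) (by positivity))
  have j2 : Integrable fun x : Fin (n + 1) → ℝ =>
      slope H L w (x 0) * (V (floorFn H L w x) * b1 (x 0) * φ (x, floorFn H L w x)) := by
    refine (rh_integrable.const_mul (L * M ^ 3)).mono' ?_ (Eventually.of_forall fun x => ?_)
    · exact (((slope_meas H L w).comp (measurable_pi_apply 0)).mul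
        (((hVc.comp hfl).mul (hb1c.comp (continuous_apply 0))).mul
        (hφc.comp hgr)).measurable).aestronglyMeasurable
    · rw [Real.norm_eq_abs, abs_mul]
      have h1 := slope_bound H hL w (x 0)
      have h2 := (abs3 (hVb (floorFn H L w x)).1 (hbb (x 0)).2.1
        (hφb (x, floorFn H L w x)).1).trans
        (mul_le_mul_of_nonneg_left (hrb x) (by positivity))
      calc |slope H L w (x 0)| * |V (floorFn H L w x) * b1 (x 0) * φ (x, floorFn H L w x)| ≤
            L * (M ^ 3 * rh x) := mul_le_mul h1 h2 (abs_nonneg _) hL.le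
        _ = _ := by ring
  have r2 : ∫ x : Fin (n + 1) → ℝ,
            (slope H L w (x 0) * V (floorFn H L w x) * b1 (x 0)
              - V1 (floorFn H L w x) * b (x 0)) * φ (x, floorFn H L w x) =
      (∫ x : Fin (n + 1) → ℝ,
        slope H L w (x 0) * (V (floorFn H L w x) * b1 (x 0) * φ (x, floorFn H L w x))) -
      ∫ x : Fin (n + 1) → ℝ, V1 (floorFn H L w x) * b (x 0) * φ (x, floorFn H L w x) := by
    rw [← integral_sub j2 j1]
    refine integral_congr_ae (Eventually.of_forall fun x => ?_)
    show _ = slope H L w (x 0) * (V (floorFn H L w x) * b1 (x 0) * φ (x, floorFn H L w x)) -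
      V1 (floorFn H L w x) * b (x 0) * φ (x, floorFn H L w x)
    ring
  rw [r1, r2]
  linarith

end Pool.Agent.H314.Robin.IBP
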