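import Mathlib
import Pool.Agent.H314.Robin.R11

open MeasureTheory Set Filter Topology
open scoped ENNReal NNReal InnerProductSpace

namespace Pool.Agent.H314.Robin

section barrier
variable {n : ℕ} {H L w M : ℝ}

/-- smooth profile data -/
structure Prof (M : ℝ) (V V1 V2 b b1 b2 : ℝ → ℝ) : Prop where
  hV : ∀ y, HasDerivAt V (V1 y) y
  hV1c : Continuous V1
  hV1 : ∀ y, y ≠ 0 → HasDerivAt V1 (V2 y) y
  hV2m : Measurable V2
  hVb : ∀ y, |V y| ≤ M ∧ |V1 y| ≤ M ∧ |V2 y| ≤ M
  hb : ∀ x, HasDerivAt b (b1 x) x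
  hb1 : ∀ x, HasDerivAt b1 (b2 x) x
  hb2c : Continuous b2
  hbb : ∀ x, |b x| ≤ M ∧ |b1 x| ≤ M ∧ |b2 x| ≤ M

variable {V V1 V2 b b1 b2 : ℝ → ℝ}

/-- the barrier function -/
def bar (n : ℕ) (V b : ℝ → ℝ) : Pt n → ℝ := fun z => V z.2 * b (z.1 0)

lemma bar_hasFDerivAt (h : Prof M V V1 V2 b b1 b2) (z : Pt n) :
    HasFDerivAt (bar n V b) (V z.2 • (b1 (z.1 0) •
      ((ContinuousLinearMap.proj (R := ℝ) (φ := fun _ : Fin (n + 1) => ℝ) 0).comp
        (ContinuousLinearMap.fst ℝ (Fin (n + 1) → ℝ) ℝ)))
      + b (z.1 0) • (V1 z.2 • ContinuousLinearMap.snd ℝ (Fin (n + 1) → ℝ) ℝ)) z := by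
  have h1 : HasFDerivAt (fun z : Pt n => V z.2)
      (V1 z.2 • ContinuousLinearMap.snd ℝ (Fin (n + 1) → ℝ) ℝ) z :=
    (h.hV z.2).comp_hasFDerivAt z (ContinuousLinearMap.snd ℝ (Fin (n + 1) → ℝ) ℝ).hasFDerivAt
  have h2 : HasFDerivAt (fun z : Pt n => b (z.1 0)) (b1 (z.1 0) •
      ((ContinuousLinearMap.proj (R := ℝ) (φ := fun _ : Fin (n + 1) => ℝ) 0).comp
        (ContinuousLinearMap.fst ℝ (Fin (n + 1) → ℝ) ℝ))) z :=
    (h.hb (z.1 0)).comp_hasFDerivAt z
      ((ContinuousLinearMap.proj (R := ℝ) (φ := fun _ : Fin (n + 1) => ℝ) 0).comp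
        (ContinuousLinearMap.fst ℝ (Fin (n + 1) → ℝ) ℝ)).hasFDerivAt
  exact h1.mul h2

lemma pd_bar_none (h : Prof M V V1 V2 b b1 b2) (z : Pt n) :
    pd (bar n V b) none z = V1 z.2 * b (z.1 0) := by
  unfold pd
  rw [(bar_hasFDerivAt h z).fderiv]
  simp [dir, mul_comm]

lemma pd_bar_some (h : Prof M V V1 V2 b b1 b2) (i : Fin (n + 1)) (z : Pt n) :
    pd (bar n V b) (some i) z = if i = 0 then V z.2 * b1 (z.1 0) else 0 := by
  unfold pd
  rw [(bar_hasFDerivAt h z).fderiv]
  by_cases hi : i = 0
  · subst hi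
    simp [dir]
  · simp [dir, hi, Pi.single_eq_of_ne' hi]

lemma Prof.Vc (h : Prof M V V1 V2 b b1 b2) : Continuous V :=
  continuous_iff_continuousAt.mpr fun y => (h.hV y).continuousAt
lemma Prof.bc (h : Prof M V V1 V2 b b1 b2) : Continuous b :=
  continuous_iff_continuousAt.mpr fun y => (h.hb y).continuousAt
lemma Prof.b1c (h : Prof M V V1 V2 b b1 b2) : Continuous b1 :=
  continuous_iff_continuousAt.mpr fun y => (h.hb1 y).continuousAt
lemma Prof.M0 (h : Prof M V V1 V2 b b1 b2) : 0 ≤ M := (abs_nonneg _).trans (h.hVb 0).1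

lemma cont_x0 : Continuous fun z : Pt n => z.1 0 := (continuous_apply 0).comp continuous_fst

lemma bar_isD (h : Prof M V V1 V2 b b1 b2) : IsD (bar n V b) := by
  have hM := h.M0
  refine ⟨?_, M * M, fun z => ⟨?_, fun i => ?_⟩⟩
  · rw [contDiff_one_iff_fderiv]
    refine ⟨fun z => (bar_hasFDerivAt h z).differentiableAt, ?_⟩
    have : fderiv ℝ (bar n V b) = fun z => (V z.2 • (b1 (z.1 0) •
      ((ContinuousLinearMap.proj (R := ℝ) (φ := fun _ : Fin (n + 1) => ℝ) 0).comp
        (ContinuousLinearMap.fst ℝ (Fin (n + 1) → ℝ) ℝ)))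
      + b (z.1 0) • (V1 z.2 • ContinuousLinearMap.snd ℝ (Fin (n + 1) → ℝ) ℝ)) := by
      funext z; exact (bar_hasFDerivAt h z).fderiv
    rw [this]
    have c1 : Continuous fun z : Pt n => V z.2 := h.Vc.comp continuous_snd
    have c2 : Continuous fun z : Pt n => b1 (z.1 0) := h.b1c.comp cont_x0
    have c3 : Continuous fun z : Pt n => b (z.1 0) := h.bc.comp cont_x0
    have c4 : Continuous fun z : Pt n => V1 z.2 := h.hV1c.comp continuous_snd
    exact (c1.smul (c2.smul continuous_const)).add (c3.smul (c4.smul continuous_const))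
  · unfold bar
    rw [abs_mul]
    exact mul_le_mul (h.hVb _).1 (h.hbb _).1 (abs_nonneg _) hM
  · cases i with
    | none =>
      rw [pd_bar_none h, abs_mul]
      exact mul_le_mul (h.hVb _).2.1 (h.hbb _).1 (abs_nonneg _) hM
    | some i =>
      rw [pd_bar_some h]
      split_ifs
      · rw [abs_mul]
        exact mul_le_mul (h.hVb _).1 (h.hbb _).2.1 (abs_nonneg _) hM
      · rw [abs_zero]; positivity

lemma pd_rho_mul {v : Pt n → ℝ} (hv : ContDiff ℝ 1 v) (i : Option (Fin (n + 1))) (z : Pt n) :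
    pd (fun z => rho z * v z) i z = rho z * (pd v i z + qq i z * v z) := by
  have h1 := (hv.differentiable (by simp)).differentiableAt (x := z)
  have h2 : DifferentiableAt ℝ (rho : Pt n → ℝ) z :=
    (rho_contDiff.differentiable (by simp)).differentiableAt
  have h4 : pd (fun z => rho z * v z) i z = rho z * pd v i z + v z * pd rho i z := by
    unfold pd
    rw [fderiv_fun_mul h2 h1]
    simp
  rw [h4, pd_rho]
  ring

/-- The weak form of a barrier. -/
theorem barrier_id (hH : 0 < H) (hL : 0 < L) (hw : H / L < w) {α K : ℝ}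
    (h : Prof M V V1 V2 b b1 b2) {F : ℝ → ℝ} (hFc : Continuous F) {CF : ℝ} (hFb : ∀ s, |F s| ≤ CF)
    {v : Pt n → ℝ} (hv : IsD v) :
    BB (wellDom n H L w hL) α K (io _ (bar n V b) (bar_isD h)) (io _ v hv)
      - ∫ z, F (bar n V b z) * v z ∂(mu (wellDom n H L w hL))
    = (∫ z in epi (floorFn (n := n) H L w), (-(V2 z.2 * b (z.1 0) + V z.2 * b2 (z.1 0))
          + K * bar n V b z - F (bar n V b z)) * (rho z * v z))
      + ∫ x : Fin (n + 1) → ℝ, (slope H L w (x 0) * V (floorFn H L w x) * b1 (x 0)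
              - V1 (floorFn H L w x) * b (x 0)
              + α⁻¹ * (V (floorFn H L w x) * b (x 0) * surf (floorFn H L w) x))
            * (rho (x, floorFn H L w x) * v (x, floorFn H L w x)) := by
  set Ω := wellDom n H L w hL with hΩ
  have hfn : Ω.fn = floorFn H L w := rfl
  set R := bar n V b with hR
  set φ : Pt n → ℝ := fun z => rho z * v z with hφ
  have hMn := h.M0
  obtain ⟨C, hC⟩ := hv.bdd
  have hC0 : 0 ≤ C := (abs_nonneg _).trans (hC 0).1
  have hφs : ContDiff ℝ 1 φ := (rho_contDiff.of_le (by simp)).mul hv.smooth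
  set M' := max M (2 * C) with hM'
  have hφb : ∀ z, |φ z| ≤ M' * rho z ∧ ∀ i, |pd φ i z| ≤ M' * rho z := by
    intro z
    have hr := (rho_pos z).le
    refine ⟨?_, fun i => ?_⟩
    · simp only [hφ]
      rw [abs_mul, abs_of_nonneg hr, mul_comm]
      apply mul_le_mul_of_nonneg_right _ hr
      exact (hC z).1.trans ((by linarith : C ≤ 2 * C).trans (le_max_right _ _))
    · rw [pd_rho_mul hv.smooth, abs_mul, abs_of_nonneg hr, mul_comm]
      apply mul_le_mul_of_nonneg_right _ hr
      have h1 : |pd v i z + qq i z * v z| ≤ C + C := by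
        refine (abs_add_le _ _).trans (add_le_add ((hC z).2 i) ?_)
        rw [abs_mul]
        calc |qq i z| * |v z| ≤ 1 * C := mul_le_mul (abs_qq_le i z) (hC z).1 (abs_nonneg _) zero_le_one
          _ = C := one_mul _
      exact h1.trans ((by linarith : C + C ≤ 2 * C).trans (le_max_right _ _))
  have hle : M ≤ M' := le_max_left _ _
  have hibp := IBP.ibp_well (n := n) (M := M') hH hL hw V V1 V2 b b1 b2 h.hV h.hV1c h.hV1 h.hV2m
    (fun y => ⟨(h.hVb y).1.trans hle, (h.hVb y).2.1.trans hle, (h.hVb y).2.2.trans hle⟩)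
    h.hb h.hb1 h.hb2c
    (fun y => ⟨(h.hbb y).1.trans hle, (h.hbb y).2.1.trans hle, (h.hbb y).2.2.trans hle⟩)
    φ hφs hφb
  -- continuity
  have cV : Continuous fun z : Pt n => V z.2 := h.Vc.comp continuous_snd
  have cb : Continuous fun z : Pt n => b (z.1 0) := h.bc.comp cont_x0
  have cb1 : Continuous fun z : Pt n => b1 (z.1 0) := h.b1c.comp cont_x0
  have cb2 : Continuous fun z : Pt n => b2 (z.1 0) := h.hb2c.comp cont_x0
  have cV1 : Continuous fun z : Pt n => V1 z.2 := h.hV1c.comp continuous_snd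
  have mV2 : Measurable fun z : Pt n => V2 z.2 := h.hV2m.comp measurable_snd
  have cR : Continuous R := cV.mul cb
  have cφ := hφs.continuous
  -- a general integrability statement
  have hint : ∀ (g : Pt n → ℝ), Measurable g → (∃ c, ∀ z, |g z| ≤ c) →
      Integrable (fun z => g z * φ z) := by
    rintro g hg ⟨c, hc⟩
    have hi : Integrable φ := by
      refine (rho_integrable.const_mul M').mono' cφ.aestronglyMeasurable
        (Eventually.of_forall fun z => (hφb z).1)
    exact hi.bdd_mul (c := c) hg.aestronglyMeasurable (Eventually.of_forall hc)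
  have hintb : ∀ (g : (Fin (n + 1) → ℝ) → ℝ), Measurable g → (∃ c, ∀ z, |g z| ≤ c) →
      Integrable (fun x => g x * φ (x, floorFn H L w x)) := by
    rintro g hg ⟨c, hc⟩
    have hi : Integrable (fun x : Fin (n + 1) → ℝ => φ (x, floorFn H L w x)) := by
      refine (prod_integrable.const_mul M').mono'
        (cφ.comp (graph_cont Ω)).aestronglyMeasurable (Eventually.of_forall fun x => ?_)
      refine ((hφb _).1).trans ?_
      exact mul_le_mul_of_nonneg_left (rho_le_prod _ _) (hMn.trans hle)
    exact hi.bdd_mul (c := c) hg.aestronglyMeasurable (Eventually.of_forall hc)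
  have hRb : ∀ z, |R z| ≤ M * M := fun z => by
    simp only [hR, bar]
    rw [abs_mul]
    exact mul_le_mul (h.hVb _).1 (h.hbb _).1 (abs_nonneg _) hMn
  -- BB
  have e1 : BB Ω α K (io Ω R (bar_isD h)) (io Ω v hv)
      = (∫ z in epi (floorFn (n := n) H L w),
        (V1 z.2 * b (z.1 0) * pd φ none z + V z.2 * b1 (z.1 0) * pd φ (some 0) z))
        + K * (∫ z in epi (floorFn (n := n) H L w), R z * φ z)
        + α⁻¹ * ∫ x, V (floorFn H L w x) * b (x 0) * surf (floorFn H L w) x
            * φ (x, floorFn H L w x) := by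
    have hme : Measurable fun z => R z * v z := (cR.mul hv.smooth.continuous).measurable
    rw [BB_io_io, integral_mu, integral_sg Ω _ hme]
    congr 1
    · rw [← integral_const_mul, ← integral_add]
      · rw [hfn]
        apply integral_congr_ae
        filter_upwards with z
        rw [Fintype.sum_option, Fin.sum_univ_succ, pd_bar_none h, pd_bar_some h, if_pos rfl]
        have hz : ∑ i : Fin n, pd R (some i.succ) z * (pd v (some i.succ) z
            + qq (some i.succ) z * v z) = 0 := by
          apply Finset.sum_eq_zero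
          intro i _
          rw [pd_bar_some h, if_neg (Fin.succ_ne_zero i), zero_mul]
        rw [hz, pd_rho_mul hv.smooth, pd_rho_mul hv.smooth]
        simp only [hφ]
        ring
      · -- integrable
        have i1 : Integrable (fun z : Pt n => V1 z.2 * b (z.1 0) * pd φ none z) := by
          have hi : Integrable (fun z : Pt n => pd φ none z) := by
            refine (rho_integrable.const_mul M').mono' (pd_cont hφs _).aestronglyMeasurable
              (Eventually.of_forall fun z => (hφb z).2 none)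
          refine hi.bdd_mul (c := M * M) (cV1.mul cb).aestronglyMeasurable
            (Eventually.of_forall fun z => ?_)
          rw [Real.norm_eq_abs, abs_mul]
          exact mul_le_mul (h.hVb _).2.1 (h.hbb _).1 (abs_nonneg _) hMn
        have i2 : Integrable (fun z : Pt n => V z.2 * b1 (z.1 0) * pd φ (some 0) z) := by
          have hi : Integrable (fun z : Pt n => pd φ (some 0) z) := by
            refine (rho_integrable.const_mul M').mono' (pd_cont hφs _).aestronglyMeasurable
              (Eventually.of_forall fun z => (hφb z).2 (some 0))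
          refine hi.bdd_mul (c := M * M) (cV.mul cb1).aestronglyMeasurable
            (Eventually.of_forall fun z => ?_)
          rw [Real.norm_eq_abs, abs_mul]
          exact mul_le_mul (h.hVb _).1 (h.hbb _).2.1 (abs_nonneg _) hMn
        exact (i1.add i2).integrableOn
      · exact ((hint R cR.measurable ⟨_, hRb⟩).const_mul K).integrableOn
    · congr 1
      apply integral_congr_ae
      filter_upwards with x
      simp only [bw, hR, bar, hφ, hfn]
      ring
  have e2 : ∫ z, F (R z) * v z ∂(mu Ω)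
      = ∫ z in epi (floorFn (n := n) H L w), F (R z) * φ z := by
    rw [integral_mu, hfn]
    apply integral_congr_ae
    filter_upwards with z
    simp only [hφ]
    ring
  rw [e1, e2, hibp]
  have hgm : Measurable fun z : Pt n => V2 z.2 * b (z.1 0) + V z.2 * b2 (z.1 0) :=
    (mV2.mul cb.measurable).add (cV.mul cb2).measurable
  have hgb : ∀ z : Pt n, |V2 z.2 * b (z.1 0) + V z.2 * b2 (z.1 0)| ≤ M * M + M * M := fun z => by
    refine (abs_add_le _ _).trans (add_le_add ?_ ?_)
    · rw [abs_mul]; exact mul_le_mul (h.hVb _).2.2 (h.hbb _).1 (abs_nonneg _) hMn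
    · rw [abs_mul]; exact mul_le_mul (h.hVb _).1 (h.hbb _).2.2 (abs_nonneg _) hMn
  have I1 := (hint _ hgm ⟨_, hgb⟩).integrableOn (s := epi (floorFn (n := n) H L w))
  have I2 := (hint R cR.measurable ⟨_, hRb⟩).integrableOn (s := epi (floorFn (n := n) H L w))
  have I3 := (hint (fun z => F (R z)) (hFc.comp cR).measurable
    ⟨_, fun z => hFb _⟩).integrableOn (s := epi (floorFn (n := n) H L w))
  have r1 : ∫ z in epi (floorFn (n := n) H L w), (-(V2 z.2 * b (z.1 0) + V z.2 * b2 (z.1 0))
          + K * R z - F (R z)) * φ z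
      = -(∫ z in epi (floorFn (n := n) H L w), (V2 z.2 * b (z.1 0) + V z.2 * b2 (z.1 0)) * φ z)
        + K * (∫ z in epi (floorFn (n := n) H L w), R z * φ z)
        - ∫ z in epi (floorFn (n := n) H L w), F (R z) * φ z := by
    have I1' : Integrable (fun z => -((V2 z.2 * b (z.1 0) + V z.2 * b2 (z.1 0)) * φ z))
        (volume.restrict (epi (floorFn (n := n) H L w))) := I1.neg
    have I2' : Integrable (fun z => K * (R z * φ z))
        (volume.restrict (epi (floorFn (n := n) H L w))) := I2.const_mul K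
    have I12 : Integrable (fun z => -((V2 z.2 * b (z.1 0) + V z.2 * b2 (z.1 0)) * φ z)
        + K * (R z * φ z)) (volume.restrict (epi (floorFn (n := n) H L w))) := I1'.add I2'
    rw [← integral_neg, ← integral_const_mul, ← integral_add I1' I2', ← integral_sub I12 I3]
    apply integral_congr_ae
    filter_upwards with z
    ring
  have cfl : Continuous fun x : Fin (n + 1) → ℝ => floorFn H L w x := IBP.floorFn_cont H L w
  have cx0 : Continuous fun x : Fin (n + 1) → ℝ => x 0 := continuous_apply 0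
  have mg1 : Measurable fun x : Fin (n + 1) → ℝ => slope H L w (x 0) * V (floorFn H L w x) * b1 (x 0)
              - V1 (floorFn H L w x) * b (x 0) :=
    ((((IBP.slope_meas H L w).comp cx0.measurable).mul (h.Vc.comp cfl).measurable).mul
      (h.b1c.comp cx0).measurable).sub ((h.hV1c.comp cfl).mul (h.bc.comp cx0)).measurable
  have bg1 : ∀ x : Fin (n + 1) → ℝ, |slope H L w (x 0) * V (floorFn H L w x) * b1 (x 0)
              - V1 (floorFn H L w x) * b (x 0)| ≤ L * M * M + M * M := fun x => by
    refine (abs_sub _ _).trans (add_le_add ?_ ?_)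
    · rw [abs_mul, abs_mul]
      exact mul_le_mul (mul_le_mul (IBP.slope_bound H hL w _) (h.hVb _).1 (abs_nonneg _) hL.le)
        (h.hbb _).2.1 (abs_nonneg _) (by positivity)
    · rw [abs_mul]; exact mul_le_mul (h.hVb _).2.1 (h.hbb _).1 (abs_nonneg _) hMn
  have mg2 : Measurable fun x : Fin (n + 1) → ℝ => V (floorFn H L w x) * b (x 0)
      * surf (floorFn H L w) x :=
    ((h.Vc.comp cfl).mul (h.bc.comp cx0)).measurable.mul (surf_measurable Ω)
  have bg2 : ∀ x : Fin (n + 1) → ℝ, |V (floorFn H L w x) * b (x 0)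
      * surf (floorFn H L w) x| ≤ M * M * surfB Ω := fun x => by
    have hs0 : 0 ≤ surf (floorFn H L w) x := Real.sqrt_nonneg _
    have hs1 : surf (floorFn H L w) x ≤ surfB Ω := surf_le Ω x
    rw [abs_mul, abs_mul, abs_of_nonneg hs0]
    exact mul_le_mul (mul_le_mul (h.hVb _).1 (h.hbb _).1 (abs_nonneg _) hMn) hs1
      hs0 (by positivity)
  have J1 := hintb _ mg1 ⟨_, bg1⟩
  have J2 := hintb _ mg2 ⟨_, bg2⟩
  have r2 : ∫ x : Fin (n + 1) → ℝ, (slope H L w (x 0) * V (floorFn H L w x) * b1 (x 0)
              - V1 (floorFn H L w x) * b (x 0)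
              + α⁻¹ * (V (floorFn H L w x) * b (x 0) * surf (floorFn H L w) x))
            * φ (x, floorFn H L w x)
      = (∫ x : Fin (n + 1) → ℝ, (slope H L w (x 0) * V (floorFn H L w x) * b1 (x 0)
              - V1 (floorFn H L w x) * b (x 0)) * φ (x, floorFn H L w x))
        + α⁻¹ * ∫ x, V (floorFn H L w x) * b (x 0) * surf (floorFn H L w) x
            * φ (x, floorFn H L w x) := by
    rw [← integral_const_mul, ← integral_add J1 (J2.const_mul _)]
    apply integral_congr_ae
    filter_upwards with z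
    ring
  rw [r1, r2]
  ring

end barrier

end Pool.Agent.H314.Robin
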