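import Mathlib
import Pool.Agent.H314.Robin.R12

open MeasureTheory Set Filter Topology
open scoped ENNReal NNReal InnerProductSpace

namespace Pool.Agent.H314.Robin

section cor
variable {n : ℕ} {H L w M : ℝ} {V V1 V2 b b1 b2 : ℝ → ℝ}

theorem barrier_sub (hH : 0 < H) (hL : 0 < L) (hw : H / L < w) {α K : ℝ}
    (h : Prof M V V1 V2 b b1 b2) {F : ℝ → ℝ} (hFc : Continuous F) {CF : ℝ} (hFb : ∀ s, |F s| ≤ CF)
    (hin : ∀ z ∈ epi (floorFn (n := n) H L w), -(V2 z.2 * b (z.1 0) + V z.2 * b2 (z.1 0))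
          + K * bar n V b z ≤ F (bar n V b z))
    (hbd : ∀ᵐ x : Fin (n + 1) → ℝ, slope H L w (x 0) * V (floorFn H L w x) * b1 (x 0)
              - V1 (floorFn H L w x) * b (x 0)
              + α⁻¹ * (V (floorFn H L w x) * b (x 0) * surf (floorFn H L w) x) ≤ 0)
    {v : Pt n → ℝ} (hv : IsD v) (hv0 : ∀ z, 0 ≤ v z) :
    BB (wellDom n H L w hL) α K (io _ (bar n V b) (bar_isD h)) (io _ v hv)
      ≤ ∫ z, F (bar n V b z) * v z ∂(mu (wellDom n H L w hL)) := by
  rw [← sub_nonpos, barrier_id hH hL hw h hFc hFb hv]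
  have h1 : ∫ z in epi (floorFn (n := n) H L w), (-(V2 z.2 * b (z.1 0) + V z.2 * b2 (z.1 0))
          + K * bar n V b z - F (bar n V b z)) * (rho z * v z) ≤ 0 := by
    apply integral_nonpos_of_ae
    have hm : MeasurableSet (epi (floorFn (n := n) H L w)) :=
      measurableSet_epi (wellDom n H L w hL)
    filter_upwards [ae_restrict_mem hm] with z hz
    have := hin z hz
    exact mul_nonpos_of_nonpos_of_nonneg (by linarith) (mul_nonneg (rho_pos z).le (hv0 z))
  have h2 : ∫ x : Fin (n + 1) → ℝ, (slope H L w (x 0) * V (floorFn H L w x) * b1 (x 0)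
              - V1 (floorFn H L w x) * b (x 0)
              + α⁻¹ * (V (floorFn H L w x) * b (x 0) * surf (floorFn H L w) x))
            * (rho (x, floorFn H L w x) * v (x, floorFn H L w x)) ≤ 0 := by
    apply integral_nonpos_of_ae
    filter_upwards [hbd] with x hx
    exact mul_nonpos_of_nonpos_of_nonneg hx (mul_nonneg (rho_pos _).le (hv0 _))
  linarith

theorem barrier_sup (hH : 0 < H) (hL : 0 < L) (hw : H / L < w) {α K : ℝ}
    (h : Prof M V V1 V2 b b1 b2) {F : ℝ → ℝ} (hFc : Continuous F) {CF : ℝ} (hFb : ∀ s, |F s| ≤ CF)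
    (hin : ∀ z ∈ epi (floorFn (n := n) H L w), F (bar n V b z) ≤
      -(V2 z.2 * b (z.1 0) + V z.2 * b2 (z.1 0)) + K * bar n V b z)
    (hbd : ∀ᵐ x : Fin (n + 1) → ℝ, 0 ≤ slope H L w (x 0) * V (floorFn H L w x) * b1 (x 0)
              - V1 (floorFn H L w x) * b (x 0)
              + α⁻¹ * (V (floorFn H L w x) * b (x 0) * surf (floorFn H L w) x))
    {v : Pt n → ℝ} (hv : IsD v) (hv0 : ∀ z, 0 ≤ v z) :
    ∫ z, F (bar n V b z) * v z ∂(mu (wellDom n H L w hL)) ≤
    BB (wellDom n H L w hL) α K (io _ (bar n V b) (bar_isD h)) (io _ v hv) := by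
  rw [← sub_nonneg, barrier_id hH hL hw h hFc hFb hv]
  have h1 : 0 ≤ ∫ z in epi (floorFn (n := n) H L w), (-(V2 z.2 * b (z.1 0) + V z.2 * b2 (z.1 0))
          + K * bar n V b z - F (bar n V b z)) * (rho z * v z) := by
    apply integral_nonneg_of_ae
    have hm : MeasurableSet (epi (floorFn (n := n) H L w)) :=
      measurableSet_epi (wellDom n H L w hL)
    filter_upwards [ae_restrict_mem hm] with z hz
    have := hin z hz
    exact mul_nonneg (by linarith) (mul_nonneg (rho_pos z).le (hv0 z))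
  have h2 : 0 ≤ ∫ x : Fin (n + 1) → ℝ, (slope H L w (x 0) * V (floorFn H L w x) * b1 (x 0)
              - V1 (floorFn H L w x) * b (x 0)
              + α⁻¹ * (V (floorFn H L w x) * b (x 0) * surf (floorFn H L w) x))
            * (rho (x, floorFn H L w x) * v (x, floorFn H L w x)) := by
    apply integral_nonneg_of_ae
    filter_upwards [hbd] with x hx
    exact mul_nonneg hx (mul_nonneg (rho_pos _).le (hv0 _))
  linarith

/-- points of the domain below height zero are in the well -/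
lemma in_well (hL : 0 < L) {z : Pt n} (hz : z ∈ epi (floorFn (n := n) H L w)) (hy : z.2 < 0) :
    |z.1 0| < w ∧ -H < z.2 := by
  have h1 : wellProfile H L w (z.1 0) < z.2 := hz
  unfold wellProfile at h1
  rw [max_lt_iff, min_lt_iff] at h1
  refine ⟨?_, h1.1⟩
  rcases h1.2 with h2 | h2
  · linarith
  · by_contra h3
    push Not at h3
    have : 0 ≤ L * (|z.1 0| - w) := mul_nonneg hL.le (by linarith)
    linarith

/-- description of the boundary -/
lemma bd_cases (hH : 0 < H) (hL : 0 < L) (hw : H / L < w) (x : ℝ) :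
    (slope H L w x = 0 ∧ (wellProfile H L w x = -H ∨ wellProfile H L w x = 0)) ∨
    (w - H / L < |x| ∧ |x| < w ∧ -H < wellProfile H L w x ∧ wellProfile H L w x < 0 ∧
      ((0 < x ∧ slope H L w x = L) ∨ (x < 0 ∧ slope H L w x = -L))) := by
  have hHL : L * (H / L) = H := by field_simp
  have hHLpos : 0 < H / L := by positivity
  by_cases h : w - H / L < |x| ∧ |x| < w
  · right
    have e1 : -H < L * (|x| - w) := by nlinarith [h.1]
    have e2 : L * (|x| - w) < 0 := by nlinarith [h.2]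
    have e3 : wellProfile H L w x = L * (|x| - w) := by
      unfold wellProfile
      rw [min_eq_right e2.le, max_eq_right e1.le]
    refine ⟨h.1, h.2, by rw [e3]; exact e1, by rw [e3]; exact e2, ?_⟩
    have hx0 : x ≠ 0 := by
      rintro rfl
      rw [abs_zero] at h
      linarith [h.1]
    rcases lt_or_gt_of_ne hx0 with h4 | h4
    · right
      refine ⟨h4, ?_⟩
      unfold slope
      rw [if_pos h, if_neg (by linarith)]
    · left
      refine ⟨h4, ?_⟩
      unfold slope
      rw [if_pos h, if_pos h4]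
  · left
    refine ⟨by unfold slope; rw [if_neg h], ?_⟩
    rw [not_and_or] at h
    rcases h with h | h
    · left
      have : L * (|x| - w) ≤ -H := by nlinarith
      unfold wellProfile
      rw [min_eq_right (by linarith), max_eq_left this]
    · right
      have : 0 ≤ L * (|x| - w) := mul_nonneg hL.le (by linarith)
      unfold wellProfile
      rw [min_eq_left this, max_eq_right (by linarith)]

end cor

section profiles

/-- horizontal profile -/
noncomputable def bf (β : ℝ) (x : ℝ) : ℝ := 1 - β / 10000 * Real.sin (100 * x) ^ 2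
noncomputable def bf1 (β : ℝ) (x : ℝ) : ℝ := -(β / 100) * Real.sin (200 * x)
noncomputable def bf2 (β : ℝ) (x : ℝ) : ℝ := -(2 * β) * Real.cos (200 * x)

lemma bf_hasDerivAt (β x : ℝ) : HasDerivAt (bf β) (bf1 β x) x := by
  have h1 : HasDerivAt (fun x : ℝ => Real.sin (100 * x)) (Real.cos (100 * x) * 100) x := by
    have := ((hasDerivAt_id x).const_mul (100 : ℝ)).sin
    simpa using this
  have h2 := ((h1.pow 2).const_mul (β / 10000)).const_sub 1
  have h3 : HasDerivAt (bf β) (-(β / 10000 * (((2 : ℕ) : ℝ) * Real.sin (100 * x) ^ (2 - 1)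
      * (Real.cos (100 * x) * 100)))) x := h2
  have h4 : -(β / 10000 * (((2 : ℕ) : ℝ) * Real.sin (100 * x) ^ (2 - 1)
      * (Real.cos (100 * x) * 100))) = bf1 β x := by
    unfold bf1
    have : (200 : ℝ) * x = 2 * (100 * x) := by ring
    rw [this, Real.sin_two_mul]
    push_cast
    ring
  rwa [h4] at h3

lemma bf1_hasDerivAt (β x : ℝ) : HasDerivAt (bf1 β) (bf2 β x) x := by
  have h1 : HasDerivAt (fun x : ℝ => Real.sin (200 * x)) (Real.cos (200 * x) * 200) x := by
    have := ((hasDerivAt_id x).const_mul (200 : ℝ)).sin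
    simpa using this
  have h2 := h1.const_mul (-(β / 100))
  have h4 : -(β / 100) * (Real.cos (200 * x) * 200) = bf2 β x := by
    unfold bf2; ring
  rw [h4] at h2
  exact h2

lemma bf2_cont (β : ℝ) : Continuous (bf2 β) := by unfold bf2; fun_prop

lemma bf_bounds {β : ℝ} (hβ : 0 ≤ β) (_ : β ≤ 2) (x : ℝ) :
    1 - β / 10000 ≤ bf β x ∧ bf β x ≤ 1 := by
  unfold bf
  have h1 := sq_nonneg (Real.sin (100 * x))
  have h2 : Real.sin (100 * x) ^ 2 ≤ 1 := Real.sin_sq_le_one _
  constructor <;> nlinarith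

lemma bf_abs {β : ℝ} (hβ : 0 ≤ β) (hβ2 : β ≤ 2) (x : ℝ) :
    |bf β x| ≤ 4 ∧ |bf1 β x| ≤ 4 ∧ |bf2 β x| ≤ 4 := by
  refine ⟨?_, ?_, ?_⟩
  · have := bf_bounds hβ hβ2 x
    rw [abs_le]; constructor <;> linarith
  · unfold bf1
    rw [abs_mul, abs_neg, abs_of_nonneg (by positivity : 0 ≤ β / 100)]
    have := Real.abs_sin_le_one (200 * x)
    have h0 := abs_nonneg (Real.sin (200 * x))
    nlinarith
  · unfold bf2
    rw [abs_mul, abs_neg, abs_of_nonneg (by positivity : 0 ≤ 2 * β)]
    have := Real.abs_cos_le_one (200 * x)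
    have h0 := abs_nonneg (Real.cos (200 * x))
    nlinarith

/-- vertical profile of the subsolutions -/
noncomputable def Vf (c : ℝ) (y : ℝ) : ℝ := c * (1 + 1 / 1000 * Real.arctan y)
noncomputable def Vf1 (c : ℝ) (y : ℝ) : ℝ := c / 1000 * (1 / (1 + y ^ 2))
noncomputable def Vf2 (c : ℝ) (y : ℝ) : ℝ := c / 1000 * (-(2 * y) / (1 + y ^ 2) ^ 2)

lemma Vf_hasDerivAt (c y : ℝ) : HasDerivAt (Vf c) (Vf1 c y) y := by
  have h1 := (((Real.hasDerivAt_arctan y).const_mul (1 / 1000)).const_add 1).const_mul c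
  have h2 : c * (1 / 1000 * (1 / (1 + y ^ 2))) = Vf1 c y := by unfold Vf1; ring
  rw [h2] at h1
  exact h1

lemma Vf1_hasDerivAt (c y : ℝ) : HasDerivAt (Vf1 c) (Vf2 c y) y := by
  have h0 : HasDerivAt (fun y : ℝ => 1 + y ^ 2) (2 * y) y := by
    simpa using (hasDerivAt_pow 2 y).const_add 1
  have h1 := (h0.inv (one_add_sq_pos y).ne').const_mul (c / 1000)
  have h2 : HasDerivAt (Vf1 c) (c / 1000 * (-(2 * y) / (1 + y ^ 2) ^ 2)) y := by
    refine h1.congr_of_eventuallyEq (Eventually.of_forall fun t => ?_)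
    simp [Vf1]
  exact h2

lemma Vf2_cont (c : ℝ) : Continuous (Vf2 c) := by
  unfold Vf2
  apply continuous_const.mul
  apply Continuous.div (by fun_prop) (by fun_prop)
  intro y; positivity

lemma arctan_bound (y : ℝ) : |Real.arctan y| ≤ 1.6 := by
  have h1 := Real.arctan_lt_pi_div_two y
  have h2 := Real.neg_pi_div_two_lt_arctan y
  have h3 := Real.pi_lt_d2
  rw [abs_le]; constructor <;> linarith

lemma Vf_bounds {c : ℝ} (hc : 0 ≤ c) (y : ℝ) : 0.9984 * c ≤ Vf c y ∧ Vf c y ≤ 1.0016 * c := by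
  have h := arctan_bound y
  rw [abs_le] at h
  unfold Vf
  constructor <;> nlinarith [h.1, h.2]

lemma Vf1_bounds {c : ℝ} (hc : 0 ≤ c) (y : ℝ) : 0 ≤ Vf1 c y ∧ Vf1 c y ≤ c / 1000 := by
  unfold Vf1
  have h1 : 1 / (1 + y ^ 2) ≤ 1 := by
    rw [div_le_one (one_add_sq_pos y)]; nlinarith [sq_nonneg y]
  have h2 : 0 < 1 / (1 + y ^ 2) := by positivity
  constructor
  · positivity
  · nlinarith

lemma Vf2_bounds {c : ℝ} (hc : 0 ≤ c) (y : ℝ) : |Vf2 c y| ≤ c / 1000 := by
  unfold Vf2
  have h1 : |-(2 * y) / (1 + y ^ 2) ^ 2| ≤ 1 := by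
    rw [abs_div, abs_neg, abs_of_pos (by positivity : 0 < (1 + y ^ 2) ^ 2),
      div_le_one (by positivity), abs_mul, abs_two]
    have := sq_abs y
    nlinarith [sq_nonneg (|y| - 1), abs_nonneg y, sq_nonneg y]
  rw [abs_mul, abs_of_nonneg (by positivity : 0 ≤ c / 1000)]
  have : 0 ≤ c / 1000 := by positivity
  nlinarith

lemma prof_sub {c β : ℝ} (hc : 0 ≤ c) (hc1 : c ≤ 1) (hβ : 0 ≤ β) (hβ2 : β ≤ 2) :
    Prof 4 (Vf c) (Vf1 c) (Vf2 c) (bf β) (bf1 β) (bf2 β) where
  hV := Vf_hasDerivAt c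
  hV1c := continuous_iff_continuousAt.mpr fun y => (Vf1_hasDerivAt c y).continuousAt
  hV1 := fun y _ => Vf1_hasDerivAt c y
  hV2m := (Vf2_cont c).measurable
  hVb := fun y => by
    have h1 := Vf_bounds hc y
    have h2 := Vf1_bounds hc y
    have h3 := Vf2_bounds hc y
    refine ⟨?_, ?_, by linarith⟩
    · rw [abs_le]; constructor <;> linarith
    · rw [abs_le]; constructor <;> linarith
  hb := bf_hasDerivAt β
  hb1 := bf1_hasDerivAt β
  hb2c := bf2_cont β
  hbb := bf_abs hβ hβ2

/-- vertical profile of the supersolution -/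
noncomputable def Wf (y : ℝ) : ℝ := 0.635 + 0.385 * Real.cos (min y 0)
noncomputable def Wf1 (y : ℝ) : ℝ := -(0.385 * Real.sin (min y 0))
noncomputable def Wf2 (y : ℝ) : ℝ := if y < 0 then -(0.385 * Real.cos y) else 0

lemma Wf_hasDerivAt (y : ℝ) : HasDerivAt Wf (Wf1 y) y := by
  rcases lt_trichotomy y 0 with h | h | h
  · have h1 := ((Real.hasDerivAt_cos y).const_mul 0.385).const_add 0.635
    have h2 : Wf =ᶠ[𝓝 y] fun y => 0.635 + 0.385 * Real.cos y := by
      filter_upwards [Iio_mem_nhds h] with t ht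
      unfold Wf
      rw [min_eq_left (le_of_lt ht)]
    have h3 := h1.congr_of_eventuallyEq h2
    have h4 : (0.385 : ℝ) * -Real.sin y = Wf1 y := by
      unfold Wf1; rw [min_eq_left h.le]; ring
    rwa [h4] at h3
  · subst h
    have h0 : Wf1 0 = 0 := by unfold Wf1; simp
    rw [h0, hasDerivAt_iff_isLittleO_nhds_zero]
    simp only [zero_add, smul_zero, sub_zero]
    have hO : (fun h : ℝ => Wf h - Wf 0) =O[𝓝 0] fun h : ℝ => h ^ 2 := by
      apply Asymptotics.IsBigO.of_bound 1
      filter_upwards with h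
      unfold Wf
      rw [min_self, Real.cos_zero]
      have h1 := Real.one_sub_sq_div_two_le_cos (x := min h 0)
      have h2 := Real.cos_le_one (min h 0)
      have h3 : (min h 0) ^ 2 ≤ h ^ 2 := by
        rcases le_total h 0 with h' | h'
        · rw [min_eq_left h']
        · rw [min_eq_right h']; nlinarith
      rw [Real.norm_eq_abs, Real.norm_eq_abs, abs_of_nonneg (sq_nonneg h), abs_le]
      constructor <;> nlinarith
    exact hO.trans_isLittleO (by simpa using Asymptotics.isLittleO_pow_id (𝕜 := ℝ) one_lt_two)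
  · have h2 : Wf =ᶠ[𝓝 y] fun _ => Wf 0 := by
      filter_upwards [Ioi_mem_nhds h] with t ht
      unfold Wf
      rw [min_eq_right (le_of_lt ht), min_self]
    have h3 := (hasDerivAt_const y (Wf 0)).congr_of_eventuallyEq h2
    have h4 : Wf1 y = 0 := by unfold Wf1; rw [min_eq_right h.le]; simp
    rwa [h4]

lemma Wf1_cont : Continuous Wf1 := by unfold Wf1; fun_prop

lemma Wf1_hasDerivAt (y : ℝ) (hy : y ≠ 0) : HasDerivAt Wf1 (Wf2 y) y := by
  rcases lt_or_gt_of_ne hy with h | h
  · have h1 := ((Real.hasDerivAt_sin y).const_mul 0.385).neg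
    have h2 : Wf1 =ᶠ[𝓝 y] fun y => -(0.385 * Real.sin y) := by
      filter_upwards [Iio_mem_nhds h] with t ht
      unfold Wf1
      rw [min_eq_left (le_of_lt ht)]
    have h3 := h1.congr_of_eventuallyEq h2
    have h4 : Wf2 y = -(0.385 * Real.cos y) := by unfold Wf2; rw [if_pos h]
    rwa [h4]
  · have h2 : Wf1 =ᶠ[𝓝 y] fun _ => 0 := by
      filter_upwards [Ioi_mem_nhds h] with t ht
      unfold Wf1
      rw [min_eq_right (le_of_lt ht)]; simp
    have h3 := (hasDerivAt_const y (0:ℝ)).congr_of_eventuallyEq h2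
    have h4 : Wf2 y = 0 := by unfold Wf2; rw [if_neg (by linarith)]
    rwa [h4]

lemma Wf2_meas : Measurable Wf2 := by
  unfold Wf2
  exact Measurable.ite measurableSet_Iio (by fun_prop) measurable_const

lemma Wf_bounds (y : ℝ) : 0.25 ≤ Wf y ∧ Wf y ≤ 1.02 := by
  unfold Wf
  have h1 := Real.cos_le_one (min y 0)
  have h2 := Real.neg_one_le_cos (min y 0)
  constructor <;> linarith

lemma prof_sup {β : ℝ} (hβ : 0 ≤ β) (hβ2 : β ≤ 2) :
    Prof 4 Wf Wf1 Wf2 (bf β) (bf1 β) (bf2 β) where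
  hV := Wf_hasDerivAt
  hV1c := Wf1_cont
  hV1 := Wf1_hasDerivAt
  hV2m := Wf2_meas
  hVb := fun y => by
    refine ⟨?_, ?_, ?_⟩
    · have := Wf_bounds y
      rw [abs_le]; constructor <;> linarith
    · unfold Wf1
      have h1 := Real.sin_le_one (min y 0)
      have h2 := Real.neg_one_le_sin (min y 0)
      rw [abs_le]; constructor <;> linarith
    · unfold Wf2
      split_ifs
      · have h1 := Real.cos_le_one y
        have h2 := Real.neg_one_le_cos y
        rw [abs_le]; constructor <;> linarith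
      · simp
  hb := bf_hasDerivAt β
  hb1 := bf1_hasDerivAt β
  hb2c := bf2_cont β
  hbb := bf_abs hβ hβ2

end profiles

end Pool.Agent.H314.Robin
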