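import Mathlib
import Pool.Agent.H314.Robin.R13

open MeasureTheory Set Filter Topology
open scoped ENNReal NNReal InnerProductSpace

namespace Pool.Agent.H314.Robin

/-- the reaction -/
noncomputable def fR (s : ℝ) : ℝ := s * (1 - s) * (5 - 37 * s + 70 * s ^ 2) / 2

lemma fR_cont : Continuous fR := by unfold fR; fun_prop

lemma fR_pos {s : ℝ} (h0 : 0 < s) (h1 : s < 1) : 0 < fR s := by
  unfold fR
  have h2 : 0 < 5 - 37 * s + 70 * s ^ 2 := by nlinarith [sq_nonneg (s - 37 / 140)]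
  have h3 : 0 < 1 - s := by linarith
  positivity

lemma fR_low {s : ℝ} (h0 : 0.2499 ≤ s) (h1 : s ≤ 1) : fR s ≤ 2.99 * s - 0.635 := by
  unfold fR
  nlinarith [sq_nonneg (s ^ 2 - 0.76 * s), sq_nonneg (s - 0.72), mul_nonneg (sub_nonneg.mpr h0) (sub_nonneg.mpr h1), sq_nonneg (s * (s - 0.72)), mul_nonneg (mul_nonneg (sub_nonneg.mpr h0) (sub_nonneg.mpr h1)) (sq_nonneg (s - 0.5)), mul_nonneg (sub_nonneg.mpr h0) (sq_nonneg (s - 0.72))]

lemma fR_A {s : ℝ} (h0 : 0.748 ≤ s) (h1 : s ≤ 0.752) : 2.01 * (3 / 4) ≤ fR s := by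
  unfold fR
  nlinarith [mul_nonneg (sub_nonneg.mpr h0) (sub_nonneg.mpr h1), mul_nonneg (mul_nonneg (sub_nonneg.mpr h0) (sub_nonneg.mpr h1)) (mul_nonneg (sub_nonneg.mpr h0) (sub_nonneg.mpr h1)), mul_nonneg (mul_nonneg (sub_nonneg.mpr h0) (sub_nonneg.mpr h1)) (sub_nonneg.mpr h0)]

lemma fR_B {s : ℝ} (h0 : 0.0099 ≤ s) (h1 : s ≤ 0.0101) : 2.01 * (1 / 100) ≤ fR s := by
  unfold fR
  have e1 : 2.01 / 100 / 0.0099 * 2 ≤ (1 - s) * (5 - 37 * s + 70 * s ^ 2) := by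
    nlinarith [sq_nonneg s]
  nlinarith

lemma fR_lip {s t : ℝ} (hs : s ∈ Icc (0:ℝ) 1) (ht : t ∈ Icc (0:ℝ) 1) :
    |fR s - fR t| ≤ 345 * |s - t| := by
  have h : fR s - fR t = (s - t) * (5 / 2 - 21 * (s + t) + 107 / 2 * (s ^ 2 + s * t + t ^ 2)
      - 35 * (s ^ 3 + s ^ 2 * t + s * t ^ 2 + t ^ 3)) := by unfold fR; ring
  rw [h, abs_mul, mul_comm]
  apply mul_le_mul_of_nonneg_right _ (abs_nonneg _)
  obtain ⟨hs0, hs1⟩ := hs
  obtain ⟨ht0, ht1⟩ := ht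
  have a1 : s ^ 2 ≤ 1 := pow_le_one₀ hs0 hs1
  have a2 : t ^ 2 ≤ 1 := pow_le_one₀ ht0 ht1
  have a3 : s * t ≤ 1 := by nlinarith
  have a4 : s ^ 3 ≤ 1 := pow_le_one₀ hs0 hs1
  have a5 : t ^ 3 ≤ 1 := pow_le_one₀ ht0 ht1
  have a6 : s ^ 2 * t ≤ 1 := by nlinarith [sq_nonneg s]
  have a7 : s * t ^ 2 ≤ 1 := by nlinarith [sq_nonneg t]
  have b1 : 0 ≤ s ^ 2 := by positivity
  have b2 : 0 ≤ t ^ 2 := by positivity
  have b3 : 0 ≤ s * t := by positivity
  have b4 : 0 ≤ s ^ 3 := by positivity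
  have b5 : 0 ≤ t ^ 3 := by positivity
  have b6 : 0 ≤ s ^ 2 * t := by positivity
  have b7 : 0 ≤ s * t ^ 2 := by positivity
  rw [abs_le]
  constructor <;> linarith

/-- clamp to the unit interval -/
noncomputable def cl (s : ℝ) : ℝ := max 0 (min s 1)

lemma cl_mem (s : ℝ) : cl s ∈ Icc (0:ℝ) 1 := ⟨le_max_left _ _, max_le zero_le_one (min_le_right _ _)⟩
lemma cl_of_mem {s : ℝ} (h : s ∈ Icc (0:ℝ) 1) : cl s = s := by
  unfold cl; rw [min_eq_left h.2, max_eq_right h.1]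
lemma cl_of_one_le {s : ℝ} (h : 1 ≤ s) : cl s = 1 := by
  unfold cl; rw [min_eq_right h, max_eq_right zero_le_one]
lemma cl_mono : Monotone cl := fun _ _ h => max_le_max le_rfl (min_le_min h le_rfl)
lemma cl_cont : Continuous cl := by unfold cl; fun_prop
lemma cl_lip (s t : ℝ) : |cl s - cl t| ≤ |s - t| := by
  unfold cl
  have h1 : |max 0 (min s 1) - max 0 (min t 1)| ≤ |min s 1 - min t 1| := by
    have h := abs_max_sub_max_le_max 0 (min s 1) 0 (min t 1)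
    simpa using h
  have h2 : |min s 1 - min t 1| ≤ |s - t| := by
    have h := abs_min_sub_min_le_max s 1 t 1
    simpa using h
  exact h1.trans h2

/-- monotone truncated nonlinearity -/
noncomputable def FK (K : ℝ) (s : ℝ) : ℝ := fR (cl s) + K * cl s

lemma FK_cont (K : ℝ) : Continuous (FK K) := by
  unfold FK
  exact (fR_cont.comp cl_cont).add (continuous_const.mul cl_cont)

lemma FK_zero (K : ℝ) : FK K 0 = 0 := by
  unfold FK
  rw [cl_of_mem (by simp)]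
  unfold fR; simp

lemma FK_of_mem (K : ℝ) {s : ℝ} (h : s ∈ Icc (0:ℝ) 1) : FK K s = fR s + K * s := by
  unfold FK; rw [cl_of_mem h]

lemma FK_of_one_le (K : ℝ) {s : ℝ} (h : 1 ≤ s) : FK K s = K := by
  unfold FK; rw [cl_of_one_le h]; unfold fR; simp

lemma FK_mono {K : ℝ} (hK : 345 ≤ K) : Monotone (FK K) := by
  intro s t h
  have h1 := cl_mono h
  have h2 := fR_lip (cl_mem s) (cl_mem t)
  unfold FK
  rw [abs_sub_comm (cl s), abs_of_nonneg (sub_nonneg.mpr h1)] at h2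
  have h3 := le_abs_self (fR (cl s) - fR (cl t))
  have h4 : 0 ≤ cl t - cl s := sub_nonneg.mpr h1
  nlinarith

lemma FK_le {K : ℝ} (hK : 345 ≤ K) (s : ℝ) : FK K s ≤ K := by
  rcases le_total s 1 with h | h
  · calc FK K s ≤ FK K 1 := FK_mono hK h
      _ = K := FK_of_one_le K le_rfl
  · exact (FK_of_one_le K h).le

lemma FK_nonneg {K : ℝ} (hK : 345 ≤ K) (s : ℝ) : 0 ≤ FK K s := by
  unfold FK
  have h := cl_mem s
  have h1 : 0 ≤ fR (cl s) := by
    rcases h.1.eq_or_lt with h0 | h0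
    · rw [← h0]; unfold fR; simp
    · rcases h.2.eq_or_lt with h1 | h1
      · rw [h1]; unfold fR; simp
      · exact (fR_pos h0 h1).le
  have h2 : 0 ≤ K * cl s := mul_nonneg (by linarith) h.1
  linarith

lemma FK_abs {K : ℝ} (hK : 345 ≤ K) (s : ℝ) : |FK K s| ≤ K := by
  rw [abs_of_nonneg (FK_nonneg hK s)]; exact FK_le hK s

lemma FK_lip {K : ℝ} (hK : 345 ≤ K) : LipschitzWith ⟨K + 345, by linarith⟩ (FK K) := by
  apply LipschitzWith.of_dist_le_mul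
  intro s t
  rw [Real.dist_eq, Real.dist_eq]
  show _ ≤ (K + 345) * |s - t|
  unfold FK
  have h1 := fR_lip (cl_mem s) (cl_mem t)
  have h2 := cl_lip s t
  have h3 : fR (cl s) + K * cl s - (fR (cl t) + K * cl t)
      = (fR (cl s) - fR (cl t)) + K * (cl s - cl t) := by ring
  rw [h3]
  refine (abs_add_le _ _).trans ?_
  rw [abs_mul, abs_of_nonneg (by linarith : (0:ℝ) ≤ K)]
  have h4 := abs_nonneg (cl s - cl t)
  nlinarith

end Pool.Agent.H314.Robin
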