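import Mathlib
import Pool.Agent.H314.Robin.R14

open MeasureTheory Set Filter Topology
open scoped ENNReal NNReal InnerProductSpace

namespace Pool.Agent.H314.Robin

/-- wall slope -/
noncomputable def cL : ℝ := 10 ^ 10
/-- half width of the well at the top -/
noncomputable def cw : ℝ := 1 / 10 ^ 5 + Real.pi / 10 ^ 10
/-- the Robin parameter -/
noncomputable def cα : ℝ := 50000

lemma cL_pos : 0 < cL := by unfold cL; norm_num
lemma cα_pos : 0 < cα := by unfold cα; norm_num
lemma cα_inv : cα⁻¹ = 2 / 100000 := by unfold cα; norm_num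
lemma cw_gt : Real.pi / cL < cw := by unfold cL cw; linarith [Real.pi_pos]
lemma cw_sub : cw - Real.pi / cL = 1 / 10 ^ 5 := by unfold cL cw; ring
lemma cw_lt : cw < 1 / 10 ^ 5 + 32 / 10 ^ 11 := by
  unfold cw
  have := Real.pi_lt_d2
  linarith

section ineq

lemma sq_bound {x : ℝ} (h : |x| < cw) : x ^ 2 ≤ 1.2 / 10 ^ 10 := by
  have h1 := cw_lt
  have h2 := abs_nonneg x
  have h3 : |x| < 1 / 10 ^ 5 + 32 / 10 ^ 11 := h.trans h1
  rw [← sq_abs]
  nlinarith

/-- interior inequality for the subsolutions -/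
lemma sub_in {K c : ℝ} (hc : 0 < c) (hc1 : c ≤ 3 / 4)
    (hf : ∀ s, 0.998 * c ≤ s → s ≤ 1.0016 * c → 2.01 * c ≤ fR s) (y x : ℝ) :
    -(Vf2 c y * bf 1.001 x + Vf c y * bf2 1.001 x) + K * (Vf c y * bf 1.001 x)
      ≤ FK K (Vf c y * bf 1.001 x) := by
  have h1 := Vf_bounds hc.le y
  have h2 := bf_bounds (β := 1.001) (by norm_num) (by norm_num) x
  have h3 := Vf2_bounds hc.le y
  have h4 : |bf2 1.001 x| ≤ 2.002 := by
    unfold bf2
    rw [abs_mul, abs_neg, abs_of_nonneg (by norm_num : (0:ℝ) ≤ 2 * 1.001)]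
    have := Real.abs_cos_le_one (200 * x)
    have h0 := abs_nonneg (Real.cos (200 * x))
    nlinarith
  have hb0 : 0.9998 ≤ bf 1.001 x := by
    refine le_trans ?_ h2.1; norm_num
  have hV0 : 0 < Vf c y := by nlinarith [h1.1]
  have hs1 : 0.998 * c ≤ Vf c y * bf 1.001 x := by
    have : 0.9984 * c * 0.9998 ≤ Vf c y * bf 1.001 x :=
      mul_le_mul h1.1 hb0 (by norm_num) hV0.le
    nlinarith
  have hs2 : Vf c y * bf 1.001 x ≤ 1.0016 * c := by
    have : Vf c y * bf 1.001 x ≤ Vf c y * 1 := mul_le_mul_of_nonneg_left h2.2 hV0.le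
    linarith [h1.2]
  have hs0 : 0 ≤ Vf c y * bf 1.001 x := by positivity
  rw [FK_of_mem K ⟨hs0, by linarith⟩]
  have h5 := hf _ hs1 hs2
  have h6 : -(Vf2 c y * bf 1.001 x) ≤ c / 1000 := by
    have : |Vf2 c y * bf 1.001 x| ≤ c / 1000 * 1 := by
      rw [abs_mul, abs_of_nonneg (by linarith : 0 ≤ bf 1.001 x)]
      exact mul_le_mul h3 h2.2 (by linarith) (by positivity)
    rw [abs_le] at this
    linarith [this.1]
  have h7 : -(Vf c y * bf2 1.001 x) ≤ 1.0016 * c * 2.002 := by
    have : |Vf c y * bf2 1.001 x| ≤ 1.0016 * c * 2.002 := by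
      rw [abs_mul, abs_of_pos hV0]
      exact mul_le_mul h1.2 h4 (abs_nonneg _) (by positivity)
    rw [abs_le] at this
    linarith [this.1]
  nlinarith

lemma sin_wall {x : ℝ} (h0 : 1 / 10 ^ 5 < x) (h1 : x < cw) :
    1.9999 / 1000 ≤ Real.sin (200 * x) := by
  have h2 := cw_lt
  have h3 : 200 * x ≤ 1 := by linarith
  have h4 := Real.sin_gt_sub_cube (x := 200 * x) (by linarith)
  have h5 : 200 * x < 3 / 1000 := by linarith
  have h6 : 2 / 1000 < 200 * x := by linarith
  have h7 : (200 * x) ^ 3 ≤ (3 / 1000) ^ 3 := pow_le_pow_left₀ (by linarith) h5.le 3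
  norm_num at h7
  linarith

/-- the product slope times the derivative of the horizontal profile, on the walls -/
lemma wall_prod {β x : ℝ}
    (h : (0 < x ∧ slope Real.pi cL cw x = cL) ∨ (x < 0 ∧ slope Real.pi cL cw x = -cL)) :
    slope Real.pi cL cw x * bf1 β x = -(cL * (β / 100) * Real.sin (200 * |x|)) := by
  unfold bf1
  rcases h with ⟨h2, h3⟩ | ⟨h2, h3⟩
  · rw [h3, abs_of_pos h2]; ring
  · rw [h3, abs_of_neg h2, mul_neg, Real.sin_neg]; ring

lemma wall_sqrt {x : ℝ}
    (h : (0 < x ∧ slope Real.pi cL cw x = cL) ∨ (x < 0 ∧ slope Real.pi cL cw x = -cL)) :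
    cL ≤ Real.sqrt (1 + slope Real.pi cL cw x ^ 2) ∧
      Real.sqrt (1 + slope Real.pi cL cw x ^ 2) ≤ cL + 1 := by
  have h1 : slope Real.pi cL cw x ^ 2 = cL ^ 2 := by
    rcases h with ⟨_, h3⟩ | ⟨_, h3⟩ <;> rw [h3]; ring
  have h2 := cL_pos
  rw [h1]
  constructor
  · apply Real.le_sqrt_of_sq_le; linarith
  · rw [Real.sqrt_le_left (by linarith)]; nlinarith

/-- boundary inequality for the subsolutions -/
lemma sub_bd {c : ℝ} (hc : 0 < c) (x : ℝ) :
    slope Real.pi cL cw x * Vf c (wellProfile Real.pi cL cw x) * bf1 1.001 x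
      - Vf1 c (wellProfile Real.pi cL cw x) * bf 1.001 x
      + cα⁻¹ * (Vf c (wellProfile Real.pi cL cw x) * bf 1.001 x
        * Real.sqrt (1 + slope Real.pi cL cw x ^ 2)) ≤ 0 := by
  set y := wellProfile Real.pi cL cw x with hy
  have h1 := Vf_bounds hc.le y
  have h2 := bf_bounds (β := 1.001) (by norm_num) (by norm_num) x
  have hV0 : 0 < Vf c y := by nlinarith [h1.1]
  have hV1 := Vf1_bounds hc.le y
  have hb0 : 0.9998 ≤ bf 1.001 x := by
    refine le_trans ?_ h2.1; norm_num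
  rw [cα_inv]
  rcases bd_cases Real.pi_pos cL_pos cw_gt x with ⟨h3, h4⟩ | ⟨h3, h4, h5, h6, h7⟩
  · rw [h3]
    have e1 : Real.sqrt (1 + (0:ℝ) ^ 2) = 1 := by norm_num
    rw [e1]
    have hpi : Real.pi ^ 2 ≤ 10 := by
      have := Real.pi_lt_d2
      have := Real.pi_pos
      nlinarith
    have hlow : c / 11000 ≤ Vf1 c y := by
      unfold Vf1
      have h8 : 1 + y ^ 2 ≤ 11 := by
        rcases h4 with h | h <;> rw [← hy] at h <;> rw [h] <;> nlinarith
      have h9 : (1:ℝ) / 11 ≤ 1 / (1 + y ^ 2) :=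
        one_div_le_one_div_of_le (one_add_sq_pos y) h8
      calc c / 11000 = c / 1000 * (1 / 11) := by ring
        _ ≤ _ := mul_le_mul_of_nonneg_left h9 (by positivity)
    have h10 : 2 / 100000 * Vf c y ≤ Vf1 c y := by nlinarith [h1.2]
    have h11 := mul_le_mul_of_nonneg_right h10 (by linarith : 0 ≤ bf 1.001 x)
    nlinarith
  · rw [cw_sub] at h3
    have h8 := wall_prod (β := 1.001) h7
    have h9 := (wall_sqrt h7).2
    have h10 := sin_wall h3 h4
    set S := Real.sqrt (1 + slope Real.pi cL cw x ^ 2) with hS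
    have hS0 : 0 ≤ S := Real.sqrt_nonneg _
    have e1 : slope Real.pi cL cw x * Vf c y * bf1 1.001 x
        = -(Vf c y * (cL * (1.001 / 100) * Real.sin (200 * |x|))) := by
      calc _ = Vf c y * (slope Real.pi cL cw x * bf1 1.001 x) := by ring
        _ = _ := by rw [h8]; ring
    rw [e1]
    have h11 : 0 ≤ Vf1 c y * bf 1.001 x := mul_nonneg hV1.1 (by linarith)
    have h12 : Vf c y * bf 1.001 x * S ≤ Vf c y * (cL + 1) := by
      calc Vf c y * bf 1.001 x * S ≤ Vf c y * 1 * (cL + 1) :=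
            mul_le_mul (mul_le_mul_of_nonneg_left h2.2 hV0.le) h9 hS0 (by positivity)
        _ = _ := by ring
    have h13 : 2 / 100000 * (cL + 1) ≤ cL * (1.001 / 100) * Real.sin (200 * |x|) := by
      have : cL * (1.001 / 100) * (1.9999 / 1000) ≤ cL * (1.001 / 100) * Real.sin (200 * |x|) :=
        mul_le_mul_of_nonneg_left h10 (by have := cL_pos; positivity)
      refine le_trans ?_ this
      unfold cL; norm_num
    have h14 := mul_le_mul_of_nonneg_left h13 hV0.le
    nlinarith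

/-- interior inequality for the supersolution -/
lemma sup_in {K : ℝ} (hK : 1000 ≤ K) {y x : ℝ} (hx : y < 0 → |x| < cw) :
    FK K (Wf y * bf 0.999 x) ≤
    -(Wf2 y * bf 0.999 x + Wf y * bf2 0.999 x) + K * (Wf y * bf 0.999 x) := by
  have h1 := Wf_bounds y
  have h2 := bf_bounds (β := 0.999) (by norm_num) (by norm_num) x
  have hb0 : 0.9999 ≤ bf 0.999 x := by
    refine le_trans ?_ h2.1; norm_num
  set b := bf 0.999 x with hb
  have hQ0 : 0.2499 ≤ Wf y * b := by nlinarith [h1.1]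
  rcases lt_or_ge y 0 with hy | hy
  · have h3 := sq_bound (hx hy)
    have h4 : Wf2 y = -(Wf y - 0.635) := by
      unfold Wf2 Wf; rw [if_pos hy, min_eq_left hy.le]; ring
    have h5 := Real.one_sub_sq_div_two_le_cos (x := 200 * x)
    have h6 : bf2 0.999 x ≤ -1.99 := by
      unfold bf2
      nlinarith
    have h7 : 1.99 * (Wf y * b) ≤ -(Wf y * bf2 0.999 x) := by
      have e1 : Wf y * b ≤ Wf y := by nlinarith [h1.1, h2.2]
      have e2 : Wf y * 1.99 ≤ Wf y * (-bf2 0.999 x) :=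
        mul_le_mul_of_nonneg_left (by linarith) (by linarith [h1.1])
      linarith
    have h8 : 2.99 * (Wf y * b) - 0.635 ≤ -(Wf2 y * b + Wf y * bf2 0.999 x) := by
      rw [h4]
      have : (0.635 : ℝ) * b ≤ 0.635 := by linarith [h2.2]
      linarith
    rcases le_total (Wf y * b) 1 with h9 | h9
    · rw [FK_of_mem K ⟨by linarith, h9⟩]
      have := fR_low hQ0 h9
      linarith
    · rw [FK_of_one_le K h9]
      nlinarith
  · have h3 : Wf y = 1.02 := by
      unfold Wf; rw [min_eq_right hy, Real.cos_zero]; norm_num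
    have h4 : Wf2 y = 0 := by unfold Wf2; rw [if_neg (by linarith)]
    have h6 : |bf2 0.999 x| ≤ 2 := by
      unfold bf2
      rw [abs_mul, abs_neg, abs_of_nonneg (by norm_num : (0:ℝ) ≤ 2 * 0.999)]
      have := Real.abs_cos_le_one (200 * x)
      have h0 := abs_nonneg (Real.cos (200 * x))
      nlinarith
    rw [abs_le] at h6
    rw [h3, h4]
    have h7 : 1.0198 ≤ 1.02 * b := by nlinarith
    rw [FK_of_one_le K (by linarith)]
    nlinarith [h6.2]

/-- boundary inequality for the supersolution -/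
lemma sup_bd (x : ℝ) :
    0 ≤ slope Real.pi cL cw x * Wf (wellProfile Real.pi cL cw x) * bf1 0.999 x
      - Wf1 (wellProfile Real.pi cL cw x) * bf 0.999 x
      + cα⁻¹ * (Wf (wellProfile Real.pi cL cw x) * bf 0.999 x
        * Real.sqrt (1 + slope Real.pi cL cw x ^ 2)) := by
  set y := wellProfile Real.pi cL cw x with hy
  have h1 := Wf_bounds y
  have h2 := bf_bounds (β := 0.999) (by norm_num) (by norm_num) x
  have hb0 : 0.9999 ≤ bf 0.999 x := by
    refine le_trans ?_ h2.1; norm_num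
  rw [cα_inv]
  rcases bd_cases Real.pi_pos cL_pos cw_gt x with ⟨h3, h4⟩ | ⟨h3, h4, h5, h6, h7⟩
  · rw [h3]
    have e1 : Wf1 y = 0 := by
      unfold Wf1
      rcases h4 with h | h <;> rw [← hy] at h <;> rw [h]
      · rw [min_eq_left (by linarith [Real.pi_pos]), Real.sin_neg, Real.sin_pi]; simp
      · simp
    rw [e1]
    have : 0 ≤ Wf y * bf 0.999 x * Real.sqrt (1 + (0:ℝ) ^ 2) :=
      mul_nonneg (mul_nonneg (by linarith) (by linarith)) (Real.sqrt_nonneg _)
    linarith
  · rw [cw_sub] at h3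
    have h8 := wall_prod (β := 0.999) h7
    have h9 := (wall_sqrt h7).1
    set S := Real.sqrt (1 + slope Real.pi cL cw x ^ 2) with hS
    have hS0 : 0 ≤ S := Real.sqrt_nonneg _
    have hsin : Real.sin (200 * |x|) ≤ 200 * |x| := Real.sin_le (by positivity)
    have h10 : Real.sin (200 * |x|) ≤ 200 * (1 / 10 ^ 5 + 32 / 10 ^ 11) := by
      have := cw_lt
      linarith
    have e1 : slope Real.pi cL cw x * Wf y * bf1 0.999 x
        = -(Wf y * (cL * (0.999 / 100) * Real.sin (200 * |x|))) := by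
      calc _ = Wf y * (slope Real.pi cL cw x * bf1 0.999 x) := by ring
        _ = _ := by rw [h8]; ring
    rw [e1]
    have hW1 : Wf1 y ≤ 0.385 := by
      unfold Wf1
      have := Real.neg_one_le_sin (min y 0)
      linarith
    have h11 : Wf1 y * bf 0.999 x ≤ 0.385 := by
      calc Wf1 y * bf 0.999 x ≤ 0.385 * bf 0.999 x :=
            mul_le_mul_of_nonneg_right hW1 (by linarith)
        _ ≤ 0.385 * 1 := mul_le_mul_of_nonneg_left h2.2 (by norm_num)
        _ = _ := by norm_num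
    have hb1 : 1 - 1.2 / 10 ^ 10 ≤ bf 0.999 x := by
      unfold bf
      have e2 : Real.sin (100 * x) ^ 2 ≤ (100 * x) ^ 2 := Real.sin_sq_le_sq
      have e3 := sq_bound h4
      nlinarith
    have h12 : Wf y * ((1 - 1.2 / 10 ^ 10) * cL) ≤ Wf y * bf 0.999 x * S := by
      calc Wf y * ((1 - 1.2 / 10 ^ 10) * cL) = Wf y * (1 - 1.2 / 10 ^ 10) * cL := by ring
        _ ≤ Wf y * bf 0.999 x * S :=
            mul_le_mul (mul_le_mul_of_nonneg_left hb1 (by linarith)) h9 cL_pos.le
              (mul_nonneg (by linarith) (by linarith))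
    have h13 : Wf y * (cL * (0.999 / 100) * Real.sin (200 * |x|))
        ≤ Wf y * (cL * (0.999 / 100) * (200 * (1 / 10 ^ 5 + 32 / 10 ^ 11))) :=
      mul_le_mul_of_nonneg_left (mul_le_mul_of_nonneg_left h10 (by have := cL_pos; positivity))
        (by linarith)
    have h14 : 2 ≤ 2 / 100000 * ((1 - 1.2 / 10 ^ 10) * cL)
        - cL * (0.999 / 100) * (200 * (1 / 10 ^ 5 + 32 / 10 ^ 11)) := by
      unfold cL; norm_num
    have h15 := mul_le_mul_of_nonneg_left h14 (by linarith : 0 ≤ Wf y)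
    linarith [h1.1]

end ineq

end Pool.Agent.H314.Robin
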