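import Mathlib
import Pool.Agent.H314.Robin.R15

open MeasureTheory Set Filter Topology
open scoped ENNReal NNReal InnerProductSpace

namespace Pool.Agent.H314.Robin

/-- a large constant -/
noncomputable def cK (n : ℕ) : ℝ := 1000 + 2 * ((n : ℝ) + 4)

lemma cK_ge (n : ℕ) : 2 * ((n : ℝ) + 4) ≤ cK n := by unfold cK; linarith
lemma cK_ge' (n : ℕ) : 1000 ≤ cK n := by
  unfold cK
  have : (0:ℝ) ≤ n := Nat.cast_nonneg n
  linarith

lemma const_sup {n : ℕ} (Ω : Dom n) {α : ℝ} (hα : 0 < α) (K : ℝ) {v : Pt n → ℝ} (hv : IsD v)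
    (hv0 : ∀ z, 0 ≤ v z) :
    K * ∫ z, v z ∂(mu Ω) ≤ BB Ω α K (io Ω (fun _ => 1) (isD_const 1)) (io Ω v hv) := by
  rw [BB_io_io]
  have h1 : ∀ z, ((∑ i, pd (fun _ : Pt n => (1:ℝ)) i z * (pd v i z + qq i z * v z))
      + K * (1 * v z)) = K * v z := by
    intro z
    have : ∀ i, pd (fun _ : Pt n => (1:ℝ)) i z = 0 := by intro i; simp [pd]
    simp [this]
  simp only [h1]
  rw [integral_const_mul]
  have h2 : 0 ≤ α⁻¹ * ∫ z, 1 * v z ∂(sg Ω) := by
    apply mul_nonneg (inv_nonneg.mpr hα.le)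
    apply integral_nonneg
    intro z
    simpa using hv0 z
  linarith

/-- the domain of the counterexample -/
noncomputable def Om (n : ℕ) : Dom n := wellDom n Real.pi cL cw cL_pos

lemma Om_fn (n : ℕ) : (Om n).fn = floorFn Real.pi cL cw := rfl

/-- the subsolution with parameter c -/
noncomputable def Pc (n : ℕ) (c : ℝ) : Pt n → ℝ := bar n (Vf c) (bf 1.001)
/-- the supersolution -/
noncomputable def Qc (n : ℕ) : Pt n → ℝ := bar n Wf (bf 0.999)

lemma Pc_isD (n : ℕ) {c : ℝ} (hc : 0 ≤ c) (hc1 : c ≤ 1) : IsD (Pc n c) :=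
  bar_isD (prof_sub hc hc1 (by norm_num) (by norm_num))
lemma Qc_isD (n : ℕ) : IsD (Qc n) := bar_isD (prof_sup (by norm_num) (by norm_num))

lemma Pc_bounds (n : ℕ) {c : ℝ} (hc : 0 < c) (z : Pt n) :
    0.998 * c ≤ Pc n c z ∧ Pc n c z ≤ 1.0016 * c := by
  have h1 := Vf_bounds hc.le z.2
  have h2 := bf_bounds (β := 1.001) (by norm_num) (by norm_num) (z.1 0)
  have hb0 : 0.9998 ≤ bf 1.001 (z.1 0) := by
    refine le_trans ?_ h2.1; norm_num
  have hV0 : 0 < Vf c z.2 := by nlinarith [h1.1]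
  unfold Pc bar
  constructor
  · have : 0.9984 * c * 0.9998 ≤ Vf c z.2 * bf 1.001 (z.1 0) :=
      mul_le_mul h1.1 hb0 (by norm_num) hV0.le
    nlinarith
  · have : Vf c z.2 * bf 1.001 (z.1 0) ≤ Vf c z.2 * 1 := mul_le_mul_of_nonneg_left h2.2 hV0.le
    linarith [h1.2]

lemma Qc_bounds (n : ℕ) (z : Pt n) : 0.2499 ≤ Qc n z ∧ Qc n z ≤ Wf z.2 := by
  have h1 := Wf_bounds z.2
  have h2 := bf_bounds (β := 0.999) (by norm_num) (by norm_num) (z.1 0)
  have hb0 : 0.9999 ≤ bf 0.999 (z.1 0) := by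
    refine le_trans ?_ h2.1; norm_num
  unfold Qc bar
  constructor
  · nlinarith [h1.1]
  · nlinarith [h1.1, h2.2]

lemma Pc_sub (n : ℕ) {c : ℝ} (hc : 0 < c) (hc1 : c ≤ 3 / 4)
    (hf : ∀ s, 0.998 * c ≤ s → s ≤ 1.0016 * c → 2.01 * c ≤ fR s)
    {v : Pt n → ℝ} (hv : IsD v) (hv0 : ∀ z, 0 ≤ v z) :
    BB (Om n) cα (cK n) (io _ (Pc n c) (Pc_isD n hc.le (by linarith))) (io _ v hv)
      ≤ ∫ z, FK (cK n) (Pc n c z) * v z ∂(mu (Om n)) := by
  have hK : 345 ≤ cK n := by linarith [cK_ge' n]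
  apply barrier_sub Real.pi_pos cL_pos cw_gt
    (prof_sub hc.le (by linarith) (by norm_num) (by norm_num)) (FK_cont _) (FK_abs hK) _ _ hv hv0
  · intro z _
    exact sub_in hc hc1 hf z.2 (z.1 0)
  · filter_upwards [surf_eq (n := n) Real.pi_pos cL_pos cw_gt] with x hx
    rw [hx]
    exact sub_bd hc (x 0)

lemma Qc_sup (n : ℕ) {v : Pt n → ℝ} (hv : IsD v) (hv0 : ∀ z, 0 ≤ v z) :
    ∫ z, FK (cK n) (Qc n z) * v z ∂(mu (Om n)) ≤
    BB (Om n) cα (cK n) (io _ (Qc n) (Qc_isD n)) (io _ v hv) := by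
  have hK : 345 ≤ cK n := by linarith [cK_ge' n]
  apply barrier_sup Real.pi_pos cL_pos cw_gt
    (prof_sup (by norm_num) (by norm_num)) (FK_cont _) (FK_abs hK) _ _ hv hv0
  · intro z hz
    exact sup_in (cK_ge' n) (fun hy => (in_well cL_pos hz hy).1)
  · filter_upwards [surf_eq (n := n) Real.pi_pos cL_pos cw_gt] with x hx
    rw [hx]
    exact sup_bd (x 0)

/-- the large solution -/
theorem sol_A (n : ℕ) : ∃ u : Pt n → ℝ, IsPosBddSol fR cα (floorFn Real.pi cL cw) u ∧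
    ∀ z, Pc n (3 / 4) z ≤ u z := by
  have hK : 345 ≤ cK n := by linarith [cK_ge' n]
  obtain ⟨U, hU, hEq, hae⟩ := exists_between (Om n) cα_pos (cK_ge n) (FK_lip hK) (FK_zero _)
    (FK_mono hK) (P := Pc n (3 / 4)) (Q := fun _ => 1)
    (Pc_isD n (by norm_num) (by norm_num)) (isD_const 1)
    (fun z _ => by have := (Pc_bounds n (c := 3 / 4) (by norm_num) z).1; linarith)
    (fun z _ => by have := (Pc_bounds n (c := 3 / 4) (by norm_num) z).2; linarith)
    (fun v hv hv0 => Pc_sub n (by norm_num) le_rfl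
      (fun s h1 h2 => fR_A (by linarith) (by linarith)) hv hv0)
    (fun v hv hv0 => by
      simp only [FK_of_one_le (cK n) le_rfl]
      rw [integral_const_mul]
      exact const_sup (Om n) cα_pos (cK n) hv hv0)
  obtain ⟨u, hu, _, hPu⟩ := weak_of_fixed (Om n) fR_cont (fun s hs => FK_of_mem (cK n) hs) hU hEq
    (P := Pc n (3 / 4)) (Pc_isD n (by norm_num) (by norm_num)).smooth.continuous
    (fun z => by have := (Pc_bounds n (c := 3 / 4) (by norm_num) z).1; linarith)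
    (fun z => by have := (Pc_bounds n (c := 3 / 4) (by norm_num) z).2; linarith) hae
  exact ⟨u, hu, hPu⟩

/-- the small solution -/
theorem sol_B (n : ℕ) : ∃ u : Pt n → ℝ, IsPosBddSol fR cα (floorFn Real.pi cL cw) u ∧
    ∀ᵐ z ∂(volume.restrict (epi (floorFn (n := n) Real.pi cL cw))), u z ≤ Qc n z := by
  have hK : 345 ≤ cK n := by linarith [cK_ge' n]
  obtain ⟨U, hU, hEq, hae⟩ := exists_between (Om n) cα_pos (cK_ge n) (FK_lip hK) (FK_zero _)
    (FK_mono hK) (P := Pc n (1 / 100)) (Q := Qc n)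
    (Pc_isD n (by norm_num) (by norm_num)) (Qc_isD n)
    (fun z _ => by have := (Pc_bounds n (c := 1 / 100) (by norm_num) z).1; linarith)
    (fun z _ => by
      have := (Pc_bounds n (c := 1 / 100) (by norm_num) z).2
      have := (Qc_bounds n z).1
      linarith)
    (fun v hv hv0 => Pc_sub n (by norm_num) (by norm_num)
      (fun s h1 h2 => fR_B (by linarith) (by linarith)) hv hv0)
    (fun v hv hv0 => Qc_sup n hv hv0)
  -- comparison with the constant one
  have hle : 0 ≤ pV (Om n) (io (Om n) (fun _ => 1) (isD_const 1) - U) := by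
    apply comparison (Om n) cα_pos (cK_ge n) ((HH (Om n)).sub_mem (io_mem _ _) hU)
    intro v hv hv0
    rw [map_sub, _root_.sub_apply, hEq v hv, sub_nonneg]
    refine le_trans ?_ (const_sup (Om n) cα_pos (cK n) hv hv0)
    rw [← integral_const_mul]
    have hvi : Integrable v (mu (Om n)) :=
      isD_integrable hv.smooth.continuous (cmp_bdd hv (Sum.inl true))
    apply integral_mono_of_nonneg
    · filter_upwards with z
      exact mul_nonneg (FK_nonneg hK _) (hv0 z)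
    · exact hvi.const_mul _
    · filter_upwards with z
      exact mul_le_mul_of_nonneg_right (FK_le hK _) (hv0 z)
  have hle1 : ∀ᵐ z ∂(mu (Om n)), pV (Om n) U z ≤ 1 := by
    rw [map_sub, sub_nonneg, ← Lp.coeFn_le, pV_io] at hle
    filter_upwards [hle, (mV (Om n) (isD_const 1)).coeFn_toLp] with z h1 h2
    rw [h2] at h1
    exact h1
  obtain ⟨u, hu, hueq, _⟩ := weak_of_fixed (Om n) fR_cont (fun s hs => FK_of_mem (cK n) hs) hU hEq
    (P := Pc n (1 / 100)) (Pc_isD n (by norm_num) (by norm_num)).smooth.continuous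
    (fun z => by have := (Pc_bounds n (c := 1 / 100) (by norm_num) z).1; linarith)
    (fun z => by have := (Pc_bounds n (c := 1 / 100) (by norm_num) z).2; linarith)
    (by filter_upwards [hae, hle1] with z h1 h2; exact ⟨h1.1, h2⟩)
  refine ⟨u, hu, ?_⟩
  have h3 : ∀ᵐ z ∂(volume.restrict (epi (Om n).fn)), pV (Om n) U z ≤ Qc n z :=
    (ae_mu_iff (Om n)).mp (hae.mono fun z hz => hz.2)
  rw [Om_fn] at hueq h3
  filter_upwards [hueq, h3] with z h4 h5
  rw [h4]; exact h5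

end Pool.Agent.H314.Robin
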